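import Mathlib

set_option autoImplicit false

namespace Pool.Agent.P.MP_5b4d81_al

universe u

variable {N : Type u} [Group N]

/-- `x` has word length at most `n` with respect to `S`. -/
def InBall (S : Finset N) (n : ℕ) (x : N) : Prop :=
  ∃ l : List N, l.length ≤ n ∧ (∀ y ∈ l, y ∈ S ∨ y⁻¹ ∈ S) ∧ l.prod = x

/-- `D_N(H,x)`: least order of a finite quotient of `N` in which the image of `x` is outside the
image of `H`. -/
noncomputable def sepIndex (H : Subgroup N) (x : N) : ℕ :=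
  sInf {m | ∃ (Q : Type u) (_ : Group Q) (_ : Finite Q) (φ : N →* Q),
    Function.Surjective φ ∧ φ x ∉ H.map φ ∧ Nat.card Q = m}

open Classical in
/-- `F_{N,H,S}(n)`: the maximum of `D_N(H,x)` over `x ∉ H` of length at most `n`
(value `1` if there is no such `x`). -/
noncomputable def sepGrowth (H : Subgroup N) (S : Finset N) (n : ℕ) : ℕ :=
  if ∃ x, x ∉ H ∧ InBall S n x then sSup {m | ∃ x, x ∉ H ∧ InBall S n x ∧ sepIndex H x = m}
  else 1

/-- `1 = s 0 ⊴ s 1 ⊴ ⋯ ⊴ s m = N` with cyclic factors. -/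
def IsPolycyclicSeries (m : ℕ) (s : ℕ → Subgroup N) : Prop :=
  s 0 = ⊥ ∧ s m = ⊤ ∧ ∀ i < m, s i ≤ s (i + 1) ∧
    ∃ _ : ((s i).subgroupOf (s (i + 1))).Normal,
      IsCyclic (s (i + 1) ⧸ (s i).subgroupOf (s (i + 1)))

/-- Hirsch length: the number of infinite factors of a polycyclic series (least value over all
series; it is the same for all series). -/
noncomputable def hirschLength (N : Type u) [Group N] : ℕ :=
  sInf {h | ∃ (m : ℕ) (s : ℕ → Subgroup N), IsPolycyclicSeries m s ∧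
    {i | i < m ∧ Infinite (s (i + 1) ⧸ (s i).subgroupOf (s (i + 1)))}.ncard = h}

/-- `f ⪯ g`. -/
def Preceq (f g : ℕ → ℝ) : Prop :=
  ∃ C : ℕ, 0 < C ∧ ∀ n : ℕ, 1 ≤ n → f n ≤ C * g (C * n)

end Pool.Agent.P.MP_5b4d81_al
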