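import Pool.Agent.P.MP_5b4d81_al.Series

set_option autoImplicit false

namespace Pool.Agent.P.MP_5b4d81_al

universe u v

/-- Triangular coordinates on a group. -/
structure Tri (G : Type u) [Group G] (A : Type v) [AddCommGroup A] where
  h : ℕ
  co : G ≃ (Fin h → A)
  addR' : ∀ (j : Fin h) (x y : G), (∀ i < j, co x i = 0) → co (y * x) j = co y j + co x j
  addL' : ∀ (j : Fin h) (x y : G), (∀ i < j, co x i = 0) → co (x * y) j = co x j + co y j

namespace Tri

variable {G : Type u} [Group G] {A : Type v} [AddCommGroup A] (M : Tri G A)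

lemma co_one (j : Fin M.h) : M.co 1 j = 0 := by
  induction j using WellFoundedLT.induction with
  | ind j ih => simpa using M.addR' j 1 1 ih

/-- The `i`-th layer subgroup. -/
def Γ (i : ℕ) : Subgroup G where
  carrier := {x | ∀ j : Fin M.h, (j : ℕ) < i → M.co x j = 0}
  one_mem' := fun j _ => M.co_one j
  mul_mem' := fun {x y} hx hy j hj => by
    rw [M.addR' j y x fun i hi => hy i (lt_trans hi hj), hx j hj, hy j hj, add_zero]
  inv_mem' := fun {x} hx j hj => by
    have := M.addR' j x x⁻¹ fun i hi => hx i (lt_trans hi hj)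
    rw [inv_mul_cancel, M.co_one, hx j hj, add_zero] at this
    exact this.symm

variable {M}

lemma mem_Γ {i : ℕ} {x : G} : x ∈ M.Γ i ↔ ∀ j : Fin M.h, (j : ℕ) < i → M.co x j = 0 := Iff.rfl

lemma mem_Γ_zero (x : G) : x ∈ M.Γ 0 := fun _ h => absurd h (Nat.not_lt_zero _)

lemma Γ_anti {i j : ℕ} (h : i ≤ j) : M.Γ j ≤ M.Γ i := fun _ hx k hk => hx k (hk.trans_le h)

lemma mem_Γ_succ {i : Fin M.h} {x : G} (hx : x ∈ M.Γ i) (h : M.co x i = 0) : x ∈ M.Γ (i + 1) :=
  fun j hj => by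
    rcases Nat.lt_succ_iff_lt_or_eq.1 hj with h1 | h1
    · exact hx j h1
    · rwa [Fin.ext h1]

lemma eq_one_of_mem {i : ℕ} (hi : M.h ≤ i) {x : G} (hx : x ∈ M.Γ i) : x = 1 :=
  M.co.injective (funext fun j => by rw [M.co_one, hx j (j.2.trans_le hi)])

lemma addR {i : ℕ} {x : G} (hx : x ∈ M.Γ i) (y : G) {j : Fin M.h} (hj : (j : ℕ) ≤ i) :
    M.co (y * x) j = M.co y j + M.co x j :=
  M.addR' j x y fun k hk => hx k (lt_of_lt_of_le hk hj)

lemma addL {i : ℕ} {x : G} (hx : x ∈ M.Γ i) (y : G) {j : Fin M.h} (hj : (j : ℕ) ≤ i) :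
    M.co (x * y) j = M.co x j + M.co y j :=
  M.addL' j x y fun k hk => hx k (lt_of_lt_of_le hk hj)

lemma mulR_lt {i : ℕ} {x : G} (hx : x ∈ M.Γ i) (y : G) {j : Fin M.h} (hj : (j : ℕ) < i) :
    M.co (y * x) j = M.co y j := by rw [addR hx y hj.le, hx j hj, add_zero]

lemma mulL_lt {i : ℕ} {x : G} (hx : x ∈ M.Γ i) (y : G) {j : Fin M.h} (hj : (j : ℕ) < i) :
    M.co (x * y) j = M.co y j := by rw [addL hx y hj.le, hx j hj, zero_add]

lemma inv_mul_mem {i : ℕ} {x y : G} (h : ∀ j : Fin M.h, (j : ℕ) < i → M.co x j = M.co y j) :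
    x⁻¹ * y ∈ M.Γ i := by
  intro j
  induction j using WellFoundedLT.induction with
  | ind j ih =>
    intro hj
    have := M.addR' j (x⁻¹ * y) x fun k hk => ih k hk (lt_trans hk hj)
    rw [mul_inv_cancel_left, h j hj] at this
    simpa using this

lemma mul_inv_mem {i : ℕ} {x y : G} (h : ∀ j : Fin M.h, (j : ℕ) < i → M.co x j = M.co y j) :
    y * x⁻¹ ∈ M.Γ i := by
  intro j
  induction j using WellFoundedLT.induction with
  | ind j ih =>
    intro hj
    have := M.addL' j (y * x⁻¹) x fun k hk => ih k hk (lt_trans hk hj)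
    rw [inv_mul_cancel_right, h j hj] at this
    simpa using this

instance normal_Γ (i : ℕ) : (M.Γ i).Normal :=
  ⟨fun _ hx g => mul_inv_mem fun _ hj => (mulR_lt hx g hj).symm⟩

lemma co_conj {i : ℕ} {x : G} (hx : x ∈ M.Γ i) (g : G) {j : Fin M.h} (hj : (j : ℕ) ≤ i) :
    M.co (g * x * g⁻¹) j = M.co x j := by
  have := addL ((normal_Γ i).conj_mem x hx g) g hj
  rw [inv_mul_cancel_right, addR hx g hj, add_comm] at this
  exact (add_right_cancel this).symm

lemma co_inv {i : ℕ} {x : G} (hx : x ∈ M.Γ i) {j : Fin M.h} (hj : (j : ℕ) ≤ i) :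
    M.co x⁻¹ j = -M.co x j := by
  have := addR hx x⁻¹ hj
  rw [inv_mul_cancel, M.co_one] at this
  exact eq_neg_of_add_eq_zero_left this.symm

lemma co_zpow {i : ℕ} {x : G} (hx : x ∈ M.Γ i) (n : ℤ) {j : Fin M.h} (hj : (j : ℕ) ≤ i) :
    M.co (x ^ n) j = n • M.co x j := by
  induction n using Int.induction_on with
  | zero => simp [M.co_one]
  | succ n ih => rw [zpow_add_one, addR hx _ hj, ih, add_smul, one_smul]
  | pred n ih => rw [zpow_sub_one, addR (inv_mem hx) _ hj, ih, co_inv hx hj, sub_smul, one_smul,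
      sub_eq_add_neg]

/-- truncation to the coordinates `< j` -/
def trunc (M : Tri G A) (j : ℕ) (x : G) : G :=
  M.co.symm fun k => if (k : ℕ) < j then M.co x k else 0

lemma co_trunc (j : ℕ) (x : G) (k : Fin M.h) :
    M.co (M.trunc j x) k = if (k : ℕ) < j then M.co x k else 0 := by simp [trunc]

lemma trunc_mem {i : ℕ} (j : ℕ) {x : G} (hx : x ∈ M.Γ i) : M.trunc j x ∈ M.Γ i := fun k hk => by
  rw [co_trunc, hx k hk, ite_self]

lemma trunc_inv_mul (j : ℕ) (x : G) : (M.trunc j x)⁻¹ * x ∈ M.Γ j :=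
  inv_mul_mem fun k hk => by rw [co_trunc, if_pos hk]

lemma mul_trunc_inv (j : ℕ) (x : G) : x * (M.trunc j x)⁻¹ ∈ M.Γ j :=
  mul_inv_mem fun k hk => by rw [co_trunc, if_pos hk]

lemma co_mul_sub (j : Fin M.h) (x y : G) :
    M.co (x * y) j - M.co x j = M.co (M.trunc j x * y) j := by
  have h1 := addL (mul_trunc_inv (M := M) j x) (M.trunc j x * y) (le_refl (j : ℕ))
  have h2 := addL (mul_trunc_inv (M := M) j x) (M.trunc j x) (le_refl (j : ℕ))
  rw [inv_mul_cancel_right, co_trunc, if_neg (lt_irrefl _), add_zero] at h2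
  rw [← mul_assoc, inv_mul_cancel_right, ← h2] at h1
  rw [h1, add_sub_cancel_left]

end Tri

section
variable {G : Type u} [Group G] (s : Series (⊥ : Subgroup G))

namespace Series

open Classical in
noncomputable def χ (i : ℕ) (x : G) : ℤ :=
  if h : ∃ c : ℤ, (s.u i ^ c)⁻¹ * x ∈ s.Γ (i + 1) then h.choose else 0

noncomputable def rem : ℕ → G → G
  | 0, x => x
  | i + 1, x => (s.u i ^ s.χ i (rem i x))⁻¹ * rem i x

variable {s}

lemma χ_eq {i : ℕ} (hi : i < s.h) {x : G} {c : ℤ} (hc : (s.u i ^ c)⁻¹ * x ∈ s.Γ (i + 1)) :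
    s.χ i x = c := by
  have h : ∃ c : ℤ, (s.u i ^ c)⁻¹ * x ∈ s.Γ (i + 1) := ⟨c, hc⟩
  rw [χ, dif_pos h]
  have := mul_mem hc (inv_mem h.choose_spec)
  rw [mul_inv_rev, inv_inv, mul_assoc, mul_inv_cancel_left, ← zpow_neg, ← zpow_add] at this
  have := s.free i hi _ this
  omega

lemma χ_spec {i : ℕ} (hi : i < s.h) {x : G} (hx : x ∈ s.Γ i) :
    (s.u i ^ s.χ i x)⁻¹ * x ∈ s.Γ (i + 1) := by
  obtain ⟨c, hc⟩ := s.ex i hi x hx
  rwa [χ_eq hi hc]

lemma anti {i j : ℕ} (hij : i ≤ j) (hj : j ≤ s.h) : s.Γ j ≤ s.Γ i := by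
  induction j, hij using Nat.le_induction with
  | base => exact le_rfl
  | succ j _ ih => exact (s.le j hj).trans (ih (Nat.le_of_succ_le hj))

lemma conj_mem {i : ℕ} (hi : i < s.h) {x : G} (hx : x ∈ s.Γ (i + 1)) (g : G) :
    g * x * g⁻¹ ∈ s.Γ (i + 1) := by
  simpa using mul_mem (s.central i hi g x (s.le i hi hx)) hx

lemma χ_mul {i : ℕ} (hi : i < s.h) {x y : G} (hx : x ∈ s.Γ i) (hy : y ∈ s.Γ i) :
    s.χ i (x * y) = s.χ i x + s.χ i y := by
  refine χ_eq hi ?_
  have := mul_mem (conj_mem hi (χ_spec hi hx) (s.u i ^ s.χ i y)⁻¹) (χ_spec hi hy)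
  rw [zpow_add]
  simpa [mul_assoc] using this

lemma χ_zero {i : ℕ} (hi : i < s.h) {x : G} (hx : x ∈ s.Γ (i + 1)) : s.χ i x = 0 :=
  χ_eq hi (by simpa using hx)

lemma rem_mem {i : ℕ} (hi : i ≤ s.h) (x : G) : s.rem i x ∈ s.Γ i := by
  induction i with
  | zero => simp [s.top]
  | succ i ih => exact χ_spec hi (ih (Nat.le_of_succ_le hi))

lemma rem_mul {i : ℕ} (hi : i ≤ s.h) (x : G) {y : G} (hy : y ∈ s.Γ i) :
    s.rem i (x * y) = s.rem i x * y := by
  induction i with
  | zero => rfl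
  | succ i ih =>
    have h1 := ih (Nat.le_of_succ_le hi) (s.le i hi hy)
    rw [rem, rem, h1, χ_mul hi (rem_mem (Nat.le_of_succ_le hi) x) (s.le i hi hy), χ_zero hi hy,
      add_zero, mul_assoc]

lemma rem_one {i : ℕ} (hi : i ≤ s.h) : s.rem i 1 = 1 := by
  induction i with
  | zero => rfl
  | succ i ih => rw [rem, ih (Nat.le_of_succ_le hi), χ_zero hi (one_mem _)]; simp

lemma rem_of_mem {i : ℕ} (hi : i ≤ s.h) {y : G} (hy : y ∈ s.Γ i) : s.rem i y = y := by
  have := rem_mul hi 1 hy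
  rwa [one_mul, rem_one hi, one_mul] at this

lemma rem_of_zero {i : ℕ} {y : G} (hy : ∀ j < i, s.χ j (s.rem j y) = 0) : s.rem i y = y := by
  induction i with
  | zero => rfl
  | succ i ih =>
    rw [rem, hy i (Nat.lt_succ_self i), ih fun j hj => hy j (Nat.lt_succ_of_lt hj)]; simp

lemma rem_congr {i j : ℕ} (hij : i ≤ j) {x y : G} (h : s.rem i x = s.rem i y) :
    s.rem j x = s.rem j y := by
  induction j, hij using Nat.le_induction with
  | base => exact h
  | succ j _ ih => rw [rem, rem, ih]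

variable (s) in
noncomputable def co (x : G) (j : Fin s.h) : ℤ := s.χ j (s.rem j x)

lemma mem_of_co {i : ℕ} (hi : i ≤ s.h) {x : G} (h : ∀ j : Fin s.h, (j : ℕ) < i → s.co x j = 0) :
    x ∈ s.Γ i := by
  rw [← rem_of_zero (s := s) (i := i) (y := x) fun j hj => h ⟨j, hj.trans_le hi⟩ hj]
  exact rem_mem hi x

lemma co_of_mem {i : ℕ} (hi : i ≤ s.h) {x : G} (hx : x ∈ s.Γ i) (j : Fin s.h) (hj : (j : ℕ) < i) :
    s.co x j = 0 := by
  rw [co, rem_of_mem j.2.le (anti hj.le hi hx), χ_zero j.2 (anti hj hi hx)]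

lemma co_basis (i : Fin s.h) (c : ℤ) {w : G} (hw : w ∈ s.Γ (i + 1)) :
    s.co (s.u i ^ c * w) = Function.update (s.co w) i c := by
  have h1 : s.u i ^ c * w ∈ s.Γ i := mul_mem (zpow_mem (s.mem i i.2) c) (s.le i i.2 hw)
  have h2 : s.χ i (s.u i ^ c * w) = c := χ_eq i.2 (by simpa using hw)
  funext j
  rcases lt_trichotomy j i with h | rfl | h
  · rw [Function.update_of_ne h.ne, co_of_mem i.2.le h1 j h,
      co_of_mem i.2 hw j (Nat.lt_succ_of_lt h)]
  · rw [Function.update_self, co, rem_of_mem j.2.le h1, h2]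
  · rw [Function.update_of_ne h.ne', co, co, rem_congr (i := i + 1) h]
    rw [rem, rem_of_mem i.2.le h1, h2, rem_of_mem i.2 hw, inv_mul_cancel_left]

lemma co_bij : Function.Bijective s.co := by
  constructor
  · intro x y h
    have : ∀ k i, i + k = s.h → s.rem i x = s.rem i y := by
      intro k
      induction k with
      | zero =>
        rintro i rfl
        have h1 := rem_mem (s := s) le_rfl x
        have h2 := rem_mem (s := s) le_rfl y
        rw [s.bot, Subgroup.mem_bot] at h1 h2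
        exact h1.trans h2.symm
      | succ k ih =>
        intro i hi
        have h1 := ih (i + 1) (by omega)
        have h2 : s.χ i (s.rem i x) = s.χ i (s.rem i y) := congrFun h ⟨i, by omega⟩
        rw [rem, rem, h2] at h1
        exact mul_left_cancel h1
    exact this s.h 0 (zero_add _)
  · intro a
    have : ∀ k i, i + k = s.h → ∃ x ∈ s.Γ i, ∀ j : Fin s.h, i ≤ j → s.co x j = a j := by
      intro k
      induction k with
      | zero => exact fun i hi => ⟨1, one_mem _, fun j hj => absurd j.2 (by omega)⟩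
      | succ k ih =>
        intro i hi
        obtain ⟨w, hw, h⟩ := ih (i + 1) (by omega)
        have hi' : i < s.h := by omega
        refine ⟨s.u i ^ a ⟨i, hi'⟩ * w, mul_mem (zpow_mem (s.mem i hi') _) (s.le i hi' hw),
          fun j hj => ?_⟩
        rw [co_basis ⟨i, hi'⟩ _ hw]
        rcases eq_or_lt_of_le hj with h1 | h1
        · obtain rfl : j = ⟨i, hi'⟩ := Fin.ext h1.symm
          simp
        · rw [Function.update_of_ne (fun h2 => by simp [h2] at h1), h j h1]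
    obtain ⟨x, -, hx⟩ := this s.h 0 (zero_add _)
    exact ⟨x, funext fun j => hx j (Nat.zero_le _)⟩

lemma co_addR (j : Fin s.h) (x y : G) (hx : x ∈ s.Γ j) :
    s.co (y * x) j = s.co y j + s.co x j := by
  rw [co, co, co, rem_mul j.2.le y hx, χ_mul j.2 (rem_mem j.2.le y) hx, rem_of_mem j.2.le hx]

lemma co_addL (j : Fin s.h) (x y : G) (hx : x ∈ s.Γ j) :
    s.co (x * y) j = s.co x j + s.co y j := by
  have h1 := s.central j j.2 y⁻¹ x hx
  have h2 : y⁻¹ * x * y⁻¹⁻¹ * x⁻¹ * x ∈ s.Γ j := mul_mem (s.le j j.2 h1) hx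
  have h3 := co_addR j _ y h2
  rw [co_addR j x _ hx, co_of_mem j.2 h1 j (Nat.lt_succ_self _), zero_add] at h3
  rw [add_comm, ← h3]
  simp [mul_assoc]

end Series

end

/-- Mal'cev coordinates of the second kind. -/
theorem exists_tri (G : Type u) [Group G] [Group.IsNilpotent G] [Group.FG G]
    (htf : ∀ (g : G) (n : ℕ), 0 < n → g ^ n = 1 → g = 1) :
    ∃ (M : Tri G ℤ) (u : Fin M.h → G), ∀ (i : Fin M.h) (c : ℤ), ∀ w ∈ M.Γ (i + 1),
      M.co (u i ^ c * w) = Function.update (M.co w) i c := by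
  obtain ⟨s⟩ := exists_series (⊥ : Subgroup G) inferInstance (by simpa using htf)
  refine ⟨⟨s.h, Equiv.ofBijective s.co Series.co_bij,
    fun j x y h => Series.co_addR j x y (Series.mem_of_co j.2.le h),
    fun j x y h => Series.co_addL j x y (Series.mem_of_co j.2.le h)⟩, fun i => s.u i, ?_⟩
  intro i c w hw
  exact Series.co_basis i c (Series.mem_of_co i.2 hw)

end Pool.Agent.P.MP_5b4d81_al
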