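import Pool.Agent.P.MP_5b4d81_al.Coord

set_option autoImplicit false

namespace Pool.Agent.P.MP_5b4d81_al

open MvPolynomial

universe u

/-- evaluation of a polynomial map at an integer point -/
noncomputable def ev {h : ℕ} {R : Type} [CommRing R] (ρ : Fin h → MvPolynomial (Fin h) R)
    (a : Fin h → ℤ) : Fin h → R := fun i => eval (fun j => (a j : R)) (ρ i)

/-- Algebraic description of a family of quotients together with a separating function. -/
structure Datum {G : Type u} [Group G] {h : ℕ} (co : G → Fin h → ℤ) (H : Subgroup G) (k : ℕ)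
    (R : Type) [CommRing R] where
  T : Finset (Fin h)
  hT : h ≤ T.card + k
  ρ : Fin h → MvPolynomial (Fin h) R
  μ : Fin h → MvPolynomial (Fin h ⊕ Fin h) R
  g : MvPolynomial (Fin h) R
  c : Fin h → ℤ
  c_ne : ∀ i, c i ≠ 0
  zero : ∀ a, ∀ t ∈ T, ev ρ (co a) t = 0
  mul : ∀ a b i, (c i : R) * ev ρ (co (a * b)) i =
    eval (Sum.elim (ev ρ (co a)) (ev ρ (co b))) (μ i)
  sep : ∀ η ∈ H, eval (ev ρ (co η)) g = 0

noncomputable def Datum.val {G : Type u} [Group G] {h : ℕ} {co : G → Fin h → ℤ} {H : Subgroup G}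
    {k : ℕ} {R : Type} [CommRing R] (d : Datum co H k R) (x : G) : R := eval (ev d.ρ (co x)) d.g

/-- A unipotent group over a field, in triangular coordinates. -/
structure FModel (K : Type) [Group K] (F : Type) [Field F] extends Tri K F where
  pw : K → F → K
  Pm : Fin h → MvPolynomial (Fin h ⊕ Fin h) F
  Pp : Fin h → MvPolynomial (Option (Fin h)) F
  co_mul : ∀ x y i, co (x * y) i = eval (Sum.elim (co x) (co y)) (Pm i)
  co_pw : ∀ x r i, co (pw x r) i = eval (fun o => o.elim r (co x)) (Pp i)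
  pw_lin : ∀ (j : Fin h) x r, (∀ i < j, co x i = 0) → co (pw x r) j = r * co x j

namespace FModel

variable {K : Type} [Group K] {F : Type} [Field F] (W : FModel K F)

def FSub (J : Subgroup K) : Prop := ∀ x ∈ J, ∀ r, W.pw x r ∈ J

open Classical in
noncomputable def piv (J : Subgroup K) : Finset (Fin W.h) :=
  Finset.univ.filter fun i => ∃ v ∈ J, v ∈ W.Γ i ∧ W.co v i ≠ 0

variable {W}

lemma mem_piv {J : Subgroup K} {i : Fin W.h} :
    i ∈ W.piv J ↔ ∃ v ∈ J, v ∈ W.Γ i ∧ W.co v i ≠ 0 := by simp [piv]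

lemma pw_mem {i : ℕ} {x : K} (hx : x ∈ W.Γ i) (r : F) : W.pw x r ∈ W.Γ i := fun j hj => by
  rw [W.pw_lin j x r fun k hk => hx k (lt_trans hk hj), hx j hj, mul_zero]

lemma piv_top : W.piv ⊤ = Finset.univ := by
  refine Finset.eq_univ_of_forall fun i => mem_piv.2 ⟨W.co.symm (Pi.single i 1), trivial,
    fun j hj => by simp [Fin.ext_iff, hj.ne], by simp⟩

lemma piv_step {B B' : Subgroup K}
    (h : ∀ u ∈ B, ∀ v ∈ B, u ∉ B' → ∃ r, v * W.pw u r ∈ B') :
    (W.piv B).card ≤ (W.piv B').card + 1 := by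
  by_cases h0 : ∀ u ∈ B, u ∈ W.Γ 0 → u ∈ B'
  · refine (Finset.card_le_card fun i hi => ?_).trans (Nat.le_succ _)
    obtain ⟨v, h1, h2⟩ := mem_piv.1 hi
    exact mem_piv.2 ⟨v, h0 v h1 (Tri.mem_Γ_zero _), h2⟩
  obtain ⟨n, h1, h2⟩ := Nat.exists_not_and_succ_of_not_zero_of_exists
    (p := fun n => ∀ u ∈ B, u ∈ W.Γ n → u ∈ B') h0
    ⟨W.h, fun u _ hu => by rw [Tri.eq_one_of_mem le_rfl hu]; exact one_mem _⟩
  push Not at h1
  obtain ⟨u, hu, hu1, hu2⟩ := h1
  have hn : n < W.h := by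
    by_contra hc
    rw [Tri.eq_one_of_mem (not_lt.1 hc) hu1] at hu2
    exact hu2 (one_mem _)
  refine (Finset.card_le_card (t := insert ⟨n, hn⟩ (W.piv B')) fun i hi => ?_).trans
    (Finset.card_insert_le _ _)
  obtain ⟨v, h3, h4, h5⟩ := mem_piv.1 hi
  rcases lt_trichotomy (i : ℕ) n with h6 | h6 | h6
  · obtain ⟨r, hr⟩ := h u hu v h3 hu2
    exact Finset.mem_insert_of_mem (mem_piv.2 ⟨_, hr, mul_mem h4 (Tri.Γ_anti h6.le (pw_mem hu1 r)),
      by rwa [Tri.mulR_lt (pw_mem hu1 r) v h6]⟩)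
  · exact Finset.mem_insert.2 (Or.inl (Fin.ext h6))
  · exact Finset.mem_insert_of_mem (mem_piv.2 ⟨v, h2 v h3 (Tri.Γ_anti h6 h4), h4, h5⟩)

lemma uniq {J : Subgroup K} {a b : K} (h : a⁻¹ * b ∈ J) (h' : ∀ t ∈ W.piv J, W.co a t = W.co b t) :
    a = b := by
  have : ∀ i ≤ W.h, a⁻¹ * b ∈ W.Γ i := by
    intro i
    induction i with
    | zero => exact fun _ => Tri.mem_Γ_zero _
    | succ i ih =>
      intro hi
      have h1 := ih (Nat.le_of_succ_le hi)
      refine Tri.mem_Γ_succ (i := ⟨i, hi⟩) h1 ?_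
      by_contra hc
      have h2 := Tri.addR h1 a (j := ⟨i, hi⟩) le_rfl
      rw [mul_inv_cancel_left, h' _ (mem_piv.2 ⟨_, h, h1, hc⟩)] at h2
      exact hc (by simpa using h2)
  exact inv_mul_eq_one.1 (Tri.eq_one_of_mem le_rfl (this W.h le_rfl))

lemma eval_bind {σ τ : Type} (a : τ → F) (Q : σ → MvPolynomial τ F) (P : MvPolynomial σ F) :
    eval a (bind₁ Q P) = eval (fun i => eval a (Q i)) P := by
  rw [← coe_aeval_eq_eval, ← coe_aeval_eq_eval]
  simp only [RingHom.coe_coe, aeval_bind₁]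

lemma sift {J : Subgroup K} (hJ : W.FSub J) : ∃ (r : K → K)
    (ρ : Fin W.h → MvPolynomial (Fin W.h) F), (∀ a i, W.co (r a) i = eval (W.co a) (ρ i)) ∧
      (∀ a, a⁻¹ * r a ∈ J) ∧ ∀ a, ∀ t ∈ W.piv J, W.co (r a) t = 0 := by
  have : ∀ n ≤ W.h, ∃ (r : K → K) (ρ : Fin W.h → MvPolynomial (Fin W.h) F),
      (∀ a i, W.co (r a) i = eval (W.co a) (ρ i)) ∧
      (∀ a, a⁻¹ * r a ∈ J) ∧ ∀ a, ∀ t ∈ W.piv J, (t : ℕ) < n → W.co (r a) t = 0 := by
    intro n
    induction n with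
    | zero => exact fun _ => ⟨id, X, by simp, by simp, by simp⟩
    | succ n ih =>
      intro hn
      obtain ⟨r, ρ, h1, h2, h3⟩ := ih (Nat.le_of_succ_le hn)
      let n' : Fin W.h := ⟨n, hn⟩
      by_cases h : n' ∈ W.piv J
      · obtain ⟨v, hv, hv1, hv2⟩ := mem_piv.1 h
        refine ⟨fun a => r a * W.pw v (-(W.co v n')⁻¹ * W.co (r a) n'),
          fun i => bind₁ (Sum.elim ρ fun j => bind₁ (fun o => o.elim (C (-(W.co v n')⁻¹) * ρ n')
            fun l => C (W.co v l)) (W.Pp j)) (W.Pm i), fun a i => ?_, fun a => ?_,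
          fun a t ht htn => ?_⟩
        · rw [W.co_mul, eval_bind]
          congr 2
          funext o
          rcases o with j | j
          · simp [h1]
          · simp only [Sum.elim_inr, W.co_pw, eval_bind]
            congr 2
            funext o
            cases o <;> simp [h1]
        · rw [← mul_assoc]; exact mul_mem (h2 a) (hJ v hv _)
        · rcases Nat.lt_succ_iff_lt_or_eq.1 htn with h4 | h4
          · rw [Tri.mulR_lt (pw_mem hv1 _) _ h4, h3 a t ht h4]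
          · obtain rfl : t = n' := Fin.ext h4
            rw [Tri.addR (pw_mem hv1 _) _ le_rfl, W.pw_lin _ _ _ hv1]
            field_simp
            ring
      · refine ⟨r, ρ, h1, h2, fun a t ht htn => ?_⟩
        rcases Nat.lt_succ_iff_lt_or_eq.1 htn with h4 | h4
        · exact h3 a t ht h4
        · obtain rfl : t = n' := Fin.ext h4
          exact absurd ht h
  obtain ⟨r, ρ, h1, h2, h3⟩ := this W.h le_rfl
  exact ⟨r, ρ, h1, h2, fun a t ht => h3 a t ht t.2⟩

lemma sift_congr {J : Subgroup K} {r : K → K} (h2 : ∀ a, a⁻¹ * r a ∈ J)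
    (h3 : ∀ a, ∀ t ∈ W.piv J, W.co (r a) t = 0) {a b : K} (h : a⁻¹ * b ∈ J) : r a = r b := by
  refine uniq (W := W) (J := J) ?_ fun t ht => by rw [h3 a t ht, h3 b t ht]
  have := mul_mem (mul_mem (inv_mem (h2 a)) h) (h2 b)
  simpa [mul_assoc] using this

theorem exists_datum {G : Type u} [Group G] (ι : G →* K) (co : G → Fin W.h → ℤ)
    (hι : ∀ a i, W.co (ι a) i = (co a i : F)) {H : Subgroup G} {k : ℕ} {J V : Subgroup K}
    (hJ : W.FSub J) (hn : J.Normal) (hV : W.FSub V) (hJV : J ≤ V) (hH : ∀ η ∈ H, ι η ∈ V)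
    (hk : W.h ≤ (W.piv J).card + k) {x : G} (hx : ι x ∉ V) :
    ∃ d : Datum co H k F, d.val x ≠ 0 := by
  obtain ⟨r, ρ, h1, h2, h3⟩ := sift hJ
  obtain ⟨r', ρ', h1', h2', h3'⟩ := sift hV
  have hev : ∀ a, ev ρ (co a) = W.co (r (ι a)) := fun a => funext fun i => by
    rw [h1, ev, funext (hι a)]
  have hr1 : r' 1 = 1 := uniq (W := W) (J := V) (by simpa using h2' 1) fun t ht => by
    rw [h3' 1 t ht, W.co_one]
  have hne : r' (ι x) ≠ 1 := fun h => hx (by simpa [h] using h2' (ι x))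
  obtain ⟨i, hi⟩ : ∃ i, W.co (r' (ι x)) i ≠ 0 := by
    by_contra hc
    push Not at hc
    exact hne (W.co.injective (funext fun i => by rw [hc, W.co_one]))
  refine ⟨⟨W.piv J, hk, ρ, fun i => bind₁ W.Pm (ρ i), ρ' i, fun _ => 1, by simp,
    fun a t ht => by rw [hev, h3 _ t ht], fun a b i => ?_, fun η hη => ?_⟩, ?_⟩
  · rw [hev, hev, hev, eval_bind, ← funext (W.co_mul _ _), ← h1, map_mul,
      sift_congr h2 h3 (b := r (ι a) * r (ι b))]
    · simp
    · have := mul_mem (hn.conj_mem _ (h2 (ι a)) (ι b)⁻¹) (h2 (ι b))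
      simpa [mul_assoc] using this
  · rw [hev, ← h1', ← sift_congr h2' h3' (a := 1), hr1, W.co_one]
    simpa using mul_mem (hH η hη) (hJV (h2 (ι η)))
  · change eval (ev ρ (co x)) (ρ' i) ≠ 0
    rwa [hev, ← h1', ← sift_congr h2' h3' (hJV (h2 (ι x)))]

end FModel

end Pool.Agent.P.MP_5b4d81_al
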