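import Pool.Agent.P.MP_5b4d81_al.Hall
import Pool.Agent.P.MP_5b4d81_al.Defs

set_option autoImplicit false

namespace Pool.Agent.P.MP_5b4d81_al

open MvPolynomial

universe u

lemma eval_modEq {σ : Type} {m : ℤ} {a b : σ → ℤ} (h : ∀ i, a i ≡ b i [ZMOD m])
    (P : MvPolynomial σ ℤ) : eval a P ≡ eval b P [ZMOD m] := by
  induction P using MvPolynomial.induction_on with
  | C c => simp
  | add P Q hP hQ => simpa using hP.add hQ
  | mul_X P i hP => simpa using hP.mul (h i)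

lemma cancel_cop {m D a b : ℤ} (hm : IsCoprime m D) (h : D * a ≡ D * b [ZMOD m]) :
    a ≡ b [ZMOD m] := by
  rw [Int.modEq_iff_dvd] at h ⊢
  exact hm.dvd_of_dvd_mul_left (by rwa [mul_sub])

lemma norm_eval_le {σ R : Type} [CommRing R] (f : R →+* ℂ) (P : MvPolynomial σ R) :
    ∃ C : ℕ, ∀ (B : ℝ) (a : σ → R), 2 ≤ B → (∀ i, ‖f (a i)‖ ≤ B) → ‖f (eval a P)‖ ≤ B ^ C := by
  induction P using MvPolynomial.induction_on with
  | C c =>
    obtain ⟨n, hn⟩ := pow_unbounded_of_one_lt ‖f c‖ (one_lt_two (α := ℝ))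
    exact ⟨n, fun B a hB _ => by
      simpa using hn.le.trans (pow_le_pow_left₀ zero_le_two hB n)⟩
  | add P Q hP hQ =>
    obtain ⟨C1, h1⟩ := hP
    obtain ⟨C2, h2⟩ := hQ
    refine ⟨C1 + C2 + 1, fun B a hB ha => ?_⟩
    rw [map_add, map_add]
    have h3 : B ^ C1 ≤ B ^ (C1 + C2) := pow_le_pow_right₀ (by linarith) (by omega)
    have h4 : B ^ C2 ≤ B ^ (C1 + C2) := pow_le_pow_right₀ (by linarith) (by omega)
    have h5 : 0 ≤ B ^ (C1 + C2) := by positivity
    have := norm_add_le (f (eval a P)) (f (eval a Q))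
    have := h1 B a hB ha
    have := h2 B a hB ha
    rw [pow_succ]
    nlinarith
  | mul_X P i hP =>
    obtain ⟨C1, h1⟩ := hP
    refine ⟨C1 + 1, fun B a hB ha => ?_⟩
    rw [map_mul, map_mul, eval_X, norm_mul, pow_succ]
    exact mul_le_mul (h1 B a hB ha) (ha i) (norm_nonneg _) (by positivity)

variable {G : Type u} [Group G]

lemma mem_sup_normal {H J : Subgroup G} [J.Normal] {x : G} :
    x ∈ H ⊔ J ↔ ∃ y ∈ H, y⁻¹ * x ∈ J := by
  rw [← SetLike.mem_coe, Subgroup.mul_normal]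
  constructor
  · rintro ⟨y, hy, b, hb, rfl⟩
    exact ⟨y, hy, by simpa using hb⟩
  · rintro ⟨y, hy, hb⟩
    exact ⟨y, hy, _, hb, by simp⟩

namespace Model

variable (M : Model G)

/-- congruence of coordinates -/
def Cg (m : ℤ) (x y : G) : Prop := ∀ i, M.co x i ≡ M.co y i [ZMOD m]

variable {M} {m : ℤ} {x x' y y' z : G}

lemma Cg.refl (x : G) : M.Cg m x x := fun _ => Int.ModEq.refl _
lemma Cg.symm (h : M.Cg m x y) : M.Cg m y x := fun i => (h i).symm
lemma Cg.trans (h : M.Cg m x y) (h' : M.Cg m y z) : M.Cg m x z := fun i => (h i).trans (h' i)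
lemma Cg.of_dvd {m' : ℤ} (hm : m' ∣ m) (h : M.Cg m x y) : M.Cg m' x y :=
  fun i => (h i).of_dvd hm

lemma mul_aux (hx : M.Cg m x x') (hy : M.Cg m y y') (i : Fin M.h) :
    M.D * M.co (x * y) i ≡ M.D * M.co (x' * y') i [ZMOD m] := by
  rw [M.co_mul, M.co_mul]
  exact eval_modEq (by rintro (j | j); exacts [hx j, hy j]) _

lemma pow_aux {n n' : ℤ} (hx : M.Cg m x x') (hn : n ≡ n' [ZMOD m]) (i : Fin M.h) :
    M.D * M.co (x ^ n) i ≡ M.D * M.co (x' ^ n') i [ZMOD m] := by
  rw [M.co_pow, M.co_pow]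
  exact eval_modEq (by rintro (_ | j); exacts [hn, hx j]) _

lemma Cg.mulD (hx : M.Cg (M.D * m) x x') (hy : M.Cg (M.D * m) y y') :
    M.Cg m (x * y) (x' * y') := fun i =>
  Int.ModEq.mul_left_cancel' M.D_pos.ne' (mul_aux hx hy i)

lemma Cg.powD {n n' : ℤ} (hx : M.Cg (M.D * m) x x') (hn : n ≡ n' [ZMOD M.D * m]) :
    M.Cg m (x ^ n) (x' ^ n') := fun i =>
  Int.ModEq.mul_left_cancel' M.D_pos.ne' (pow_aux hx hn i)

lemma Cg.mul (hm : IsCoprime m M.D) (hx : M.Cg m x x') (hy : M.Cg m y y') :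
    M.Cg m (x * y) (x' * y') := fun i =>
  cancel_cop hm (mul_aux hx hy i)

lemma Cg.pow {n n' : ℤ} (hm : IsCoprime m M.D) (hx : M.Cg m x x') (hn : n ≡ n' [ZMOD m]) :
    M.Cg m (x ^ n) (x' ^ n') := fun i =>
  cancel_cop hm (pow_aux hx hn i)

lemma exists_unit (i : Fin M.h) : ∃ e ∈ M.Γ i, M.co e i = 1 :=
  ⟨M.co.symm (Pi.single i 1), fun j hj => by
    simp [Fin.ext_iff, hj.ne], by simp⟩

lemma Cg.mem (hm : IsCoprime m M.D) {J : Subgroup G} (hJ : ∀ g, g ^ m ∈ J) (h : M.Cg m x y) :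
    x⁻¹ * y ∈ J := by
  have : ∀ d i, M.h ≤ i + d → ∀ x ∈ M.Γ i, M.Cg m x 1 → x ∈ J := by
    intro d
    induction d with
    | zero => intro i hi x hx _; rw [Tri.eq_one_of_mem hi hx]; exact one_mem _
    | succ d ih =>
      intro i hi x hx hc
      by_cases h1 : M.h ≤ i
      · rw [Tri.eq_one_of_mem h1 hx]; exact one_mem _
      let i' : Fin M.h := ⟨i, not_le.1 h1⟩
      obtain ⟨e, he, he1⟩ := exists_unit i'
      have h2 := hc i'
      rw [M.co_one] at h2
      obtain ⟨a, ha⟩ := Int.modEq_zero_iff_dvd.1 h2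
      have h3 : x * e ^ (-M.co x i') ∈ J := by
        refine ih (i + 1) (by omega) _ (Tri.mem_Γ_succ (i := i') (mul_mem hx (zpow_mem he _)) ?_) ?_
        · rw [Tri.addR (zpow_mem he _) _ le_rfl, Tri.co_zpow he _ le_rfl, he1]; simp
        · simpa using Cg.mul hm hc (Cg.pow hm (Cg.refl e) h2.neg)
      have := mul_mem h3 (hJ (e ^ a))
      rwa [← zpow_mul, mul_comm a, ← ha, zpow_neg, inv_mul_cancel_right] at this
  refine this M.h 0 (by omega) _ (Tri.mem_Γ_zero _) ?_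
  simpa using Cg.mul hm (Cg.refl x⁻¹) h.symm

variable (M) in
/-- the congruence subgroup -/
def B (m : ℤ) : Subgroup G where
  carrier := {g | ∀ a b, M.Cg m (a * g * b) (a * b)}
  one_mem' := fun a b => by simpa using Cg.refl _
  mul_mem' := fun {g g'} hg hg' a b => by
    have := (hg' (a * g) b).trans (hg a b)
    simpa only [mul_assoc] using this
  inv_mem' := fun {g} hg a b => by simpa using (hg (a * g⁻¹) b).symm

instance B_normal (m : ℤ) : (M.B m).Normal :=
  ⟨fun g hg c a b => by simpa only [mul_assoc, mul_inv_cancel_left] using hg (a * c) (c⁻¹ * b)⟩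

lemma Cg.of_B (h : x⁻¹ * y ∈ M.B m) : M.Cg m x y := by simpa using (h x 1).symm

lemma Cg.mem_BD (h : M.Cg (M.D * (M.D * m)) x y) : x⁻¹ * y ∈ M.B m := fun a b => by
  simpa [mul_assoc] using ((Cg.refl (a * x⁻¹)).mulD h.symm).mulD (Cg.refl b)

lemma Cg.mem_B (hm : IsCoprime m M.D) (h : M.Cg m x y) : x⁻¹ * y ∈ M.B m := fun a b => by
  simpa [mul_assoc] using ((Cg.refl (a * x⁻¹)).mul hm h.symm).mul hm (Cg.refl b)

lemma index_ne_zero {J : Subgroup G} (hm : m ≠ 0) (h : ∀ x y, M.Cg m x y → x⁻¹ * y ∈ J) :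
    J.index ≠ 0 := by
  have : NeZero m.natAbs := ⟨Int.natAbs_ne_zero.2 hm⟩
  have : Finite (G ⧸ J) := by
    refine Finite.of_surjective
      (fun a : Fin M.h → ZMod m.natAbs => (QuotientGroup.mk (M.co.symm fun i => (a i).val) : G ⧸ J))
      fun q => ?_
    obtain ⟨x, rfl⟩ := QuotientGroup.mk_surjective q
    refine ⟨fun i => (M.co x i : ZMod m.natAbs), QuotientGroup.eq.2 (h _ _ fun i => ?_)⟩
    rw [Equiv.apply_symm_apply, ← Int.modEq_natAbs, ← ZMod.intCast_eq_intCast_iff]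
    simp
  exact Subgroup.index_ne_zero_of_finite

variable (M) in
/-- integer echelon data of a subgroup -/
structure Ech (H : Subgroup G) where
  d : Fin M.h → ℤ
  η : Fin M.h → G
  mem : ∀ i, η i ∈ H
  memΓ : ∀ i : Fin M.h, η i ∈ M.Γ i
  co_η : ∀ i, M.co (η i) i = d i
  dvd : ∀ (i : Fin M.h), ∀ y ∈ H, y ∈ M.Γ i → d i ∣ M.co y i

lemma exists_ech (H : Subgroup G) : Nonempty (M.Ech H) := by
  have : ∀ i : Fin M.h, ∃ η ∈ H, η ∈ M.Γ i ∧ ∀ y ∈ H, y ∈ M.Γ i → M.co η i ∣ M.co y i := by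
    intro i
    let A : AddSubgroup ℤ :=
      { carrier := {c | ∃ y ∈ H, y ∈ M.Γ i ∧ M.co y i = c}
        zero_mem' := ⟨1, one_mem _, one_mem _, M.co_one i⟩
        add_mem' := by
          rintro _ _ ⟨x, hx, hx', rfl⟩ ⟨y, hy, hy', rfl⟩
          exact ⟨x * y, mul_mem hx hy, mul_mem hx' hy', Tri.addR hy' _ le_rfl⟩
        neg_mem' := by
          rintro _ ⟨x, hx, hx', rfl⟩
          exact ⟨x⁻¹, inv_mem hx, inv_mem hx', Tri.co_inv hx' le_rfl⟩ }
    obtain ⟨d, hd⟩ := Int.subgroup_cyclic A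
    have hdA : d ∈ A := by rw [hd]; exact AddSubgroup.subset_closure rfl
    obtain ⟨η, h1, h2, rfl⟩ := hdA
    refine ⟨η, h1, h2, fun y hy hy' => ?_⟩
    have : M.co y i ∈ A := ⟨y, hy, hy', rfl⟩
    rw [hd, AddSubgroup.mem_closure_singleton] at this
    obtain ⟨a, ha⟩ := this
    exact ⟨a, by rw [← ha, smul_eq_mul, mul_comm]⟩
  choose η h1 h2 h3 using this
  exact ⟨⟨fun i => M.co (η i) i, η, h1, h2, fun _ => rfl, h3⟩⟩

namespace Ech

variable {H : Subgroup G} (E : M.Ech H)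

lemma step {j : Fin M.h} {y : G} (hy : y ∈ M.Γ j) {a : ℤ} (ha : M.co y j = E.d j * a) :
    y * E.η j ^ (-a) ∈ M.Γ (j + 1) := by
  refine Tri.mem_Γ_succ (mul_mem hy (zpow_mem (E.memΓ j) _)) ?_
  rw [Tri.addR (zpow_mem (E.memΓ j) _) _ le_rfl, Tri.co_zpow (E.memΓ j) _ le_rfl, E.co_η, ha]
  simp [mul_comm]

lemma exit {x : G} (hx : x ∉ H) :
    ∃ η ∈ H, ∃ i : Fin M.h, x * η ∈ M.Γ i ∧ ¬ E.d i ∣ M.co (x * η) i := by
  by_contra hc
  push Not at hc
  have : ∀ i ≤ M.h, ∃ η ∈ H, x * η ∈ M.Γ i := by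
    intro i
    induction i with
    | zero => exact fun _ => ⟨1, one_mem _, Tri.mem_Γ_zero _⟩
    | succ i ih =>
      intro hi
      obtain ⟨η, h1, h2⟩ := ih (Nat.le_of_succ_le hi)
      obtain ⟨a, ha⟩ := hc η h1 ⟨i, hi⟩ h2
      exact ⟨η * E.η ⟨i, hi⟩ ^ (-a), mul_mem h1 (zpow_mem (E.mem _) _), by
        rw [← mul_assoc]; exact E.step (j := ⟨i, hi⟩) h2 ha⟩
  obtain ⟨η, h1, h2⟩ := this M.h le_rfl
  rw [eq_inv_of_mul_eq_one_left (Tri.eq_one_of_mem le_rfl h2)] at hx
  exact hx (inv_mem h1)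

lemma sift (md : ℕ → ℤ) (hmd : ∀ j : Fin M.h, md (j + 1) ∣ md j ∧ ∀ a y, E.d j ≠ 0 →
      md j ∣ E.d j * a → M.Cg (md (j + 1)) (y * E.η j ^ (-a)) y)
    {i : Fin M.h} {x y : G} (hx : x ∈ M.Γ i) (hy : y ∈ H) (h : M.Cg (md 0) y x) :
    ∃ c, E.d i ∣ c ∧ c ≡ M.co x i [ZMOD md i] := by
  have : ∀ j : ℕ, j ≤ i → ∃ y ∈ H, y ∈ M.Γ j ∧ M.Cg (md j) y x := by
    intro j
    induction j with
    | zero => exact fun _ => ⟨y, hy, Tri.mem_Γ_zero _, h⟩
    | succ j ih =>
      intro hj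
      obtain ⟨y, h1, h2, h3⟩ := ih (Nat.le_of_succ_le hj)
      let j' : Fin M.h := ⟨j, (Nat.lt_of_succ_le hj).trans i.2⟩
      obtain ⟨a, ha⟩ := E.dvd j' y h1 h2
      by_cases h0 : E.d j' = 0
      · exact ⟨y, h1, Tri.mem_Γ_succ (i := j') h2 (by rw [ha, h0, zero_mul]), h3.of_dvd (hmd j').1⟩
      refine ⟨_, mul_mem h1 (zpow_mem (E.mem j') (-a)), E.step (j := j') h2 ha,
        ((hmd j').2 a y h0 ?_).trans (h3.of_dvd (hmd j').1)⟩
      have := h3 j'
      rw [hx j' hj, ha] at this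
      exact Int.modEq_zero_iff_dvd.1 this
  obtain ⟨y, h1, h2, h3⟩ := this i le_rfl
  exact ⟨_, E.dvd i y h1 h2, h3 i⟩

lemma uniform : ∃ J : Subgroup G, J.Normal ∧ J.index ≠ 0 ∧ ∀ (i : Fin M.h), ∀ x ∈ M.Γ i,
    E.d i ≠ 0 → ¬ E.d i ∣ M.co x i → x ∉ H ⊔ J := by
  set e : ℤ := (∏ j, if E.d j = 0 then 1 else E.d j) * (M.D * M.D) with he
  have hD := M.D_pos.ne'
  have he0 : e ≠ 0 := mul_ne_zero (Finset.prod_ne_zero_iff.2 fun j _ => by
    split_ifs with h <;> simp [h]) (mul_ne_zero hD hD)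
  have hd : ∀ j, E.d j ≠ 0 → E.d j * (M.D * M.D) ∣ e := fun j hj => by
    refine mul_dvd_mul_right ?_ _
    have := Finset.dvd_prod_of_mem (fun j => if E.d j = 0 then 1 else E.d j) (Finset.mem_univ j)
    rwa [if_neg hj] at this
  have hpow : ∀ j : Fin M.h, e ^ (M.h - j) = e * e ^ (M.h - (j + 1)) := fun j => by
    rw [← pow_succ', show M.h - (j + 1) + 1 = M.h - j by have := j.2; omega]
  refine ⟨M.B (e ^ M.h), inferInstance, index_ne_zero (m := M.D * (M.D * e ^ M.h))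
    (mul_ne_zero hD (mul_ne_zero hD (pow_ne_zero _ he0))) fun _ _ => Cg.mem_BD,
    fun i x hx h0 h1 h2 => h1 ?_⟩
  obtain ⟨y, hy, hb⟩ := mem_sup_normal.1 h2
  obtain ⟨c, h3, h4⟩ := E.sift (fun j => e ^ (M.h - j)) (fun j => ⟨by
    rw [hpow j]; exact dvd_mul_left _ _, fun a y h5 h6 => by
      have h7 : M.D * (M.D * e ^ (M.h - (j + 1))) ∣ a := by
        rw [hpow j] at h6
        have := (mul_dvd_mul_right (hd j h5) _).trans h6
        rw [mul_assoc, mul_assoc] at this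
        exact (mul_dvd_mul_iff_left h5).1 this
      simpa using (Cg.refl y).mulD ((Cg.refl (E.η j)).powD
        (Int.modEq_zero_iff_dvd.2 h7).neg)⟩) hx hy (Cg.of_B hb)
  have h5 : E.d i ∣ e ^ (M.h - i) := by
    rw [hpow i]; exact ((dvd_mul_right _ _).trans (hd i h0)).mul_right _
  simpa using (h4.of_dvd h5).dvd.add h3

lemma prime_sep {p : ℕ} (hp : p.Prime) (hD : ¬ (p : ℤ) ∣ M.D)
    (hd : ∀ j, E.d j ≠ 0 → ¬ (p : ℤ) ∣ E.d j) {i : Fin M.h} {x : G} (hx : x ∈ M.Γ i)
    (h0 : E.d i = 0) (h1 : ¬ (p : ℤ) ∣ M.co x i) : x ∉ H ⊔ M.B p := by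
  intro h2
  have hp' := Nat.prime_iff_prime_int.1 hp
  have hc : IsCoprime (p : ℤ) M.D := (hp'.coprime_iff_not_dvd).2 hD
  obtain ⟨y, hy, hb⟩ := mem_sup_normal.1 h2
  obtain ⟨c, h3, h4⟩ := E.sift (fun _ => p) (fun j => ⟨dvd_rfl, fun a y h5 h6 => by
      have h7 := (hp'.dvd_or_dvd h6).resolve_left (hd j h5)
      simpa using (Cg.refl y).mul hc ((Cg.refl (E.η j)).pow hc
        (Int.modEq_zero_iff_dvd.2 h7).neg)⟩) hx hy (Cg.of_B hb)
  rw [h0, zero_dvd_iff] at h3
  rw [h3] at h4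
  exact h1 (Int.modEq_zero_iff_dvd.1 h4.symm)

end Ech

lemma co_mul_sub' (j : Fin M.h) (x y : G) :
    M.co (y * x) j - M.co x j = M.co (y * M.trunc j x) j := by
  have h1 := Tri.addR (Tri.trunc_inv_mul (M := M.toTri) j x) (y * M.trunc j x) (le_refl (j : ℕ))
  have h2 := Tri.addR (Tri.trunc_inv_mul (M := M.toTri) j x) (M.trunc j x) (le_refl (j : ℕ))
  rw [mul_inv_cancel_left, Tri.co_trunc, if_neg (lt_irrefl _), zero_add] at h2
  rw [mul_assoc, mul_inv_cancel_left, ← h2] at h1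
  rw [h1, add_sub_cancel_right]

variable (M) in
lemma growth (S : Finset G) : ∃ C : ℕ, ∀ n x, InBall S n x → ∀ i,
    ((|M.co x i| : ℤ) : ℝ) ≤ (n + 2 : ℝ) ^ C := by
  classical
  obtain ⟨C0, hC0⟩ : ∃ C : ℕ, ∀ y, (y ∈ S ∨ y⁻¹ ∈ S) → ∀ i, ((|M.co y i| : ℤ) : ℝ) ≤ 2 ^ C := by
    obtain ⟨n, hn⟩ := pow_unbounded_of_one_lt
      (∑ y ∈ S ∪ S.image (·⁻¹), ∑ i, ((|M.co y i| : ℤ) : ℝ)) (one_lt_two (α := ℝ))
    refine ⟨n, fun y hy i => le_trans ?_ hn.le⟩
    have h1 : y ∈ S ∪ S.image (·⁻¹) := by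
      rcases hy with h | h
      · exact Finset.mem_union_left _ h
      · exact Finset.mem_union_right _ (Finset.mem_image.2 ⟨_, h, inv_inv y⟩)
    refine le_trans ?_ (Finset.single_le_sum (f := fun y => ∑ i, ((|M.co y i| : ℤ) : ℝ))
      (fun _ _ => by positivity) h1)
    exact Finset.single_le_sum (f := fun i => ((|M.co y i| : ℤ) : ℝ)) (fun _ _ => by positivity)
      (Finset.mem_univ i)
  have : ∀ j ≤ M.h, ∃ C : ℕ, ∀ n x, InBall S n x → ∀ i : Fin M.h, (i : ℕ) < j →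
      ((|M.co x i| : ℤ) : ℝ) ≤ (n + 2 : ℝ) ^ C := by
    intro j
    induction j with
    | zero => exact fun _ => ⟨0, fun _ _ _ _ h => absurd h (Nat.not_lt_zero _)⟩
    | succ j ih =>
      intro hj
      obtain ⟨C, hC⟩ := ih (Nat.le_of_succ_le hj)
      let j' : Fin M.h := ⟨j, hj⟩
      obtain ⟨C1, hC1⟩ := norm_eval_le (Int.castRingHom ℂ) (M.Gm j')
      have key : ∀ (n : ℕ) (l : List G), l.length ≤ n → (∀ y ∈ l, y ∈ S ∨ y⁻¹ ∈ S) →
          ((|M.co l.prod j'| : ℤ) : ℝ) ≤ l.length * ((n + 2 : ℝ) ^ (C + C0 + 1)) ^ C1 := by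
        intro n l
        have hn : (2 : ℝ) ≤ n + 2 := by linarith [Nat.cast_nonneg (α := ℝ) n]
        induction l with
        | nil => intro _ _; simp [M.co_one]
        | cons y l ihl =>
          intro h1 h2
          have h3 : l.length ≤ n := Nat.le_of_succ_le h1
          have h4 : ∀ y ∈ l, y ∈ S ∨ y⁻¹ ∈ S := fun z hz => h2 z (List.mem_cons_of_mem _ hz)
          have h5 := hC1 ((n + 2 : ℝ) ^ (C + C0 + 1))
            (Sum.elim (M.co y) (M.co (M.trunc j l.prod)))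
            (hn.trans (le_self_pow₀ (by linarith) (by omega))) (by
              rintro (k | k)
              · have := hC0 y (h2 y List.mem_cons_self) k
                simp only [Sum.elim_inl, eq_intCast, Complex.norm_intCast]
                push_cast at this
                exact this.trans ((pow_le_pow_left₀ zero_le_two hn _).trans
                  (pow_le_pow_right₀ (by linarith) (by omega)))
              · simp only [Sum.elim_inr, eq_intCast, Complex.norm_intCast, Tri.co_trunc]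
                split_ifs with h
                · have := hC n _ ⟨l, h3, h4, rfl⟩ k h
                  push_cast at this
                  exact this.trans (pow_le_pow_right₀ (by linarith) (by omega))
                · simp only [Int.cast_zero, abs_zero]; positivity)
          rw [← M.co_mul, ← co_mul_sub' j'] at h5
          simp only [eq_intCast, Complex.norm_intCast] at h5
          push_cast at h5
          have h6 := ihl h3 h4
          have h7 : (1 : ℝ) ≤ M.D := by exact_mod_cast M.D_pos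
          rw [abs_mul, abs_of_pos (by linarith : (0 : ℝ) < M.D)] at h5
          have h8 := abs_nonneg ((M.co (y * l.prod) j' : ℝ) - M.co l.prod j')
          have h9 := abs_sub_abs_le_abs_sub (M.co (y * l.prod) j' : ℝ) (M.co l.prod j')
          rw [List.prod_cons, List.length_cons]
          push_cast at h6 ⊢
          nlinarith
      refine ⟨C + (C + C0 + 1) * C1 + 1, ?_⟩
      rintro n _ ⟨l, h1, h2, rfl⟩ i hi
      have hn : (2 : ℝ) ≤ n + 2 := by linarith [Nat.cast_nonneg (α := ℝ) n]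
      rcases Nat.lt_succ_iff_lt_or_eq.1 hi with h | h
      · exact (hC n _ ⟨l, h1, h2, rfl⟩ i h).trans (pow_le_pow_right₀ (by linarith) (by omega))
      · obtain rfl : i = j' := Fin.ext h
        refine (key n l h1 h2).trans ?_
        rw [← pow_mul, pow_succ']
        have h3 : (l.length : ℝ) ≤ n := by exact_mod_cast h1
        exact mul_le_mul (by linarith) (pow_le_pow_right₀ (by linarith) (by omega))
          (by positivity) (by linarith)
  obtain ⟨C, hC⟩ := this M.h le_rfl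
  exact ⟨C, fun n x hx i => hC n x hx i i.2⟩

lemma exists_polycyclic (M : Model G) : ∃ (m : ℕ) (s : ℕ → Subgroup G), IsPolycyclicSeries m s := by
  refine ⟨M.h, fun i => M.Γ (M.h - i), ?_, ?_, fun i hi => ⟨Tri.Γ_anti (by omega),
    inferInstance, ?_⟩⟩
  · exact eq_bot_iff.2 fun x hx => Tri.eq_one_of_mem (by simp) hx
  · exact eq_top_iff.2 fun x _ => by simpa using Tri.mem_Γ_zero x
  · let j : Fin M.h := ⟨M.h - (i + 1), by omega⟩
    obtain ⟨e, he, he1⟩ := exists_unit j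
    refine ⟨QuotientGroup.mk ⟨e, he⟩, fun q => ?_⟩
    obtain ⟨⟨x, hx⟩, rfl⟩ := QuotientGroup.mk_surjective q
    refine ⟨M.co x j, ?_⟩
    simp only [← QuotientGroup.mk_zpow]
    refine QuotientGroup.eq.2 (Subgroup.mem_subgroupOf.2 ?_)
    rw [show M.h - i = j + 1 by simp only [j]; omega]
    refine Tri.mem_Γ_succ (mul_mem (inv_mem (zpow_mem he _)) hx) ?_
    change M.co ((e ^ M.co x j)⁻¹ * x) j = 0
    rw [Tri.addR hx _ le_rfl, Tri.co_inv (zpow_mem he _) le_rfl, Tri.co_zpow he _ le_rfl, he1]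
    simp

end Model

lemma index_le_of_series {m : ℕ} {s : ℕ → Subgroup G} (hs : IsPolycyclicSeries m s) :
    ∃ c : ℕ, 0 < c ∧ ∀ p : ℕ, p.Prime → ¬ p ∣ c → ∀ J : Subgroup G, J.Normal → (∀ g, g ^ p ∈ J) →
      J.index ≠ 0 → ∃ j ≤ {i | i < m ∧
        Infinite (s (i + 1) ⧸ (s i).subgroupOf (s (i + 1)))}.ncard, J.index = p ^ j := by
  classical
  obtain ⟨h0, hm, hs⟩ := hs
  refine ⟨∏ i ∈ Finset.range m, max 1 (Nat.card (s (i + 1) ⧸ (s i).subgroupOf (s (i + 1)))),
    Finset.prod_pos fun i _ => by omega, fun p hp hc J hJ hpow hind => ?_⟩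
  have : Fact p.Prime := ⟨hp⟩
  have : Finite (G ⧸ J) := Nat.finite_of_card_ne_zero hind
  let π := QuotientGroup.mk' J
  have hπ : ∀ g, π g ^ p = 1 := fun g => by
    rw [← map_pow]; exact (QuotientGroup.eq_one_iff _).2 (hpow g)
  have key : ∀ n ≤ m, Nat.card ((s n).map π) ≤ p ^ {i | i < n ∧
        Infinite (s (i + 1) ⧸ (s i).subgroupOf (s (i + 1)))}.ncard := by
    intro n
    induction n with
    | zero => intro _; simp [h0]
    | succ n ih =>
      intro hn
      have ih := ih (Nat.le_of_succ_le hn)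
      obtain ⟨hle, hnorm, ⟨g, hg⟩⟩ := hs n hn
      obtain ⟨g, rfl⟩ := QuotientGroup.mk_surjective g
      have h1 : ∀ x ∈ s (n + 1), ∃ c : ℤ, ((g : G) ^ c)⁻¹ * x ∈ s n := fun x hx => by
        obtain ⟨c, hc⟩ := hg (QuotientGroup.mk ⟨x, hx⟩)
        simp only [← QuotientGroup.mk_zpow] at hc
        exact ⟨c, Subgroup.mem_subgroupOf.1 (QuotientGroup.eq.1 hc)⟩
      have hfin : ∀ n : ℕ, {i | i < n ∧
          Infinite (s (i + 1) ⧸ (s i).subgroupOf (s (i + 1)))}.Finite := fun n =>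
        (Set.finite_lt_nat n).subset fun i hi => hi.1
      by_cases hinf : Infinite (s (n + 1) ⧸ (s n).subgroupOf (s (n + 1)))
      · have h2 : {i | i < n + 1 ∧ Infinite (s (i + 1) ⧸ (s i).subgroupOf (s (i + 1)))} =
            insert n {i | i < n ∧ Infinite (s (i + 1) ⧸ (s i).subgroupOf (s (i + 1)))} := by
          ext i
          simp only [Set.mem_ofPred_eq, Set.mem_insert_iff, Nat.lt_succ_iff_lt_or_eq]
          constructor
          · rintro ⟨h | h, h'⟩
            exacts [Or.inr ⟨h, h'⟩, Or.inl h]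
          · rintro (rfl | ⟨h, h'⟩)
            exacts [⟨Or.inr rfl, hinf⟩, ⟨Or.inl h, h'⟩]
        rw [h2, Set.ncard_insert_of_notMem (by simp) (hfin n), pow_succ']
        refine le_trans ?_ (Nat.mul_le_mul_left p ih)
        have h3 := Nat.card_le_card_of_surjective
          (fun a : Fin p × (s n).map π => (⟨π g ^ (a.1 : ℕ) * a.2, mul_mem
            (pow_mem (Subgroup.mem_map_of_mem π g.2) _) (Subgroup.map_mono hle a.2.2)⟩ :
            (s (n + 1)).map π)) (by
          rintro ⟨_, x, hx, rfl⟩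
          obtain ⟨c, hc⟩ := h1 x hx
          have h4 : (0 : ℤ) < p := by exact_mod_cast hp.pos
          refine ⟨(⟨(c % p).toNat, by
            have := Int.emod_lt_of_pos c h4
            have := Int.emod_nonneg c h4.ne'
            omega⟩, ⟨_, Subgroup.mem_map_of_mem π hc⟩), Subtype.ext ?_⟩
          simp only
          rw [← zpow_natCast, Int.toNat_of_nonneg (Int.emod_nonneg c h4.ne'),
            ← zpow_eq_zpow_emod' c (hπ g), ← map_zpow, ← map_mul, mul_inv_cancel_left])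
        simpa using h3
      · have h2 : (s (n + 1)).map π ≤ (s n).map π := by
          have h3 : Finite (s (n + 1) ⧸ (s n).subgroupOf (s (n + 1))) := not_infinite_iff_finite.1 hinf
          set r := Nat.card (s (n + 1) ⧸ (s n).subgroupOf (s (n + 1))) with hr
          have h4 : (g : G) ^ r ∈ s n := by
            have := pow_card_eq_one' (x := (QuotientGroup.mk g :
              s (n + 1) ⧸ (s n).subgroupOf (s (n + 1))))
            rw [← QuotientGroup.mk_pow, QuotientGroup.eq_one_iff] at this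
            exact Subgroup.mem_subgroupOf.1 this
          have h5 : ¬ p ∣ r := fun h => hc (h.trans ?_)
          · have h6 : π g ∈ (s n).map π := by
              have h7 : π g ∈ Subgroup.zpowers (π g ^ r) := mem_zpowers_pow_iff.2
                (((Nat.Prime.coprime_iff_not_dvd hp).2 h5).symm.coprime_dvd_right
                  (orderOf_dvd_of_pow_eq_one (hπ g)))
              refine Subgroup.zpowers_le.2 ?_ h7
              rw [← map_pow]
              exact Subgroup.mem_map_of_mem π h4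
            rintro _ ⟨x, hx, rfl⟩
            obtain ⟨c, hc⟩ := h1 x hx
            have := mul_mem (zpow_mem h6 c) (Subgroup.mem_map_of_mem π hc)
            rwa [← map_zpow, ← map_mul, mul_inv_cancel_left] at this
          · have := Finset.dvd_prod_of_mem (fun i => max 1
              (Nat.card (s (i + 1) ⧸ (s i).subgroupOf (s (i + 1))))) (Finset.mem_range.2 hn)
            rwa [max_eq_right (Nat.card_pos)] at this
        refine (Subgroup.card_le_of_le h2).trans (ih.trans (Nat.pow_le_pow_right hp.pos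
          (Set.ncard_le_ncard (fun i hi => ⟨Nat.lt_succ_of_lt hi.1, hi.2⟩) (hfin _))))
  have h1 : IsPGroup p (G ⧸ J) := fun q => by
    obtain ⟨g, rfl⟩ := QuotientGroup.mk'_surjective J q
    exact ⟨1, by rw [pow_one]; exact hπ g⟩
  obtain ⟨j, hj⟩ := h1.exists_card_eq
  refine ⟨j, ?_, hj⟩
  have := key m le_rfl
  rw [hm, Subgroup.map_top_of_surjective _ (QuotientGroup.mk'_surjective J), Subgroup.card_top,
    hj] at this
  exact (Nat.pow_le_pow_iff_right hp.one_lt).1 this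

end Pool.Agent.P.MP_5b4d81_al
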