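import Pool.Agent.P.MP_5b4d81_al.Coord

set_option autoImplicit false

namespace Pool.Agent.P.MP_5b4d81_al

open MvPolynomial

universe u

/-- integer valued functions given by a rational polynomial -/
def IsPoly {σ : Type} (f : (σ → ℤ) → ℤ) : Prop :=
  ∃ P : MvPolynomial σ ℚ, ∀ s, (f s : ℚ) = eval (fun i => (s i : ℚ)) P

namespace IsPoly

variable {σ τ : Type} {f g : (σ → ℤ) → ℤ}

lemma const (c : ℤ) : IsPoly fun _ : σ → ℤ => c := ⟨C (c : ℚ), by simp⟩

lemma var (i : σ) : IsPoly fun s : σ → ℤ => s i := ⟨X i, by simp⟩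

lemma add (hf : IsPoly f) (hg : IsPoly g) : IsPoly fun s => f s + g s := by
  obtain ⟨P, hP⟩ := hf
  obtain ⟨Q, hQ⟩ := hg
  exact ⟨P + Q, by simp [hP, hQ]⟩

lemma neg (hf : IsPoly f) : IsPoly fun s => -f s := by
  obtain ⟨P, hP⟩ := hf
  exact ⟨-P, by simp [hP]⟩

lemma congr (hf : IsPoly f) (h : ∀ s, f s = g s) : IsPoly g := funext h ▸ hf

lemma comp {F : (τ → ℤ) → ℤ} (hF : IsPoly F) {a : (σ → ℤ) → τ → ℤ}
    (ha : ∀ t, IsPoly fun s => a s t) : IsPoly fun s => F (a s) := by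
  obtain ⟨P, hP⟩ := hF
  choose Q hQ using ha
  refine ⟨bind₁ Q P, fun s => ?_⟩
  rw [hP, ← coe_aeval_eq_eval, ← coe_aeval_eq_eval]
  simp only [RingHom.coe_coe, aeval_bind₁]
  simp only [hQ, ← coe_aeval_eq_eval, RingHom.coe_coe]

lemma antider_aux (P : MvPolynomial (Option σ) ℚ) : ∀ k : ℕ, ∃ Q : MvPolynomial (Option σ) ℚ,
    ∀ (n : ℚ) (s : σ → ℚ), eval (fun o => o.elim (n + 1) s) Q - eval (fun o => o.elim n s) Q =
      n ^ k * eval (fun o => o.elim n s) P := by
  induction P using MvPolynomial.induction_on with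
  | C a =>
    intro k
    refine ⟨C (a / (k + 1)) * Polynomial.aeval (X none) (Polynomial.bernoulli (k + 1)),
      fun n s => ?_⟩
    have h : ∀ m : ℚ, eval (fun o : Option σ => o.elim m s)
        (Polynomial.aeval (X none) (Polynomial.bernoulli (k + 1))) =
        (Polynomial.bernoulli (k + 1)).eval m := fun m => by
      rw [← coe_aeval_eq_eval, RingHom.coe_coe, ← Polynomial.aeval_algHom_apply]
      simp
    simp only [map_mul, eval_C, h]
    rw [add_comm n, Polynomial.bernoulli_eval_one_add]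
    have : (k + 1 : ℚ) ≠ 0 := by positivity
    push_cast
    field_simp
    simp [mul_assoc]
  | add P Q hP hQ =>
    intro k
    obtain ⟨P', hP'⟩ := hP k
    obtain ⟨Q', hQ'⟩ := hQ k
    exact ⟨P' + Q', fun n s => by simp only [map_add, mul_add, ← hP', ← hQ']; ring⟩
  | mul_X P i hP =>
    intro k
    cases i with
    | none =>
      obtain ⟨P', hP'⟩ := hP (k + 1)
      exact ⟨P', fun n s => by rw [hP']; simp; ring⟩
    | some i =>
      obtain ⟨P', hP'⟩ := hP k
      exact ⟨P' * X (some i), fun n s => by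
        simp only [map_mul, eval_X, Option.elim_some, ← sub_mul, hP', mul_assoc]⟩

lemma antider {F : ℤ → (σ → ℤ) → ℤ} (h0 : IsPoly (F 0))
    (h1 : IsPoly fun s : Option σ → ℤ =>
      F (s none + 1) (fun i => s (some i)) - F (s none) fun i => s (some i))
    {n : (σ → ℤ) → ℤ} (hn : IsPoly n) : IsPoly fun s => F (n s) s := by
  obtain ⟨P0, hP0⟩ := h0
  obtain ⟨P, hP⟩ := h1
  obtain ⟨Q, hQ⟩ := antider_aux P 0
  obtain ⟨Pn, hPn⟩ := hn
  have key : ∀ (s : σ → ℤ) (m : ℤ), (F m s : ℚ) = F 0 s +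
      eval (fun o => o.elim (m : ℚ) fun i => (s i : ℚ)) Q -
      eval (fun o => o.elim (0 : ℚ) fun i => (s i : ℚ)) Q := by
    intro s
    have h2 : ∀ m : ℤ, (F (m + 1) s : ℚ) - F m s =
        eval (fun o => o.elim ((m : ℚ) + 1) fun i => (s i : ℚ)) Q -
        eval (fun o => o.elim (m : ℚ) fun i => (s i : ℚ)) Q := fun m => by
      have := hP fun o => o.elim m s
      simp only [Option.elim_none, Option.elim_some, Int.cast_sub] at this
      rw [hQ, this, pow_zero, one_mul]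
      congr 2
      funext o
      cases o <;> simp
    intro m
    induction m using Int.induction_on with
    | zero => simp
    | succ m ih => have := h2 m; push_cast at *; linarith
    | pred m ih =>
      have := h2 (-m - 1)
      simp only [sub_add_cancel, Int.cast_sub, Int.cast_neg, Int.cast_natCast, Int.cast_one] at *
      linarith
  refine ⟨P0 + bind₁ (fun o => o.elim Pn X) Q - bind₁ (fun o => o.elim 0 X) Q, fun s => ?_⟩
  rw [key, hP0]
  simp only [map_sub, map_add, ← coe_aeval_eq_eval, RingHom.coe_coe, aeval_bind₁]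
  congr 3
  · congr 1
    funext o
    cases o with
    | none => exact hPn s
    | some i => simp
  · funext o
    cases o <;> simp

/-- clearing denominators -/
lemma exists_int (hf : IsPoly f) : ∃ (D : ℤ) (P : MvPolynomial σ ℤ), 0 < D ∧
    ∀ s, D * f s = eval s P := by
  obtain ⟨P, hP⟩ := hf
  have : ∃ (D : ℤ) (P' : MvPolynomial σ ℤ), 0 < D ∧ ∀ s : σ → ℤ,
      (D : ℚ) * eval (fun i => (s i : ℚ)) P = (eval s P' : ℤ) := by
    clear hP
    induction P using MvPolynomial.induction_on with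
    | C a => exact ⟨a.den, C a.num, by exact_mod_cast a.den_pos, fun s => by simp⟩
    | add P Q hP hQ =>
      obtain ⟨D, P', hD, hP'⟩ := hP
      obtain ⟨E, Q', hE, hQ'⟩ := hQ
      refine ⟨D * E, C E * P' + C D * Q', mul_pos hD hE, fun s => ?_⟩
      simp only [map_add, map_mul, eval_C]
      push_cast
      rw [← hP', ← hQ']
      ring
    | mul_X P i hP =>
      obtain ⟨D, P', hD, hP'⟩ := hP
      exact ⟨D, P' * X i, hD, fun s => by simp [← hP', mul_assoc]⟩
  obtain ⟨D, P', hD, h⟩ := this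
  refine ⟨D, P', hD, fun s => ?_⟩
  have := h s
  rw [← hP] at this
  exact_mod_cast this

end IsPoly

section
variable {G : Type u} [Group G] (M : Tri G ℤ)

/-- polynomial families in the layer `i`, up to coordinate `j` -/
def PF {σ : Type} (i j : ℕ) (x : (σ → ℤ) → G) : Prop :=
  (∀ s, x s ∈ M.Γ i) ∧ ∀ k : Fin M.h, (k : ℕ) < j → IsPoly fun s => M.co (x s) k

def Cl (i j : ℕ) : Prop := ∀ σ : Type,
  (∀ x y : (σ → ℤ) → G, PF M i j x → PF M i j y → PF M i j fun s => x s * y s) ∧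
  (∀ (x : (σ → ℤ) → G) (n : (σ → ℤ) → ℤ), PF M i j x → IsPoly n → PF M i j fun s => x s ^ n s)

variable {M} {σ τ : Type} {i j : ℕ}

lemma PF.of_le {x : (σ → ℤ) → G} (hx : ∀ s, x s ∈ M.Γ i) (h : j ≤ i ∨ M.h ≤ i) : PF M i j x :=
  ⟨hx, fun k hk => (IsPoly.const 0).congr fun s =>
    (hx s k (h.elim (fun h => hk.trans_le h) fun h => k.2.trans_le h)).symm⟩

lemma PF.const {x : G} (hx : x ∈ M.Γ i) : PF M i j fun _ : σ → ℤ => x :=
  ⟨fun _ => hx, fun _ _ => IsPoly.const _⟩

lemma PF.mono {x : (σ → ℤ) → G} (hx : PF M i j x) {i' j' : ℕ} (hi : i' ≤ i) (hj : j' ≤ j) :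
    PF M i' j' x :=
  ⟨fun s => Tri.Γ_anti hi (hx.1 s), fun k hk => hx.2 k (hk.trans_le hj)⟩

lemma PF.trunc {x : (σ → ℤ) → G} (hx : PF M i j x) (j' : ℕ) :
    PF M i j' fun s => M.trunc j (x s) := by
  refine ⟨fun s => Tri.trunc_mem j (hx.1 s), fun k _ => ?_⟩
  simp only [Tri.co_trunc]
  split_ifs with h
  exacts [hx.2 k h, IsPoly.const 0]

lemma PF.comp {x : (τ → ℤ) → G} (hx : PF M i j x) {a : (σ → ℤ) → τ → ℤ}
    (ha : ∀ t, IsPoly fun s => a s t) : PF M i j fun s => x (a s) :=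
  ⟨fun _ => hx.1 _, fun k hk => (hx.2 k hk).comp ha⟩

lemma PF.congr {x y : (σ → ℤ) → G} (hx : PF M i j x) (h : ∀ s, x s = y s) : PF M i j y :=
  funext h ▸ hx

lemma PF.succ {x : (σ → ℤ) → G} {j : Fin M.h} (hx : PF M i j x)
    (h : IsPoly fun s => M.co (x s) j) : PF M i (j + 1) x := by
  refine ⟨hx.1, fun k hk => ?_⟩
  rcases Nat.lt_succ_iff_lt_or_eq.1 hk with h1 | h1
  · exact hx.2 k h1
  · rwa [Fin.ext h1]

lemma Cl.of_le (h : j ≤ i ∨ M.h ≤ i) : Cl M i j := fun _ =>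
  ⟨fun _ _ hx hy => PF.of_le (fun s => mul_mem (hx.1 s) (hy.1 s)) h,
    fun _ _ hx _ => PF.of_le (fun s => zpow_mem (hx.1 s) _) h⟩

variable {u : Fin M.h → G} (hu : ∀ (i : Fin M.h) (c : ℤ), ∀ w ∈ M.Γ (i + 1),
      M.co (u i ^ c * w) = Function.update (M.co w) i c)
include hu

lemma co_u (i : Fin M.h) : M.co (u i) = Function.update (M.co 1) i 1 := by
  simpa using hu i 1 1 (one_mem _)

lemma u_mem (i : Fin M.h) : u i ∈ M.Γ i := fun k hk => by
  rw [co_u hu, Function.update_of_ne (fun h => by simp [h] at hk), M.co_one]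

lemma tail_mem (i : Fin M.h) {x : G} (hx : x ∈ M.Γ i) :
    (u i ^ M.co x i)⁻¹ * x ∈ M.Γ (i + 1) := by
  refine Tri.mem_Γ_succ (mul_mem (inv_mem (zpow_mem (u_mem hu i) _)) hx) ?_
  rw [Tri.addR hx _ le_rfl, Tri.co_inv (zpow_mem (u_mem hu i) _) le_rfl,
    Tri.co_zpow (u_mem hu i) _ le_rfl, co_u hu]
  simp

lemma PF.tail {i : Fin M.h} {x : (σ → ℤ) → G} (hx : PF M i j x) :
    PF M (i + 1) j fun s => (u i ^ M.co (x s) i)⁻¹ * x s := by
  refine ⟨fun s => tail_mem hu i (hx.1 s), fun k hk => ?_⟩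
  by_cases h : k = i
  · exact (IsPoly.const 0).congr fun s => (tail_mem hu i (hx.1 s) k (by simp [h])).symm
  · refine (hx.2 k hk).congr fun s => ?_
    have := congrFun (hu i (M.co (x s) i) _ (tail_mem hu i (hx.1 s))) k
    rwa [mul_inv_cancel_left, Function.update_of_ne h] at this

lemma PF.cons {i : Fin M.h} {x : (σ → ℤ) → G} (hx : PF M (i + 1) j x) {c : (σ → ℤ) → ℤ}
    (hc : IsPoly c) : PF M i j fun s => u i ^ c s * x s := by
  refine ⟨fun s => mul_mem (zpow_mem (u_mem hu i) _) (Tri.Γ_anti (Nat.le_succ _) (hx.1 s)),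
    fun k hk => ?_⟩
  by_cases h : k = i
  · exact hc.congr fun s => by rw [hu i _ _ (hx.1 s), h, Function.update_self]
  · exact (hx.2 k hk).congr fun s => by rw [hu i _ _ (hx.1 s), Function.update_of_ne h]

lemma Cl.conj1 (hC : Cl M i j) (g : G) (d : ℕ) : ∀ t, i ≤ t → j ≤ t + d →
    ∀ y : (σ → ℤ) → G, PF M t j y → PF M i j fun s => g * y s * g⁻¹ := by
  have triv : ∀ t, i ≤ t → (j ≤ t ∨ M.h ≤ t) →
      ∀ y : (σ → ℤ) → G, PF M t j y → PF M i j fun s => g * y s * g⁻¹ := fun t ht h y hy =>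
    (PF.of_le (fun s => (Tri.normal_Γ t).conj_mem _ (hy.1 s) g) h).mono ht le_rfl
  induction d with
  | zero => exact fun t ht h => triv t ht (Or.inl h)
  | succ d ih =>
    intro t ht h y hy
    by_cases h1 : j ≤ t ∨ M.h ≤ t
    · exact triv t ht h1 y hy
    push Not at h1
    let t' : Fin M.h := ⟨t, h1.2⟩
    have h2 := ih (t + 1) (by omega) (by omega) _ (PF.tail hu (i := t') hy)
    have h3 := (hC σ).2 _ _ (PF.const (Tri.Γ_anti ht
      ((Tri.normal_Γ t).conj_mem _ (u_mem hu t') g))) (hy.2 t' h1.1)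
    refine ((hC σ).1 _ _ h3 h2).congr fun s => ?_
    rw [conj_zpow]
    simp [mul_assoc]

lemma Cl.step {i j : Fin M.h} (hij : i ≤ j) (h1 : Cl M i j) (h2 : Cl M (i + 1) (j + 1)) :
    Cl M i (j + 1) := by
  have conj : ∀ (σ : Type) (y : (σ → ℤ) → G) (b : (σ → ℤ) → ℤ), PF M (i + 1) (j + 1) y →
      IsPoly b → PF M (i + 1) (j + 1) fun s => u i ^ b s * y s * (u i ^ b s)⁻¹ := by
    have aux : ∀ (σ : Type) (y : (σ → ℤ) → G) (b : (σ → ℤ) → ℤ), PF M (i + 1) (j + 1) y →
        IsPoly b → PF M (i + 1) j fun s => u i ^ b s * y s * (u i ^ b s)⁻¹ := by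
      intro σ y b hy hb
      refine ⟨fun s => (Tri.normal_Γ _).conj_mem _ (hy.1 s) _, ?_⟩
      have := (h1 σ).1 _ _ ((h1 σ).1 _ _ ((h1 σ).2 _ _ (PF.const (u_mem hu i)) hb)
        (hy.mono (Nat.le_succ _) (Nat.le_succ _))) ((h1 σ).2 _ _ (PF.const (u_mem hu i)) hb.neg)
      simpa only [zpow_neg] using this.2
    intro σ y b hy hb
    refine (aux σ y b hy hb).succ ?_
    refine IsPoly.antider (F := fun b s => M.co (u i ^ b * y s * (u i ^ b)⁻¹) j)
      (by simpa using hy.2 j (Nat.lt_succ_self _)) ?_ hb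
    have h3 := aux (Option σ) (fun s => y fun i => s (some i)) (fun s => s none)
      (hy.comp fun t => IsPoly.var _) (IsPoly.var _)
    have h4 := h2.conj1 hu (u i) (j + 1) (i + 1) le_rfl (by omega) _ (h3.trunc (j + 1))
    refine (h4.2 j (Nat.lt_succ_self _)).congr fun s => ?_
    set w := u i ^ s none * (y fun i => s (some i)) * (u i ^ s none)⁻¹ with hw
    have h5 : u i ^ (s none + 1) * (y fun i => s (some i)) * (u i ^ (s none + 1))⁻¹ =
        (u i * M.trunc j w * (u i)⁻¹) * (u i * ((M.trunc j w)⁻¹ * w) * (u i)⁻¹) := by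
      rw [hw, add_comm, zpow_add]; group
    have h6 := Tri.addR (Tri.trunc_inv_mul (M := M) j w) (M.trunc j w) (le_refl (j : ℕ))
    rw [mul_inv_cancel_left, Tri.co_trunc, if_neg (lt_irrefl _), zero_add] at h6
    rw [h5, Tri.addR ((Tri.normal_Γ _).conj_mem _ (Tri.trunc_inv_mul j w) _) _ le_rfl,
      Tri.co_conj (Tri.trunc_inv_mul j w) _ le_rfl, ← h6, add_sub_cancel_right]
  have mul : ∀ (σ : Type) (x y : (σ → ℤ) → G), PF M i (j + 1) x → PF M i (j + 1) y →
      PF M i (j + 1) fun s => x s * y s := by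
    intro σ x y hx hy
    have ha := hx.2 i (Nat.lt_succ_of_le hij)
    have hb := hy.2 i (Nat.lt_succ_of_le hij)
    have := PF.cons hu ((h2 σ).1 _ _ (conj σ _ _ (hx.tail hu) hb.neg) (hy.tail hu)) (ha.add hb)
    refine this.congr fun s => ?_
    rw [zpow_add]; group
  refine fun σ => ⟨mul σ, fun x n hx hn => ?_⟩
  refine ((h1 σ).2 x n (hx.mono le_rfl (Nat.le_succ _)) hn).succ ?_
  refine IsPoly.antider (F := fun n s => M.co (x s ^ n) j)
    ((IsPoly.const 0).congr fun s => by simp [M.co_one]) ?_ hn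
  have h3 : PF M i (j + 1) fun s : Option σ → ℤ => x fun i => s (some i) :=
    hx.comp fun t => IsPoly.var _
  have h4 := (h1 (Option σ)).2 _ (fun s => s none) (h3.mono le_rfl (Nat.le_succ _)) (IsPoly.var _)
  refine ((mul _ _ _ (h4.trunc (j + 1)) h3).2 j (Nat.lt_succ_self _)).congr fun s => ?_
  rw [zpow_add_one, Tri.co_mul_sub]

lemma cl_all : ∀ j ≤ M.h, ∀ i, Cl M i j := by
  intro j
  induction j with
  | zero => exact fun _ i => Cl.of_le (Or.inl (Nat.zero_le _))
  | succ j ih =>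
    intro hj
    have : ∀ d i, j + 1 ≤ i + d → Cl M i (j + 1) := by
      intro d
      induction d with
      | zero => exact fun i hi => Cl.of_le (Or.inl hi)
      | succ d ihd =>
        intro i hi
        by_cases h : j + 1 ≤ i
        · exact Cl.of_le (Or.inl h)
        exact Cl.step hu (i := ⟨i, by omega⟩) (j := ⟨j, hj⟩) (by simp only [Fin.mk_le_mk]; omega)
          (ih (Nat.le_of_succ_le hj) i) (ihd (i + 1) (by omega))
    exact fun i => this (j + 1) i (by omega)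

end

/-- Triangular integer coordinates with polynomial multiplication and powers. -/
structure Model (G : Type u) [Group G] extends Tri G ℤ where
  D : ℤ
  D_pos : 0 < D
  Gm : Fin h → MvPolynomial (Fin h ⊕ Fin h) ℤ
  Gp : Fin h → MvPolynomial (Option (Fin h)) ℤ
  co_mul : ∀ x y i, D * co (x * y) i = eval (Sum.elim (co x) (co y)) (Gm i)
  co_pow : ∀ (x : G) (n : ℤ) i, D * co (x ^ n) i = eval (fun o => o.elim n (co x)) (Gp i)

theorem exists_model (G : Type u) [Group G] [Group.IsNilpotent G] [Group.FG G]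
    (htf : ∀ (g : G) (n : ℕ), 0 < n → g ^ n = 1 → g = 1) : Nonempty (Model G) := by
  obtain ⟨M, u, hu⟩ := exists_tri G htf
  have hC := cl_all hu M.h le_rfl 0
  have base : ∀ {σ : Type} (e : Fin M.h → σ),
      PF M 0 M.h fun s : σ → ℤ => M.co.symm fun i => s (e i) := fun e =>
    ⟨fun _ => Tri.mem_Γ_zero _, fun k _ => by simpa using IsPoly.var (e k)⟩
  have h1 := fun k => (((hC _).1 _ _ (base Sum.inl) (base Sum.inr)).2 k k.2).exists_int
  have h2 := fun k => (((hC _).2 _ _ (base some) (IsPoly.var none)).2 k k.2).exists_int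
  choose D1 P1 hD1 hP1 using h1
  choose D2 P2 hD2 hP2 using h2
  have hd1 : ∀ k, D1 k ∣ (∏ k, D1 k) * ∏ k, D2 k := fun k =>
    (Finset.dvd_prod_of_mem _ (Finset.mem_univ k)).mul_right _
  have hd2 : ∀ k, D2 k ∣ (∏ k, D1 k) * ∏ k, D2 k := fun k =>
    (Finset.dvd_prod_of_mem _ (Finset.mem_univ k)).mul_left _
  choose e1 he1 using hd1
  choose e2 he2 using hd2
  refine ⟨⟨M, (∏ k, D1 k) * ∏ k, D2 k,
    mul_pos (Finset.prod_pos fun k _ => hD1 k) (Finset.prod_pos fun k _ => hD2 k),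
    fun k => C (e1 k) * P1 k, fun k => C (e2 k) * P2 k, fun x y k => ?_, fun x n k => ?_⟩⟩
  · rw [map_mul (eval _), eval_C, ← hP1, he1 k]
    simp [mul_assoc, mul_left_comm]
  · rw [map_mul (eval _), eval_C, ← hP2, he2 k]
    simp [mul_assoc, mul_left_comm]

end Pool.Agent.P.MP_5b4d81_al
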