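import Pool.Agent.P.MP_5b4d81_al.Spread

set_option autoImplicit false

namespace Pool.Agent.P.MP_5b4d81_al

universe u

lemma exists_pow_hom (Q : Type u) [Group Q] [Finite Q] [hQ : Group.IsNilpotent Q] {p : ℕ}
    (hp : p.Prime) (hd : p ∣ Nat.card Q) : ∃ (u : ℕ) (ψ : Q →* Q), ¬ p ∣ u ∧ (∀ g, ψ g = g ^ u) ∧
      IsPGroup p ψ.range := by
  have h0 : Nat.card Q ≠ 0 := Nat.card_pos.ne'
  obtain ⟨j, e, he, hje⟩ := Nat.exists_eq_pow_mul_and_not_dvd h0 p hp.ne_one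
  have hc : Nat.Coprime (p ^ j) e := ((Nat.Prime.coprime_iff_not_dvd hp).2 he).pow_left j
  obtain ⟨u, hu1, hu0⟩ := Nat.chineseRemainder hc 1 0
  have hu0' : e ∣ u := (Nat.modEq_zero_iff_dvd).1 hu0
  obtain ⟨E⟩ : Nonempty ((∀ p : (Nat.card Q).primeFactors, ∀ P : Sylow p Q,
      (↑P : Subgroup Q)) ≃* Q) := (Group.isNilpotent_of_finite_tfae.out 0 4 rfl rfl).mp hQ
  have hmul : ∀ a b : Q, (a * b) ^ u = a ^ u * b ^ u := by
    intro a b
    obtain ⟨a, rfl⟩ := E.surjective a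
    obtain ⟨b, rfl⟩ := E.surjective b
    simp only [← map_mul, ← map_pow]
    congr 1
    funext q P
    have hq : Fact (q : ℕ).Prime := ⟨Nat.prime_of_mem_primeFactors q.2⟩
    obtain ⟨n, hn⟩ := P.isPGroup'.exists_card_eq
    have h1 : (q : ℕ) ^ n ∣ p ^ j * e := by
      rw [← hn, ← hje]; exact Subgroup.card_subgroup_dvd_card _
    have h2 : ∀ x : (P : Subgroup Q), orderOf x ∣ (q : ℕ) ^ n := fun x =>
      hn ▸ orderOf_dvd_natCard x
    simp only [Pi.mul_apply, Pi.pow_apply]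
    by_cases h : (q : ℕ) = p
    · have h3 : ∀ x : (P : Subgroup Q), x ^ u = x := fun x => by
        conv_rhs => rw [← pow_one x]
        refine pow_eq_pow_iff_modEq.2 (hu1.of_dvd ((h2 x).trans ?_))
        rw [h] at h1 ⊢
        exact (((Nat.Prime.coprime_iff_not_dvd hp).2 he).pow_left n).dvd_of_dvd_mul_right h1
      simp only [h3]
    · have h3 : ∀ x : (P : Subgroup Q), x ^ u = 1 := fun x => by
        refine orderOf_dvd_iff_pow_eq_one.1 ((h2 x).trans (Dvd.dvd.trans ?_ hu0'))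
        exact (Nat.Coprime.pow n j ((Nat.coprime_primes hq.out hp).2 h)).dvd_of_dvd_mul_left h1
      simp only [h3, mul_one]
  refine ⟨u, MonoidHom.mk' (fun g => g ^ u) hmul, fun h => ?_, fun _ => rfl, ?_⟩
  · have hj : j ≠ 0 := by
      rintro rfl
      rw [hje, pow_zero, one_mul] at hd
      exact he hd
    have := (hu1.of_dvd (dvd_pow_self p hj)).symm.trans (Nat.modEq_zero_iff_dvd.2 h)
    exact hp.one_lt.ne' (Nat.dvd_one.1 (Nat.modEq_zero_iff_dvd.1 this))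
  · rintro ⟨_, g, rfl⟩
    refine ⟨j, Subtype.ext ?_⟩
    change (g ^ u) ^ p ^ j = 1
    obtain ⟨c, rfl⟩ := hu0'
    rw [← pow_mul, show e * c * p ^ j = p ^ j * e * c by ring, ← hje, pow_mul, pow_card_eq_one',
      one_pow]

variable {G : Type u} [Group G]

lemma lower_aux [Group.IsNilpotent G] {H : Subgroup G} {x : G} {m : ℕ} (hm : m ≠ 0) {Q : Type u}
    [Group Q] [Finite Q] (φ : G →* Q) (hφ : Function.Surjective φ) (hx : φ (x ^ m) ∉ H.map φ) :
    ∃ p : ℕ, p.Prime ∧ p ^ (m.factorization p + 1) ≤ Nat.card Q ∧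
      ∃ j, p ^ j ≤ Nat.card Q ∧ SepP H j p x := by
  classical
  have := Group.nilpotent_of_surjective φ hφ
  have hex : ∃ r, 0 < r ∧ φ x ^ r ∈ H.map φ :=
    ⟨Nat.card Q, Nat.card_pos, by rw [pow_card_eq_one']; exact one_mem _⟩
  obtain ⟨hr0, hr⟩ := Nat.find_spec hex
  set r := Nat.find hex with hr'
  have hdvd : ∀ n, φ x ^ n ∈ H.map φ → r ∣ n := fun n hn => by
    by_contra hc
    refine Nat.find_min hex (Nat.mod_lt n hr0) ⟨Nat.pos_of_ne_zero fun h =>
      hc (Nat.dvd_of_mod_eq_zero h), ?_⟩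
    have := mul_mem (inv_mem (pow_mem hr (n / r))) hn
    conv at this => rw [← Nat.div_add_mod n r]
    rwa [← pow_mul, Nat.div_add_mod, ← Nat.div_add_mod n r, pow_add, Nat.div_add_mod,
      inv_mul_cancel_left] at this
  have h1 : ¬ r ∣ m := by
    rintro ⟨c, rfl⟩
    exact hx (by rw [map_pow, pow_mul]; exact pow_mem hr c)
  rw [← Nat.factorization_prime_le_iff_dvd hr0.ne' hm] at h1
  push Not at h1
  obtain ⟨p, hp, h1⟩ := h1
  have : Fact p.Prime := ⟨hp⟩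
  have h2 : p ^ (m.factorization p + 1) ∣ r := (hp.pow_dvd_iff_le_factorization hr0.ne').2 h1
  have h3 : r ∣ Nat.card Q := hdvd _ (by rw [pow_card_eq_one']; exact one_mem _)
  have h4 : p ∣ r := (dvd_pow_self p (Nat.succ_ne_zero _)).trans h2
  obtain ⟨v, ψ, hv, hψ, hP⟩ := exists_pow_hom Q hp (h4.trans h3)
  obtain ⟨j, hj⟩ := hP.exists_card_eq
  refine ⟨p, hp, Nat.le_of_dvd Nat.card_pos (h2.trans h3), j,
    hj ▸ Subgroup.card_le_card_group _, (ψ.comp φ).ker, inferInstance, ⟨j, le_rfl, ?_⟩,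
    fun h5 => hv (h4.trans (hdvd v ?_))⟩
  · rw [Subgroup.index_ker, MonoidHom.range_comp, MonoidHom.range_eq_top.2 hφ,
      ← MonoidHom.range_eq_map, hj]
  · obtain ⟨η, hη, h6⟩ := mem_sup_normal.1 h5
    rw [MonoidHom.mem_ker, map_mul, map_inv, inv_mul_eq_one] at h6
    simp only [MonoidHom.comp_apply, hψ] at h6
    exact h6 ▸ pow_mem (Subgroup.mem_map_of_mem φ hη) v

lemma SepP.mono {H : Subgroup G} {k k' p : ℕ} {x : G} (h : SepP H k p x) (hk : k ≤ k') :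
    SepP H k' p x :=
  let ⟨J, h1, ⟨j, h2, h3⟩, h4⟩ := h
  ⟨J, h1, ⟨j, h2.trans hk, h3⟩, h4⟩

lemma lower_card [Group.IsNilpotent G] {H : Subgroup G} {x : G} {k y : ℕ}
    (hy : ∀ p, p.Prime → SepP H k p x → p ≤ y) {Q : Type u}
    [Group Q] [Finite Q] (φ : G →* Q) (hφ : Function.Surjective φ)
    (hx : φ (x ^ (Nat.lcmUpto y ^ (2 * (k + 1)))) ∉ H.map φ) : y ^ (k + 1) ≤ Nat.card Q := by
  obtain ⟨p, hp, h1, j, h2, h3⟩ := lower_aux (pow_ne_zero _ (Nat.lcmUpto_ne_zero y)) φ hφ hx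
  by_cases h : p ≤ y
  · refine le_trans ?_ h1
    rw [Nat.factorization_pow, Finsupp.smul_apply, Nat.factorization_lcmUpto y hp, smul_eq_mul]
    have h4 := Nat.lt_pow_succ_log_self hp.one_lt y
    have h5 := Nat.log_pos hp.one_lt h
    refine (Nat.pow_le_pow_left h4.le _).trans ?_
    rw [← pow_mul]
    exact Nat.pow_le_pow_right hp.pos (by simp only [Nat.succ_eq_add_one]; nlinarith)
  · have h4 : k + 1 ≤ j := by
      by_contra hc
      exact h (hy p hp (h3.mono (by omega)))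
    exact ((Nat.pow_le_pow_left (not_le.1 h).le _).trans
      (Nat.pow_le_pow_right hp.pos h4)).trans h2

lemma SepLe.sepIndex_le {H : Subgroup G} {x : G} {m : ℕ} (h : SepLe H x m) : sepIndex H x ≤ m :=
  let ⟨Q, i1, i2, φ, h1, h2, h3⟩ := h
  le_trans (Nat.sInf_le ⟨Q, i1, i2, φ, h1, h2, rfl⟩) h3

lemma SepLe.spec {H : Subgroup G} {x : G} {m : ℕ} (h : SepLe H x m) :
    ∃ (Q : Type u) (_ : Group Q) (_ : Finite Q) (φ : G →* Q),
      Function.Surjective φ ∧ φ x ∉ H.map φ ∧ Nat.card Q = sepIndex H x :=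
  let ⟨Q, i1, i2, φ, h1, h2, _⟩ := h
  Nat.sInf_mem (s := {m | ∃ (Q : Type u) (_ : Group Q) (_ : Finite Q) (φ : G →* Q),
    Function.Surjective φ ∧ φ x ∉ H.map φ ∧ Nat.card Q = m}) ⟨_, Q, i1, i2, φ, h1, h2, rfl⟩

lemma sepLe_of_not_mem {H J : Subgroup G} [J.Normal] (hJ : J.index ≠ 0) {x : G} (hx : x ∉ H ⊔ J) :
    SepLe H x J.index := by
  refine ⟨G ⧸ J, inferInstance, Nat.finite_of_card_ne_zero hJ, QuotientGroup.mk' J,
    QuotientGroup.mk'_surjective J, ?_, le_rfl⟩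
  rintro ⟨η, hη, h⟩
  exact hx (mem_sup_normal.2 ⟨η, hη, QuotientGroup.eq.1 h⟩)

lemma not_mem_of_mul {H J : Subgroup G} {x η : G} (hη : η ∈ H) (h : x * η ∉ H ⊔ J) : x ∉ H ⊔ J :=
  fun h' => h (mul_mem h' (Subgroup.mem_sup_left hη))

lemma InBall.mono {S : Finset G} {n n' : ℕ} {x : G} (h : InBall S n x) (hn : n ≤ n') :
    InBall S n' x :=
  let ⟨l, h1, h2⟩ := h
  ⟨l, h1.trans hn, h2⟩

lemma InBall.pow {S : Finset G} {n : ℕ} {x : G} (h : InBall S n x) (m : ℕ) :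
    InBall S (n * m) (x ^ m) := by
  induction m with
  | zero => exact ⟨[], by simp, by simp, by simp⟩
  | succ m ih =>
    obtain ⟨l, h1, h2, rfl⟩ := h
    obtain ⟨l', h3, h4, h5⟩ := ih
    refine ⟨l' ++ l, by rw [List.length_append, mul_add, mul_one]; omega, fun y hy => ?_,
      by rw [List.prod_append, h5, pow_succ]⟩
    exact (List.mem_append.1 hy).elim (h4 y) (h2 y)

lemma exists_inBall {S : Finset G} (hS : Subgroup.closure (S : Set G) = ⊤) (x : G) :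
    ∃ n, InBall S n x := by
  have hx : x ∈ (Subgroup.closure (S : Set G)).toSubmonoid := hS ▸ Subgroup.mem_top x
  rw [Subgroup.closure_toSubmonoid] at hx
  obtain ⟨l, h1, h2⟩ := Submonoid.exists_list_of_mem_closure hx
  exact ⟨_, l, le_rfl, h1, h2⟩

section growth

variable {H : Subgroup G} {S : Finset G} {b : ℕ → ℕ}
  (hb : ∀ n x, x ∉ H → InBall S n x → SepLe H x (b n))
include hb

lemma sepGrowth_le (n : ℕ) : sepGrowth H S n ≤ b n + 1 := by
  unfold sepGrowth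
  split_ifs with h
  · refine csSup_le' ?_
    rintro _ ⟨x, h1, h2, rfl⟩
    exact (hb n x h1 h2).sepIndex_le.trans (Nat.le_succ _)
  · omega

lemma le_sepGrowth {n : ℕ} {x : G} (h1 : x ∉ H) (h2 : InBall S n x) :
    sepIndex H x ≤ sepGrowth H S n := by
  unfold sepGrowth
  rw [if_pos ⟨x, h1, h2⟩]
  refine le_csSup ⟨b n, ?_⟩ ⟨x, h1, h2, rfl⟩
  rintro _ ⟨x, h1, h2, rfl⟩
  exact (hb n x h1 h2).sepIndex_le

lemma one_le_sepGrowth (n : ℕ) : 1 ≤ sepGrowth H S n := by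
  by_cases h : ∃ x, x ∉ H ∧ InBall S n x
  · obtain ⟨x, h1, h2⟩ := h
    obtain ⟨Q, _, _, φ, -, -, h3⟩ := (hb n x h1 h2).spec
    exact le_trans (h3 ▸ Nat.card_pos) (le_sepGrowth hb h1 h2)
  · rw [sepGrowth, if_neg h]

lemma lower_bound [Group.IsNilpotent G] (hS : Subgroup.closure (S : Set G) = ⊤) {x : G} {k : ℕ}
    (hx : ∀ m : ℕ, m ≠ 0 → x ^ m ∉ H) (hf : {p | p.Prime ∧ SepP H k p x}.Finite) :
    Preceq (fun n => Real.log n ^ (k + 1)) fun n => sepGrowth H S n := by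
  obtain ⟨y₀, hy₀⟩ := hf.bddAbove
  obtain ⟨l, hl⟩ := exists_inBall hS x
  set A := 14 * (k + 1) with hA
  refine ⟨l + (A * (y₀ + 2)) ^ (k + 1), by positivity, fun n hn => ?_⟩
  have hA' : (0 : ℝ) < A := by positivity
  have hlog : 0 ≤ Real.log n := Real.log_natCast_nonneg n
  set y := ⌊Real.log n / A⌋₊ with hy
  have h1 : Real.log n ≤ A * (y + 1) := by
    have := Nat.lt_floor_add_one (Real.log n / A)
    rw [div_lt_iff₀ hA'] at this
    linarith
  have h2 : Nat.lcmUpto y ^ (2 * (k + 1)) ≤ n := by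
    have h3 : (y : ℝ) * A ≤ Real.log n := (le_div_iff₀ hA').1 (Nat.floor_le (by positivity))
    have h4 := Chebyshev.psi_le_const_mul_self (Nat.cast_nonneg (α := ℝ) y)
    have h5 : Real.log 4 ≤ 3 := by linarith [Real.log_le_sub_one_of_pos (by norm_num : (0 : ℝ) < 4)]
    rw [Chebyshev.psi_eq_log_lcmUpto] at h4
    have h6 : (0 : ℝ) < Nat.lcmUpto y := by exact_mod_cast Nat.lcmUpto_pos y
    have h7 : (Nat.lcmUpto y : ℝ) ^ (2 * (k + 1)) ≤ n := by
      rw [← Real.log_le_log_iff (by positivity) (by exact_mod_cast hn), Real.log_pow]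
      refine le_trans ?_ h3
      have h8 : Real.log (Nat.lcmUpto y) ≤ 7 * y :=
        h4.trans (mul_le_mul_of_nonneg_right (by linarith) (Nat.cast_nonneg _))
      rw [hA]
      push_cast
      nlinarith [Nat.cast_nonneg (α := ℝ) k]
    exact_mod_cast h7
  set F := sepGrowth H S ((l + (A * (y₀ + 2)) ^ (k + 1)) * n) with hF
  have h3 : (y + 1) ^ (k + 1) ≤ (y₀ + 2) ^ (k + 1) * F := by
    by_cases h : y ≤ y₀
    · exact (Nat.pow_le_pow_left (by omega) _).trans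
        (Nat.le_mul_of_pos_right _ (one_le_sepGrowth hb _))
    · have h4 := hx _ (pow_ne_zero (2 * (k + 1)) (Nat.lcmUpto_ne_zero y))
      have h5 : InBall S ((l + (A * (y₀ + 2)) ^ (k + 1)) * n) _ :=
        (hl.pow _).mono (Nat.mul_le_mul (Nat.le_add_right _ _) h2)
      obtain ⟨Q, _, _, φ, h6, h7, h8⟩ := (hb _ _ h4 h5).spec
      have h9 := lower_card (fun p hp h' => (hy₀ ⟨hp, h'⟩).trans (not_le.1 h).le) φ h6 h7
      refine le_trans ?_ (Nat.mul_le_mul_left _ ((h8 ▸ h9).trans (le_sepGrowth hb h4 h5)))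
      rw [← mul_pow]
      exact Nat.pow_le_pow_left (by nlinarith [not_le.1 h]) _
  have h4 : (A * (y + 1)) ^ (k + 1) ≤ (l + (A * (y₀ + 2)) ^ (k + 1)) * F := by
    rw [mul_pow A, mul_pow A, add_mul, mul_assoc]
    exact (Nat.mul_le_mul_left _ h3).trans (Nat.le_add_left _ _)
  refine (pow_le_pow_left₀ hlog h1 _).trans ?_
  beta_reduce
  exact_mod_cast h4

end growth

lemma upper_bound {H : Subgroup G} {S : Finset G} {c C k : ℕ} (hb : ∀ n x, x ∉ H → InBall S n x →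
    SepLe H x (c + (C * (Nat.log 2 (n + 2) + 1)) ^ k)) :
    Preceq (fun n => sepGrowth H S n) fun n => Real.log n ^ k := by
  refine ⟨c + (2 * C) ^ k + 6, by omega, fun n hn => ?_⟩
  have h1 := sepGrowth_le hb n
  set L := Real.log ((c + (2 * C) ^ k + 6) * n : ℕ) with hL
  have h2 : ((Nat.log 2 (n + 2) + 1 : ℕ) : ℝ) ≤ 2 * L := by
    have h3 : 2 ^ (Nat.log 2 (n + 2) + 1) ≤ (c + (2 * C) ^ k + 6) * n := by
      have := Nat.pow_log_le_self 2 (Nat.succ_ne_zero (n + 1))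
      rw [pow_succ]
      nlinarith [Nat.zero_le ((c + (2 * C) ^ k) * n)]
    have h4 : Real.log ((2 : ℝ) ^ (Nat.log 2 (n + 2) + 1)) ≤ L :=
      Real.log_le_log (by positivity) (by exact_mod_cast h3)
    rw [Real.log_pow] at h4
    nlinarith [Real.log_two_gt_d9, Nat.cast_nonneg (α := ℝ) (Nat.log 2 (n + 2) + 1)]
  have h3 : 1 ≤ L := by
    have : 1 ≤ Nat.log 2 (n + 2) := Nat.log_pos one_lt_two (by omega)
    have : (2 : ℝ) ≤ (Nat.log 2 (n + 2) + 1 : ℕ) := by exact_mod_cast Nat.succ_le_succ this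
    linarith
  have h4 : 1 ≤ L ^ k := one_le_pow₀ h3
  have h5 : ((C * (Nat.log 2 (n + 2) + 1) : ℕ) : ℝ) ^ k ≤ (2 * C) ^ k * L ^ k := by
    rw [← mul_pow, Nat.cast_mul]
    refine pow_le_pow_left₀ (by positivity) ?_ k
    nlinarith [Nat.cast_nonneg (α := ℝ) C]
  have h6 : (sepGrowth H S n : ℝ) ≤ c + ((C * (Nat.log 2 (n + 2) + 1) : ℕ) : ℝ) ^ k + 1 := by
    exact_mod_cast h1
  refine h6.trans ?_
  change _ ≤ _ * L ^ k
  rw [Nat.cast_add, Nat.cast_add, Nat.cast_pow, Nat.cast_mul 2, Nat.cast_ofNat, Nat.cast_ofNat]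
  nlinarith [Nat.cast_nonneg (α := ℝ) c]

theorem main [Group.IsNilpotent G] (htf : ∀ (g : G) (n : ℕ), 0 < n → g ^ n = 1 → g = 1)
    (S : Finset G) (hS : Subgroup.closure (S : Set G) = ⊤) (H : Subgroup G) :
    ∃ k : ℕ, k ≤ hirschLength G ∧
      Preceq (fun n => sepGrowth H S n) (fun n => Real.log n ^ k) ∧
      Preceq (fun n => Real.log n ^ k) (fun n => sepGrowth H S n) := by
  classical
  have : Group.FG G := ⟨S, hS⟩
  obtain ⟨M⟩ := exists_model G htf
  obtain ⟨E⟩ := M.exists_ech H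
  let P : ℕ → Prop := fun k => ∀ (i : Fin M.h), ∀ x ∈ M.Γ i, E.d i = 0 → M.co x i ≠ 0 →
    {p | p.Prime ∧ SepP H k p x}.Infinite
  have hP : P (hirschLength G) := by
    obtain ⟨m, s, hs, hr⟩ : ∃ (m : ℕ) (s : ℕ → Subgroup G), IsPolycyclicSeries m s ∧
        {i | i < m ∧ Infinite (s (i + 1) ⧸ (s i).subgroupOf (s (i + 1)))}.ncard =
          hirschLength G := by
      obtain ⟨m, s, hs⟩ := M.exists_polycyclic
      exact Nat.sInf_mem (s := {h | ∃ (m : ℕ) (s : ℕ → Subgroup G), IsPolycyclicSeries m s ∧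
        {i | i < m ∧ Infinite (s (i + 1) ⧸ (s i).subgroupOf (s (i + 1)))}.ncard = h})
        ⟨_, m, s, hs, rfl⟩
    obtain ⟨c, hc0, hc⟩ := index_le_of_series hs
    intro i x hx h0 h1
    set N : ℤ := c * M.D * (∏ j, if E.d j = 0 then 1 else E.d j) * M.co x i with hN
    have hN0 : N ≠ 0 := mul_ne_zero (mul_ne_zero (mul_ne_zero (by exact_mod_cast hc0.ne')
      M.D_pos.ne') (Finset.prod_ne_zero_iff.2 fun j _ => by split_ifs with h <;> simp [h])) h1
    refine (Nat.infinite_setOfPred_prime.sdiff (Set.finite_le_nat N.natAbs)).mono fun p hp => ?_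
    have hp1 : p.Prime := hp.1
    have hp2 : ¬ (p : ℤ) ∣ N := fun h =>
      hp.2 (Nat.le_of_dvd (Int.natAbs_pos.2 hN0) (Int.natCast_dvd.1 h))
    have hD : ¬ (p : ℤ) ∣ M.D := fun h => hp2 (((h.mul_left _).mul_right _).mul_right _)
    have hcop : IsCoprime (p : ℤ) M.D := (Nat.prime_iff_prime_int.1 hp1).coprime_iff_not_dvd.2 hD
    refine ⟨hp1, M.B p, inferInstance, hr ▸ hc p hp1 (fun h => hp2 ((((Int.natCast_dvd_natCast.2
      h).mul_right _).mul_right _).mul_right _)) _ inferInstance (fun g => ?_)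
      (Model.index_ne_zero (by exact_mod_cast hp1.ne_zero) fun _ _ => Model.Cg.mem_B hcop),
      E.prime_sep hp1 hD (fun j hj h => hp2 (((h.trans ?_).mul_left _).mul_right _)) hx h0
        fun h => hp2 (h.mul_left _)⟩
    · simpa using Model.Cg.mem_B hcop ((Model.Cg.refl g).pow hcop
        (Int.modEq_zero_iff_dvd.2 (dvd_refl (p : ℤ))).symm)
    · have := Finset.dvd_prod_of_mem (fun j => if E.d j = 0 then 1 else E.d j) (Finset.mem_univ j)
      rwa [if_neg hj] at this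
  have hex : ∃ k, P k := ⟨_, hP⟩
  obtain ⟨J, hJn, hJ0, hJ⟩ := E.uniform
  obtain ⟨C, hC⟩ := uniform_bound M H (Nat.find hex) S
  have hb : ∀ n x, x ∉ H → InBall S n x →
      SepLe H x (J.index + (C * (Nat.log 2 (n + 2) + 1)) ^ Nat.find hex) := by
    intro n x h1 h2
    obtain ⟨η, hη, i, h3, h4⟩ := E.exit h1
    by_cases h0 : E.d i = 0
    · refine (hC n x h2 ((Nat.find_spec hex i _ h3 h0 (by simpa [h0] using h4)).mono ?_) _
        (by omega) (Nat.lt_pow_succ_log_self one_lt_two _).le).mono (Nat.le_add_left _ _)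
      rintro p ⟨hp, J, h5, h6, h7⟩
      exact ⟨hp, J, h5, h6, not_mem_of_mul hη h7⟩
    · exact (sepLe_of_not_mem hJ0 (not_mem_of_mul hη (hJ i _ h3 h0 h4))).mono (Nat.le_add_right _ _)
  refine ⟨Nat.find hex, Nat.find_min' hex hP, upper_bound hb, ?_⟩
  rcases Nat.eq_zero_or_eq_succ_pred (Nat.find hex) with h | h
  · refine ⟨1, one_pos, fun n _ => ?_⟩
    simpa [h] using one_le_sepGrowth hb n
  · have h1 := Nat.find_min hex (m := (Nat.find hex).pred) (by omega)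
    simp only [P, not_forall, Set.not_infinite] at h1
    obtain ⟨i, x, hx, h0, h2, h3⟩ := h1
    rw [h]
    refine lower_bound hb hS (fun m hm hH => ?_) h3
    have := E.dvd i _ hH (pow_mem hx m)
    rw [h0, zero_dvd_iff, ← zpow_natCast, Tri.co_zpow hx _ le_rfl, smul_eq_mul] at this
    exact mul_ne_zero (by exact_mod_cast hm) h2 this

end Pool.Agent.P.MP_5b4d81_al
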