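import Mathlib

set_option autoImplicit false

namespace Pool.Agent.P.MP_5b4d81_al

open NumberField Polynomial Matrix

lemma det_cauchy {R : Type} [CommRing R] [Nontrivial R] {m : ℕ} (u : Fin m → R) (L : R) :
    (Matrix.of fun b a : Fin m => ∏ c ∈ Finset.univ.erase a, (L + u c - u b)).det =
      ∏ a, ∏ c ∈ Finset.univ.erase a, (u c - u a) := by
  let p : Fin m → R[X] := fun a => ∏ c ∈ Finset.univ.erase a, (X + C (u c))
  have hp : ∀ a : Fin m, (p a).natDegree < m := fun a => by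
    refine (natDegree_prod_le _ _).trans_lt ?_
    simp only [natDegree_X_add_C, Finset.sum_const, smul_eq_mul, mul_one]
    rw [Finset.card_erase_of_mem (Finset.mem_univ a), Finset.card_univ, Fintype.card_fin]
    have := a.2
    omega
  let Q : Matrix (Fin m) (Fin m) R := Matrix.of fun j a => (p a).coeff j
  have h1 : ∀ v : Fin m → R, (Matrix.of fun b a => (p a).eval (v b)) = vandermonde v * Q := by
    intro v
    ext b a
    simp only [Matrix.of_apply, Matrix.mul_apply, vandermonde_apply, Q]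
    rw [eval_eq_sum_range' (hp a), Finset.sum_range]
    simp [mul_comm]
  have h2 := congrArg Matrix.det (h1 fun b => -u b + L)
  rw [det_mul, det_vandermonde_add, ← det_mul, ← h1] at h2
  have h4 : (Matrix.of fun b a => (p a).eval (-u b)) =
      diagonal fun a => ∏ c ∈ Finset.univ.erase a, (u c - u a) := by
    ext b a
    simp only [Matrix.of_apply, p, eval_prod, eval_add, eval_X, eval_C, diagonal_apply]
    split_ifs with h
    · subst h; exact Finset.prod_congr rfl fun c _ => by ring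
    · exact Finset.prod_eq_zero (Finset.mem_erase.2 ⟨h, Finset.mem_univ b⟩) (by ring)
  rw [h4, det_diagonal] at h2
  rw [← h2]
  congr 1
  ext b a
  simp only [Matrix.of_apply, p, eval_prod, eval_add, eval_X, eval_C]
  exact Finset.prod_congr rfl fun c _ => by ring

lemma cauchy_dvd {R : Type} [CommRing R] [Nontrivial R] {m : ℕ} (u : Fin m → R) (L δ : R) (h : ∀ a b, L + u a - u b ∣ δ) :
    ∏ b, ∏ c, (L + u c - u b) ∣ δ ^ m * ∏ a, ∏ c ∈ Finset.univ.erase a, (u c - u a) := by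
  choose w hw using h
  refine ⟨(Matrix.of fun b a => w a b).det, ?_⟩
  rw [← det_cauchy u L, ← det_mul_column, show δ ^ m = δ ^ Fintype.card (Fin m) by simp,
    ← det_smul]
  congr 1
  ext b a
  simp only [Matrix.smul_apply, Matrix.of_apply, smul_eq_mul]
  rw [hw a b, ← Finset.mul_prod_erase _ _ (Finset.mem_univ a)]
  ring

variable {K : Type} [Field K] [NumberField K]

/-- absolute norm as a product over the complex embeddings -/
noncomputable def nrm (y : 𝓞 K) : ℝ := ∏ σ : K →ₐ[ℚ] ℂ, ‖σ (y : K)‖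

lemma nrm_eq (y : 𝓞 K) : nrm y = Nat.card (𝓞 K ⧸ Ideal.span {y}) := by
  rw [← Submodule.cardQuot_apply, ← Ideal.absNorm_apply, Ideal.absNorm_span_singleton, nrm,
    ← norm_prod, ← Algebra.norm_eq_prod_embeddings, ← Algebra.coe_norm_int]
  simp

lemma nrm_mul (x y : 𝓞 K) : nrm (x * y) = nrm x * nrm y := by
  simp [nrm, Finset.prod_mul_distrib]

/-- `nrm` as a monoid homomorphism -/
noncomputable def nrmHom : 𝓞 K →* ℝ := ⟨⟨nrm, by simp [nrm]⟩, nrm_mul⟩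

lemma nrm_nonneg (y : 𝓞 K) : 0 ≤ nrm y := Finset.prod_nonneg fun _ _ => norm_nonneg _

lemma finite_quot {y : 𝓞 K} (hy : y ≠ 0) : Finite (𝓞 K ⧸ Ideal.span {y}) :=
  Ideal.finiteQuotientOfFreeOfNeBot _ (by simpa using hy)

lemma one_le_nrm {y : 𝓞 K} (hy : y ≠ 0) : 1 ≤ nrm y := by
  have := finite_quot hy
  rw [nrm_eq]
  exact_mod_cast Nat.card_pos

lemma nrm_le_of_dvd {x y : 𝓞 K} (hy : y ≠ 0) (h : x ∣ y) : nrm x ≤ nrm y := by
  obtain ⟨c, rfl⟩ := h
  rw [nrm_mul]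
  exact le_mul_of_one_le_right (nrm_nonneg x) (one_le_nrm (right_ne_zero_of_mul hy))

lemma nrm_le {y : 𝓞 K} {B : ℝ} (h : ∀ σ : K →ₐ[ℚ] ℂ, ‖σ (y : K)‖ ≤ B) :
    nrm y ≤ B ^ Module.finrank ℚ K := by
  rw [← AlgHom.card ℚ K ℂ, ← Finset.card_univ, ← Finset.prod_const]
  exact Finset.prod_le_prod (fun _ _ => norm_nonneg _) fun σ _ => h σ

lemma le_nrm {y : 𝓞 K} {B : ℝ} (hB : 0 ≤ B) (h : ∀ σ : K →ₐ[ℚ] ℂ, B ≤ ‖σ (y : K)‖) :
    B ^ Module.finrank ℚ K ≤ nrm y := by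
  rw [← AlgHom.card ℚ K ℂ, ← Finset.card_univ, ← Finset.prod_const]
  exact Finset.prod_le_prod (fun _ _ => hB) fun σ _ => h σ

lemma exists_not_dvd_aux {m : ℕ} (hm : 0 < m) (u : Fin m → 𝓞 K) (hu : Function.Injective u)
    (ρ L : ℕ) (hρ : 1 ≤ ρ) (hL : 3 * ρ ≤ L)
    (hb : ∀ a b, ∀ σ : K →ₐ[ℚ] ℂ, ‖σ ((u a - u b : 𝓞 K) : K)‖ ≤ ρ) {δ : 𝓞 K} (hδ : δ ≠ 0)
    (h : nrm δ < 2 ^ m) : ∃ a b, (L : 𝓞 K) + u a - u b ≠ 0 ∧ ¬ (L : 𝓞 K) + u a - u b ∣ δ ∧
      nrm ((L : 𝓞 K) + u a - u b) ≤ (L + ρ : ℝ) ^ Module.finrank ℚ K := by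
  set d := Module.finrank ℚ K with hd
  have hd0 : 0 < d := Module.finrank_pos
  have hρ' : (1 : ℝ) ≤ ρ := by exact_mod_cast hρ
  have hL' : (3 * ρ : ℝ) ≤ L := by exact_mod_cast hL
  have he : ∀ a b, ∀ σ : K →ₐ[ℚ] ℂ, σ ((L + u a - u b : 𝓞 K) : K) =
      L + σ ((u a - u b : 𝓞 K) : K) := fun a b σ => by simp [add_sub_assoc]
  have h1 : ∀ a b, (2 * ρ : ℝ) ^ d ≤ nrm ((L : 𝓞 K) + u a - u b) := fun a b =>
    le_nrm (by positivity) fun σ => by
      have := norm_sub_norm_le (L : ℂ) (-σ ((u a - u b : 𝓞 K) : K))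
      rw [sub_neg_eq_add, norm_neg, Complex.norm_natCast] at this
      rw [he]
      linarith [hb a b σ]
  have h2 : ∀ a b, nrm ((L : 𝓞 K) + u a - u b) ≤ (L + ρ : ℝ) ^ d := fun a b =>
    nrm_le fun σ => by
      have := norm_add_le (L : ℂ) (σ ((u a - u b : 𝓞 K) : K))
      rw [Complex.norm_natCast] at this
      rw [he]
      linarith [hb a b σ]
  have h3 : ∀ a b, (L : 𝓞 K) + u a - u b ≠ 0 := fun a b h0 => by
    have := h1 a b
    rw [h0, show (0 : 𝓞 K) = 0 * 0 by simp, nrm_mul] at this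
    have h4 : nrm (0 : 𝓞 K) ≤ 0 ^ d := nrm_le (by simp)
    rw [zero_pow hd0.ne'] at h4
    have : (0 : ℝ) < (2 * ρ) ^ d := by positivity
    nlinarith [nrm_nonneg (0 : 𝓞 K)]
  by_contra hc
  push Not at hc
  have h0 : δ ^ m * ∏ a, ∏ c ∈ Finset.univ.erase a, (u c - u a) ≠ 0 :=
    mul_ne_zero (pow_ne_zero _ hδ) (Finset.prod_ne_zero_iff.2 fun a _ =>
    Finset.prod_ne_zero_iff.2 fun c hc => sub_ne_zero.2 (hu.ne (Finset.ne_of_mem_erase hc)))
  have h4 := nrm_le_of_dvd h0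
    (cauchy_dvd u L δ fun a b => by_contra fun h => (hc a b (h3 a b) h).not_ge (h2 a b))
  change nrmHom _ ≤ nrmHom _ at h4
  simp only [map_mul, map_pow, map_prod] at h4
  have h5 : (((2 * ρ : ℝ) ^ d) ^ m) ^ m ≤ ∏ b, ∏ c, nrmHom ((L : 𝓞 K) + u c - u b) := by
    conv_lhs => rw [← Fintype.card_fin m, ← Finset.card_univ, ← Finset.prod_const,
      ← Finset.prod_const]
    exact Finset.prod_le_prod (fun _ _ => by positivity) fun b _ =>
      Finset.prod_le_prod (fun _ _ => by positivity) fun c _ => h1 c b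
  have h6 : ∏ a, ∏ c ∈ Finset.univ.erase a, nrmHom (u c - u a) ≤ (((ρ : ℝ) ^ d) ^ m) ^ m := by
    conv_rhs => rw [← Fintype.card_fin m, ← Finset.card_univ, ← Finset.prod_const]
    refine Finset.prod_le_prod (fun _ _ => Finset.prod_nonneg fun _ _ => nrm_nonneg _)
      fun a _ => ?_
    refine (Finset.prod_le_prod (g := fun _ => (ρ : ℝ) ^ d) (fun _ _ => nrm_nonneg _)
      fun c _ => nrm_le (hb c a)).trans ?_
    rw [Finset.prod_const]
    exact pow_le_pow_right₀ (one_le_pow₀ hρ') (Finset.card_erase_le)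
  have h7 : nrmHom δ ^ m < (2 ^ m) ^ m := pow_lt_pow_left₀ h (nrm_nonneg δ) hm.ne'
  have h8 : ((2 : ℝ) ^ m) ^ m ≤ ((2 ^ d) ^ m) ^ m := by
    gcongr
    exact le_self_pow₀ one_le_two hd0.ne'
  have h9 := (h5.trans h4).trans (mul_le_mul_of_nonneg_left h6 (pow_nonneg (nrm_nonneg δ) _))
  simp only [mul_pow] at h9
  have : (0 : ℝ) < (((ρ : ℝ) ^ d) ^ m) ^ m := by positivity
  nlinarith

/-- A nonzero integer is not divisible by some integer of logarithmically small norm, which can be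
taken congruent to `1` modulo `M`. -/
theorem exists_not_dvd (K : Type) [Field K] [NumberField K] (M : ℕ) (hM : 0 < M) :
    ∃ C : ℕ, ∀ δ : 𝓞 K, δ ≠ 0 → ∀ t : ℕ, 1 ≤ t → nrm δ < 2 ^ t →
      ∃ α β : 𝓞 K, α ≠ 0 ∧ ¬ α ∣ δ ∧ α = 1 + M * β ∧ nrm α ≤ C * t := by
  classical
  set d := Module.finrank ℚ K with hd
  have hd0 : 0 < d := Module.finrank_pos
  let ω := Module.finBasisOfFinrankEq ℤ (𝓞 K) (RingOfIntegers.rank K)
  obtain ⟨c, hc⟩ := exists_nat_ge (∑ σ : K →ₐ[ℚ] ℂ, ∑ i, ‖σ (ω i : K)‖)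
  have hc' : ∀ σ : K →ₐ[ℚ] ℂ, ∑ i, ‖σ (ω i : K)‖ ≤ (c + 1 : ℝ) := fun σ => by
    have := Finset.single_le_sum (f := fun σ : K →ₐ[ℚ] ℂ => ∑ i, ‖σ (ω i : K)‖)
      (fun _ _ => by positivity) (Finset.mem_univ σ)
    linarith
  refine ⟨(10 * M * (c + 1)) ^ d, fun δ hδ t ht h => ?_⟩
  obtain ⟨n, hn0, hn1, hn2⟩ : ∃ n : ℕ, 0 < n ∧ t ≤ n ^ d ∧ n ^ d ≤ 2 ^ d * t := by
    have hex : ∃ n : ℕ, t ≤ n ^ d := ⟨t, Nat.le_self_pow hd0.ne' t⟩
    have h1 := Nat.find_spec hex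
    have h2 : 0 < Nat.find hex := Nat.pos_of_ne_zero fun h0 => by
      rw [h0, zero_pow hd0.ne'] at h1; omega
    refine ⟨_, h2, h1, ?_⟩
    have h3 := not_le.1 (Nat.find_min hex (Nat.sub_one_lt h2.ne'))
    by_cases h4 : Nat.find hex = 1
    · rw [h4, one_pow]; exact Nat.mul_pos (by positivity) ht
    · refine le_trans ?_ (Nat.mul_le_mul_left _ h3.le)
      rw [← mul_pow]
      exact Nat.pow_le_pow_left (by omega) _
  let e : Fin (n ^ d) ≃ (Fin d → Fin n) := finFunctionFinEquiv.symm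
  let v : Fin (n ^ d) → 𝓞 K := fun a => ω.equivFun.symm fun i => ((e a i : ℕ) : ℤ)
  have hv : Function.Injective v := fun a b hab => by
    have := ω.equivFun.symm.injective hab
    exact e.injective (funext fun i => Fin.ext (by exact_mod_cast congrFun this i))
  have hM' : (M : 𝓞 K) ≠ 0 := Nat.cast_ne_zero.2 hM.ne'
  obtain ⟨a, b, h1, h2, h3⟩ := exists_not_dvd_aux (pow_pos hn0 d) (fun a => (M : 𝓞 K) * v a)
    (fun a b hab => hv (mul_left_cancel₀ hM' hab)) (M * n * (c + 1)) (1 + 3 * (M * n * (c + 1)))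
    (Nat.mul_pos (Nat.mul_pos hM hn0) (Nat.succ_pos c)) (by omega) (fun a b σ => by
      have h4 : σ ((M * v a - M * v b : 𝓞 K) : K) =
          M * ∑ i, (((e a i : ℕ) : ℂ) - (e b i : ℕ)) * σ (ω i : K) := by
        simp [v, ← mul_sub, sub_mul, Finset.sum_sub_distrib]
        exact Or.inl rfl
      rw [h4, norm_mul, Complex.norm_natCast]
      push_cast
      rw [mul_assoc]
      refine mul_le_mul_of_nonneg_left ((norm_sum_le _ _).trans ?_) (Nat.cast_nonneg _)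
      refine le_trans ?_ (mul_le_mul_of_nonneg_left (hc' σ) (Nat.cast_nonneg n))
      rw [Finset.mul_sum]
      refine Finset.sum_le_sum fun i _ => ?_
      rw [norm_mul]
      refine mul_le_mul_of_nonneg_right ?_ (norm_nonneg _)
      have h5 : ((e a i : ℕ) : ℝ) ≤ n := by exact_mod_cast (e a i).2.le
      have h6 : ((e b i : ℕ) : ℝ) ≤ n := by exact_mod_cast (e b i).2.le
      have h7 : (((e a i : ℕ) : ℂ) - (e b i : ℕ)) = ((((e a i : ℕ) : ℝ) - (e b i : ℕ) : ℝ) : ℂ) := by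
        push_cast; rfl
      rw [h7, Complex.norm_real, Real.norm_eq_abs, abs_le]
      constructor <;> linarith [Nat.cast_nonneg (α := ℝ) (e a i), Nat.cast_nonneg (α := ℝ) (e b i)])
    hδ (h.trans_le (pow_le_pow_right₀ one_le_two hn1))
  refine ⟨_, 3 * n * (c + 1) + v a - v b, h1, h2, by push_cast; ring, h3.trans ?_⟩
  have h4 : 1 + 3 * (M * n * (c + 1)) + M * n * (c + 1) ≤ 5 * M * (c + 1) * n := by
    have : 0 < M * n * (c + 1) := Nat.mul_pos (Nat.mul_pos hM hn0) (Nat.succ_pos c)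
    nlinarith
  have h5 : (1 + 3 * (M * n * (c + 1)) + M * n * (c + 1)) ^ d ≤ (10 * M * (c + 1)) ^ d * t := by
    refine (Nat.pow_le_pow_left h4 d).trans ?_
    rw [mul_pow, show 10 * M * (c + 1) = 5 * M * (c + 1) * 2 by ring, mul_pow _ 2, mul_assoc _ _ t]
    exact Nat.mul_le_mul_left _ hn2
  exact_mod_cast h5

end Pool.Agent.P.MP_5b4d81_al
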