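import Mathlib

set_option autoImplicit false

namespace Pool.Agent.P.MP_5b4d81_al

open Subgroup

universe u

variable {G : Type u} [Group G]

/-- all subgroups of `K` are finitely generated -/
def Noeth (K : Subgroup G) : Prop := ∀ H : Subgroup G, H ≤ K → H.FG

lemma normal_of_central {K L : Subgroup G} (hKL : K ≤ L)
    (h : ∀ g, ∀ x ∈ L, g * x * g⁻¹ * x⁻¹ ∈ K) : L.Normal :=
  ⟨fun x hx g => by simpa using L.mul_mem (hKL (h g x hx)) hx⟩

lemma mem_sup_zpowers {K : Subgroup G} [K.Normal] {t x : G} :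
    x ∈ K ⊔ zpowers t ↔ ∃ c : ℤ, (t ^ c)⁻¹ * x ∈ K := by
  constructor
  · intro hx
    rw [sup_comm, ← SetLike.mem_coe, Subgroup.mul_normal] at hx
    obtain ⟨_, ⟨c, rfl⟩, k, hk, rfl⟩ := hx
    exact ⟨c, by simpa using hk⟩
  · rintro ⟨c, hc⟩
    have := Subgroup.mul_mem _ (mem_sup_right (S := K) (zpow_mem_zpowers t c))
      (mem_sup_left (T := zpowers t) hc)
    simpa using this

lemma Noeth.step {K : Subgroup G} [K.Normal] (hK : Noeth K) (t : G) : Noeth (K ⊔ zpowers t) := by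
  intro H hH
  let π := QuotientGroup.mk' K
  have hπ : ∀ x c, (t ^ c)⁻¹ * x ∈ K ↔ π x = π t ^ (c : ℤ) := fun x c => by
    rw [← map_zpow, eq_comm]; exact QuotientGroup.eq.symm
  let D : AddSubgroup ℤ :=
    { carrier := {c | ∃ x ∈ H, π x = π t ^ c}
      zero_mem' := ⟨1, H.one_mem, by simp⟩
      add_mem' := by
        rintro a b ⟨x, hx, ha⟩ ⟨y, hy, hb⟩
        exact ⟨x * y, H.mul_mem hx hy, by rw [map_mul, ha, hb, zpow_add]⟩
      neg_mem' := by
        rintro a ⟨x, hx, ha⟩
        exact ⟨x⁻¹, H.inv_mem hx, by rw [map_inv, ha, zpow_neg]⟩ }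
  obtain ⟨d, hd⟩ := Int.subgroup_cyclic D
  have hdD : d ∈ D := by rw [hd]; exact AddSubgroup.subset_closure rfl
  obtain ⟨x₀, hx₀, hx₀d⟩ := hdD
  have h1 : (H ⊓ K).FG := hK _ inf_le_right
  have h2 : H = (H ⊓ K) ⊔ zpowers x₀ := by
    refine le_antisymm (fun x hx => ?_) (sup_le inf_le_left (by simpa using hx₀))
    obtain ⟨c, hc⟩ := mem_sup_zpowers.1 (hH hx)
    have hcD : c ∈ D := ⟨x, hx, (hπ x c).1 hc⟩
    rw [hd, AddSubgroup.mem_closure_singleton] at hcD
    obtain ⟨a, rfl⟩ := hcD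
    have h3 : (x₀ ^ a)⁻¹ * x ∈ H ⊓ K := by
      refine ⟨H.mul_mem (H.inv_mem (H.zpow_mem hx₀ a)) hx, ?_⟩
      refine QuotientGroup.eq.1 ?_
      change π (x₀ ^ a) = π x
      rw [map_zpow, hx₀d, (hπ x _).1 hc, ← zpow_mul, smul_eq_mul, mul_comm]
    have := Subgroup.mul_mem _ (mem_sup_right (S := H ⊓ K) (zpow_mem_zpowers x₀ a))
      (mem_sup_left (T := zpowers x₀) h3)
    simpa using this
  rw [h2]
  refine h1.sup ?_
  exact ⟨{x₀}, by simp [zpowers_eq_closure]⟩

lemma Noeth.steps {K : Subgroup G} (hK : Noeth K) (T : Finset G) (hn : K.Normal)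
    (hT : ∀ g, ∀ t ∈ T, g * t * g⁻¹ * t⁻¹ ∈ K) : Noeth (K ⊔ closure (T : Set G)) := by
  classical
  induction T using Finset.induction_on generalizing K with
  | empty => simpa using hK
  | insert t T ht ih =>
    have h1 : (K ⊔ zpowers t).Normal := by
      refine ⟨fun x hx g => ?_⟩
      obtain ⟨c, hc⟩ := mem_sup_zpowers.1 hx
      refine mem_sup_zpowers.2 ⟨c, ?_⟩
      have h2 : (QuotientGroup.mk' K g) * (QuotientGroup.mk' K t) =
          (QuotientGroup.mk' K t) * (QuotientGroup.mk' K g) := by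
        have := (QuotientGroup.eq_one_iff _).2 (hT g t (Finset.mem_insert_self _ _))
        rw [← mul_inv_eq_one, mul_inv_rev, ← mul_assoc]
        simpa using this
      have h3 : QuotientGroup.mk' K x = QuotientGroup.mk' K t ^ c := by
        rw [← map_zpow]; exact (QuotientGroup.eq.2 hc).symm
      refine QuotientGroup.eq.1 ?_
      change QuotientGroup.mk' K (t ^ c) = QuotientGroup.mk' K (g * x * g⁻¹)
      rw [map_mul, map_mul, map_inv, h3, map_zpow, (Commute.zpow_right h2 c).eq]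
      simp
    have := ih (hK.step t) h1 fun g s hs => mem_sup_left (hT g s (Finset.mem_insert_of_mem hs))
    rwa [sup_assoc, zpowers_eq_closure, ← Subgroup.closure_union, Set.singleton_union,
      ← Finset.coe_insert] at this

lemma lcs_comm (j : ℕ) (g x : G) (hx : x ∈ (⊤ : Subgroup G).lowerCentralSeries j) :
    g * x * g⁻¹ * x⁻¹ ∈ (⊤ : Subgroup G).lowerCentralSeries (j + 1) := by
  have : (x * g * x⁻¹ * g⁻¹)⁻¹ ∈ (⊤ : Subgroup G).lowerCentralSeries (j + 1) :=
    Subgroup.inv_mem _ (Subgroup.commutator_mem_commutator hx (mem_top g))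
  rwa [show (x * g * x⁻¹ * g⁻¹)⁻¹ = g * x * g⁻¹ * x⁻¹ by group] at this

lemma lcs_gen (S : Finset G) (hS : closure (S : Set G) = ⊤) (j : ℕ) :
    ∃ T : Finset G, (∀ t ∈ T, t ∈ (⊤ : Subgroup G).lowerCentralSeries j) ∧
      (⊤ : Subgroup G).lowerCentralSeries j ≤
        (⊤ : Subgroup G).lowerCentralSeries (j + 1) ⊔ closure (T : Set G) := by
  classical
  induction j with
  | zero => exact ⟨S, by simp, by simp [hS]⟩
  | succ j ih =>
    obtain ⟨T, hT, hle⟩ := ih
    refine ⟨Finset.image₂ (fun s t => s * t * s⁻¹ * t⁻¹) S T, ?_, ?_⟩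
    · intro x hx
      obtain ⟨s, -, t, ht, rfl⟩ := Finset.mem_image₂.1 hx
      exact lcs_comm j s t (hT t ht)
    · set L := (⊤ : Subgroup G).lowerCentralSeries (j + 1 + 1) ⊔
        closure ((Finset.image₂ (fun s t => s * t * s⁻¹ * t⁻¹) S T : Finset G) : Set G) with hL
      have hLle : L ≤ (⊤ : Subgroup G).lowerCentralSeries (j + 1) := by
        refine sup_le (Subgroup.lowerCentralSeries_antitone _ (Nat.le_succ _)) ((closure_le _).2 ?_)
        intro x hx
        obtain ⟨s, -, t, ht, rfl⟩ := Finset.mem_image₂.1 hx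
        exact lcs_comm j s t (hT t ht)
      have hLn : L.Normal := normal_of_central le_sup_left fun g x hx => lcs_comm _ g x (hLle hx)
      let π := QuotientGroup.mk' L
      have hπ : ∀ g x, g * x * g⁻¹ * x⁻¹ ∈ L ↔ Commute (π g) (π x) := fun g x => by
        rw [← QuotientGroup.eq_one_iff, commute_iff_eq, ← mul_inv_eq_one (a := π g * π x),
          mul_inv_rev, ← mul_assoc]
        simp [π]
      have h1 : ∀ s ∈ S, ∀ x ∈ (⊤ : Subgroup G).lowerCentralSeries j, Commute (π s) (π x) := by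
        intro s hs x hx
        have : (⊤ : Subgroup G).lowerCentralSeries (j + 1) ⊔ closure (T : Set G) ≤
            (centralizer {π s}).comap π := by
          refine sup_le (fun y hy => ?_) ((closure_le _).2 fun y hy => ?_)
          · simpa [mem_centralizer_iff] using ((hπ s y).1 (mem_sup_left (lcs_comm _ s y hy))).eq
          · have : s * y * s⁻¹ * y⁻¹ ∈ L :=
              mem_sup_right (subset_closure (Finset.mem_image₂.2 ⟨s, hs, y, hy, rfl⟩))
            simpa [mem_centralizer_iff] using ((hπ s y).1 this).eq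
        simpa [mem_centralizer_iff, commute_iff_eq] using this (hle hx)
      rw [Subgroup.lowerCentralSeries_succ, commutator_le]
      intro x hx g _
      have : closure (S : Set G) ≤ (centralizer {π x}).comap π :=
        (closure_le _).2 fun s hs => by simpa [mem_centralizer_iff] using (h1 s hs x hx).eq.symm
      have h2 : Commute (π x) (π g) := by
        simpa [mem_centralizer_iff, commute_iff_eq] using this (hS ▸ mem_top g)
      exact (hπ x g).2 h2

theorem noeth_top [Group.IsNilpotent G] [hG : Group.FG G] : Noeth (⊤ : Subgroup G) := by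
  obtain ⟨S, hS⟩ := hG.out
  obtain ⟨c, hc⟩ := Subgroup.nilpotent_iff_lowerCentralSeries.1 (inferInstance : Group.IsNilpotent G)
  have : ∀ i j, i + j = c → Noeth ((⊤ : Subgroup G).lowerCentralSeries j) := by
    intro i
    induction i with
    | zero =>
      intro j hj H hH
      rw [zero_add] at hj
      rw [hj, hc, le_bot_iff] at hH
      rw [hH]; exact ⟨∅, by simp⟩
    | succ i ih =>
      intro j hj H hH
      obtain ⟨T, hT, hle⟩ := lcs_gen S hS j
      exact (ih (j + 1) (by omega)).steps T inferInstance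
        (fun g t ht => lcs_comm j g t (hT t ht)) H (hH.trans hle)
  exact this c 0 rfl

theorem wf_subgroup [Group.IsNilpotent G] [Group.FG G] : WellFoundedGT (Subgroup G) := by
  rw [wellFoundedGT_iff_monotone_chain_condition]
  intro a
  obtain ⟨T, hT⟩ := noeth_top (G := G) (⨆ n, a n) le_top
  have hd : Directed (· ≤ ·) a := a.monotone.directed_le
  have : ∀ t ∈ T, ∃ n, t ∈ a n := fun t ht =>
    (mem_iSup_of_directed hd).1 (hT ▸ subset_closure ht)
  choose! f hf using this
  refine ⟨T.sup f, fun m hm => le_antisymm (a.monotone hm) ?_⟩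
  refine (le_iSup a m).trans ?_
  rw [← hT, closure_le]
  exact fun t ht => a.monotone (Finset.le_sup ht) (hf t ht)

lemma central_of_pow [Group.IsNilpotent G] (htf : ∀ (g : G) (n : ℕ), 0 < n → g ^ n = 1 → g = 1)
    {y : G} {n : ℕ} (hn : 0 < n) (hy : y ^ n ∈ center G) : y ∈ center G := by
  obtain ⟨c, hc⟩ := Group.IsNilpotent.nilpotent G
  have : ∀ j, ∀ x ∈ Subgroup.upperCentralSeries G j, x * y = y * x := by
    intro j
    induction j with
    | zero => intro x hx; rw [Subgroup.upperCentralSeries_zero, mem_bot] at hx; simp [hx]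
    | succ j ih =>
      intro x hx
      have h1 : Commute (x * y * x⁻¹ * y⁻¹) y := ih _ (Subgroup.mem_upperCentralSeries_succ_iff.1 hx y)
      have h2 : (x * y * x⁻¹ * y⁻¹) ^ n = 1 := by
        have h3 := h1.mul_pow n
        rw [inv_mul_cancel_right, conj_pow, mem_center_iff.1 hy x, mul_inv_cancel_right] at h3
        exact (mul_eq_right.1 h3.symm)
      have := htf _ n hn h2
      rw [← mul_inv_eq_one, mul_inv_rev, ← mul_assoc, this]
  exact mem_center_iff.2 fun x => this c x (hc ▸ mem_top x)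

lemma exists_primitive_central [Group.IsNilpotent G] [Group.FG G] [Nontrivial G]
    (htf : ∀ (g : G) (n : ℕ), 0 < n → g ^ n = 1 → g = 1) :
    ∃ z ∈ center G, z ≠ 1 ∧ ∀ (y : G) (n : ℕ), 0 < n → y ^ n ∈ zpowers z → y ∈ zpowers z := by
  have := wf_subgroup (G := G)
  obtain ⟨_, ⟨z, hz, hz1, rfl⟩, hmax⟩ := WellFounded.has_min (wellFounded_gt (α := Subgroup G))
    {K | ∃ z ∈ center G, z ≠ 1 ∧ zpowers z = K} (by
      obtain ⟨⟨z, hz⟩, h1⟩ := ne_bot_iff_exists_ne_one.1 (Group.IsNilpotent.center_ne_bot G)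
      exact ⟨_, z, hz, fun h => h1 (Subtype.ext h), rfl⟩)
  refine ⟨z, hz, hz1, fun y n hn hy => ?_⟩
  obtain ⟨m, hm⟩ := mem_zpowers_iff.1 hy
  have hyc : y ∈ center G := central_of_pow htf hn (hm ▸ zpow_mem hz m)
  have hc : Commute y z := (mem_center_iff.1 hz y)
  obtain ⟨g, n', m', hg, hcop, hn', hm'⟩ := Int.exists_gcd_one' (m := n) (n := m)
    (Int.gcd_pos_of_ne_zero_left _ (by exact_mod_cast hn.ne'))
  have h1 : y ^ n' = z ^ m' := by
    have : (y ^ n' * (z ^ m')⁻¹) ^ g = 1 := by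
      rw [((hc.zpow_zpow n' m').inv_right).mul_pow, inv_pow, ← zpow_natCast, ← zpow_natCast,
        ← zpow_mul, ← zpow_mul, ← hn', ← hm', hm, zpow_natCast, mul_inv_cancel]
    exact mul_inv_eq_one.1 (htf _ g hg this)
  obtain ⟨a, b, hab⟩ := Int.isCoprime_iff_gcd_eq_one.2 hcop
  set w := y ^ b * z ^ a with hw
  have h2 : w ^ n' = z := by
    rw [hw, (hc.zpow_zpow b a).mul_zpow, ← zpow_mul, ← zpow_mul, mul_comm b, zpow_mul, h1,
      ← zpow_mul, ← zpow_add, show m' * b + a * n' = 1 by linarith, zpow_one]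
  have h3 : w ^ m' = y := by
    rw [hw, (hc.zpow_zpow b a).mul_zpow, ← zpow_mul, ← zpow_mul, mul_comm a, zpow_mul z, ← h1,
      ← zpow_mul, ← zpow_add, show b * m' + n' * a = 1 by linarith, zpow_one]
  have h4 : zpowers z ≤ zpowers w := by
    rw [zpowers_le]; exact ⟨n', h2⟩
  have h5 : zpowers z = zpowers w := by
    by_contra hne
    refine hmax (zpowers w) ⟨w, mul_mem (zpow_mem hyc b) (zpow_mem hz a), ?_, rfl⟩
      (lt_of_le_of_ne h4 hne)
    rintro h
    rw [h, one_zpow] at h2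
    exact hz1 h2.symm
  rw [h5]; exact ⟨m', h3⟩

/-- A central series with infinite cyclic factors from `G` down to `M`. -/
structure Series (M : Subgroup G) where
  h : ℕ
  Γ : ℕ → Subgroup G
  u : ℕ → G
  top : Γ 0 = ⊤
  bot : Γ h = M
  le : ∀ i < h, Γ (i + 1) ≤ Γ i
  mem : ∀ i < h, u i ∈ Γ i
  ex : ∀ i < h, ∀ x ∈ Γ i, ∃ c : ℤ, (u i ^ c)⁻¹ * x ∈ Γ (i + 1)
  free : ∀ i < h, ∀ c : ℤ, u i ^ c ∈ Γ (i + 1) → c = 0
  central : ∀ i < h, ∀ g, ∀ x ∈ Γ i, g * x * g⁻¹ * x⁻¹ ∈ Γ (i + 1)

theorem exists_series [Group.IsNilpotent G] [Group.FG G] (M : Subgroup G) :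
    M.Normal → (∀ (g : G) (n : ℕ), 0 < n → g ^ n ∈ M → g ∈ M) → Nonempty (Series M) := by
  have := wf_subgroup (G := G)
  induction M using WellFoundedGT.induction with
  | ind M ih =>
  intro hn hM
  by_cases htop : M = ⊤
  · exact ⟨⟨0, fun _ => ⊤, fun _ => 1, rfl, htop.symm, by simp, by simp, by simp, by simp, by simp⟩⟩
  have : Nontrivial (G ⧸ M) := QuotientGroup.nontrivial_iff.2 htop
  let π := QuotientGroup.mk' M
  have hπ : ∀ x, π x = 1 ↔ x ∈ M := fun x => QuotientGroup.eq_one_iff x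
  have htf : ∀ (g : G ⧸ M) (n : ℕ), 0 < n → g ^ n = 1 → g = 1 := by
    intro g n hn hg
    obtain ⟨g, rfl⟩ := QuotientGroup.mk'_surjective M g
    rw [← map_pow] at hg
    exact (hπ g).2 (hM g n hn ((hπ _).1 hg))
  obtain ⟨z, hz, hz1, hprim⟩ := exists_primitive_central htf
  obtain ⟨z, rfl⟩ := QuotientGroup.mk'_surjective M z
  have hmem : ∀ x, x ∈ M ⊔ zpowers z ↔ π x ∈ zpowers (π z) := fun x => by
    rw [mem_sup_zpowers, mem_zpowers_iff]
    refine exists_congr fun c => ?_
    rw [← map_zpow]; exact QuotientGroup.eq.symm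
  have hcen : ∀ g, ∀ x ∈ M ⊔ zpowers z, g * x * g⁻¹ * x⁻¹ ∈ M := by
    intro g x hx
    obtain ⟨c, hc⟩ := mem_zpowers_iff.1 ((hmem x).1 hx)
    rw [← hπ, map_mul, map_mul, map_mul, map_inv, map_inv, ← hc,
      mem_center_iff.1 (zpow_mem hz c) (π g), mul_inv_cancel_right, mul_inv_cancel]
  obtain ⟨s⟩ := ih (M ⊔ zpowers z) (lt_of_le_of_ne le_sup_left fun h =>
      hz1 ((hπ z).2 (h ▸ mem_sup_right (mem_zpowers z)))) (normal_of_central le_sup_left hcen)
    (fun g n hn hg => (hmem g).2 (hprim _ n hn (by rw [← map_pow]; exact (hmem _).1 hg)))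
  refine ⟨⟨s.h + 1, fun i => if i ≤ s.h then s.Γ i else M, fun i => if i < s.h then s.u i else z,
    by simp [s.top], by simp, ?_, ?_, ?_, ?_, ?_⟩⟩
  all_goals
    intro i hi
    rcases Nat.lt_succ_iff_lt_or_eq.1 hi with h | rfl
  · simpa [h.le, Nat.succ_le_of_lt h] using s.le i h
  · simp [s.bot]
  · simpa [h.le, h] using s.mem i h
  · simpa [s.bot] using mem_sup_right (mem_zpowers z)
  · simpa [h.le, h, Nat.succ_le_of_lt h] using s.ex i h
  · simpa [s.bot] using fun x hx => mem_sup_zpowers.1 hx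
  · simpa [h.le, h, Nat.succ_le_of_lt h] using s.free i h
  · simp only [lt_irrefl, if_false, Nat.add_one_le_iff]
    intro c hc
    by_contra h0
    refine hz1 (htf _ c.natAbs (Int.natAbs_pos.2 h0) ?_)
    have := (hπ _).2 hc
    rw [map_zpow] at this
    exact pow_natAbs_eq_one.2 this
  · simpa [h.le, h, Nat.succ_le_of_lt h] using s.central i h
  · simpa [s.bot] using hcen

end Pool.Agent.P.MP_5b4d81_al
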