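import Pool.Agent.P.MP_5b4d81_al.Ultra
import Pool.Agent.P.MP_5b4d81_al.NT

set_option autoImplicit false

namespace Pool.Agent.P.MP_5b4d81_al

open MvPolynomial NumberField

universe u

variable {G : Type u} [Group G] {h : ℕ} {co : G → Fin h → ℤ} {H : Subgroup G} {k : ℕ}

lemma hom_eval {σ R R' : Type} [CommRing R] [CommRing R'] (f : R →+* R') (a : σ → R)
    (P : MvPolynomial σ R) : f (eval a P) = eval (fun i => f (a i)) (map f P) :=
  map_eval f a P

lemma ev_map {R R' : Type} [CommRing R] [CommRing R'] (f : R →+* R')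
    (ρ : Fin h → MvPolynomial (Fin h) R) (a : Fin h → ℤ) :
    ev (fun i => map f (ρ i)) a = fun i => f (ev ρ a i) := by
  funext i
  simp [ev, hom_eval]

lemma elim_map {α R R' : Type} (f : R → R') (a b : α → R) :
    (fun i => f (Sum.elim a b i)) = Sum.elim (fun i => f (a i)) fun i => f (b i) := by
  funext i; cases i <;> rfl

lemma eval_bind' {σ τ R : Type} [CommRing R] (a : τ → R) (Q : σ → MvPolynomial τ R)
    (P : MvPolynomial σ R) : eval a (bind₁ Q P) = eval (fun i => eval a (Q i)) P := by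
  rw [← coe_aeval_eq_eval, ← coe_aeval_eq_eval]
  simp only [RingHom.coe_coe, aeval_bind₁]

namespace Datum

variable {R R' : Type} [CommRing R] [CommRing R']

noncomputable def map (d : Datum co H k R) (f : R →+* R') : Datum co H k R' where
  T := d.T
  hT := d.hT
  ρ := fun i => MvPolynomial.map f (d.ρ i)
  μ := fun i => MvPolynomial.map f (d.μ i)
  g := MvPolynomial.map f d.g
  c := d.c
  c_ne := d.c_ne
  zero := fun a t ht => by simp only [ev_map, d.zero a t ht, map_zero]
  mul := fun a b i => by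
    simp only [ev_map]
    rw [← elim_map, ← hom_eval, ← d.mul, map_mul, map_intCast]
  sep := fun η hη => by rw [ev_map, ← hom_eval, d.sep η hη, map_zero]

lemma val_map (d : Datum co H k R) (f : R →+* R') (x : G) : (d.map f).val x = f (d.val x) := by
  simp only [val, map, ev_map, ← hom_eval]

lemma lift (d : Datum co H k R') (f : R →+* R') (hf : Function.Injective f)
    (h1 : ∀ i, d.ρ i ∈ Set.range (MvPolynomial.map f))
    (h2 : ∀ i, d.μ i ∈ Set.range (MvPolynomial.map f))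
    (h3 : d.g ∈ Set.range (MvPolynomial.map f)) :
    ∃ d' : Datum co H k R, ∀ x, f (d'.val x) = d.val x := by
  choose ρ hρ using h1
  choose μ hμ using h2
  obtain ⟨g, hg⟩ := h3
  have he : ∀ a, (fun i => f (ev ρ a i)) = ev d.ρ a := fun a => by rw [← ev_map, funext hρ]
  refine ⟨⟨d.T, d.hT, ρ, μ, g, d.c, d.c_ne, fun a t ht => hf ?_, fun a b i => hf ?_,
    fun η hη => hf ?_⟩, fun x => ?_⟩
  · rw [congrFun (he _) t, d.zero a t ht, map_zero]
  · rw [map_mul, map_intCast, congrFun (he _) i, d.mul, hom_eval, hμ, elim_map, he, he]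
  · rw [hom_eval, he, hg, d.sep η hη, map_zero]
  · simp only [val]
    rw [hom_eval, he, hg]

lemma to_numberField {F : Type} [Field F] [CharZero F] (d : Datum co H k F) {x : G}
    (hx : d.val x ≠ 0) : ∃ (K : Type) (_ : Field K) (_ : NumberField K) (d' : Datum co H k K),
      d'.val x ≠ 0 := by
  classical
  let S : Finset F := insert (d.val x)⁻¹ ((Finset.univ.biUnion fun i => (d.ρ i).coeffs) ∪
    (Finset.univ.biUnion fun i => (d.μ i).coeffs) ∪ d.g.coeffs)
  let A := Algebra.adjoin ℚ (S : Set F)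
  have hA : Algebra.FiniteType ℚ A :=
    (Subalgebra.fg_iff_finiteType _).1 (Subalgebra.fg_adjoin_finset S)
  have hS : ∀ y ∈ S, y ∈ Set.range A.val.toRingHom := fun y hy =>
    ⟨⟨y, Algebra.subset_adjoin hy⟩, rfl⟩
  obtain ⟨d', hd'⟩ := d.lift A.val.toRingHom Subtype.val_injective
    (fun i => mem_range_map_iff_coeffs_subset.2 fun y hy => hS y (by
      simp only [S, Finset.mem_insert, Finset.mem_union, Finset.mem_biUnion]
      exact Or.inr (Or.inl (Or.inl ⟨i, Finset.mem_univ _, hy⟩))))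
    (fun i => mem_range_map_iff_coeffs_subset.2 fun y hy => hS y (by
      simp only [S, Finset.mem_insert, Finset.mem_union, Finset.mem_biUnion]
      exact Or.inr (Or.inl (Or.inr ⟨i, Finset.mem_univ _, hy⟩))))
    (mem_range_map_iff_coeffs_subset.2 fun y hy => hS y (by
      simp only [S, Finset.mem_insert, Finset.mem_union]
      exact Or.inr (Or.inr hy)))
  obtain ⟨m, hm⟩ := Ideal.exists_maximal A
  let := Ideal.Quotient.field m
  have := finite_of_finite_type_of_isJacobsonRing ℚ (A ⧸ m)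
  refine ⟨A ⧸ m, inferInstance, NumberField.of_module_finite ℚ _, d'.map (Ideal.Quotient.mk m), ?_⟩
  obtain ⟨y, hy⟩ := hS _ (Finset.mem_insert_self _ _)
  have h1 : d'.val x * y = 1 := Subtype.val_injective (by
    change A.val.toRingHom (d'.val x * y) = 1
    rw [map_mul, hd', hy, mul_inv_cancel₀ hx])
  rw [val_map]
  exact left_ne_zero_of_mul_eq_one (by rw [← map_mul, h1, map_one])

lemma clear {σ K : Type} [Field K] [NumberField K] (P : MvPolynomial σ K) :
    ∃ (c : ℤ) (P₀ : MvPolynomial σ (𝓞 K)), c ≠ 0 ∧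
      MvPolynomial.map (algebraMap (𝓞 K) K) P₀ = C (c : K) * P := by
  induction P using MvPolynomial.induction_on with
  | C a =>
    obtain ⟨m, s, hm, hs⟩ := IsAlgebraic.exists_nsmul_eq (𝓞 K)
      ((IsFractionRing.isAlgebraic_iff ℤ ℚ K).2 (Algebra.IsAlgebraic.isAlgebraic a))
    exact ⟨m, C s, by exact_mod_cast hm, by rw [map_C, ← hs, ← map_mul]; simp⟩
  | add P Q hP hQ =>
    obtain ⟨c, P', hc, hP'⟩ := hP
    obtain ⟨e, Q', he, hQ'⟩ := hQ
    refine ⟨c * e, e * P' + c * Q', mul_ne_zero hc he, ?_⟩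
    simp only [map_add, map_mul, hP', hQ', map_intCast, Int.cast_mul]
    ring
  | mul_X P i hP =>
    obtain ⟨c, P', hc, hP'⟩ := hP
    exact ⟨c, P' * X i, hc, by simp [hP', mul_assoc]⟩

lemma to_integers {K : Type} [Field K] [NumberField K] (d : Datum co H k K) {x : G}
    (hx : d.val x ≠ 0) : ∃ d' : Datum co H k (𝓞 K), d'.val x ≠ 0 := by
  choose a ρ ha hρ using fun i => clear (d.ρ i)
  choose b μ hb hμ using fun i => clear (C (a i : K) * bind₁ (Sum.elim
    (fun j => C (a j : K)⁻¹ * X (Sum.inl j)) fun j => C (a j : K)⁻¹ * X (Sum.inr j)) (d.μ i) :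
    MvPolynomial (Fin h ⊕ Fin h) K)
  obtain ⟨e, g, he, hg⟩ := clear (bind₁ (fun j => C (a j : K)⁻¹ * X j) d.g)
  set f := algebraMap (𝓞 K) K with hf
  have hinj : Function.Injective f := RingOfIntegers.coe_injective
  have ha' : ∀ i, (a i : K) ≠ 0 := fun i => Int.cast_ne_zero.2 (ha i)
  have h1 : ∀ v i, f (ev ρ v i) = a i * ev d.ρ v i := fun v i => by
    rw [← congrFun (ev_map f ρ v) i, ev, hρ, map_mul, eval_C, ev]
  have h2 : ∀ v, f (eval (ev ρ v) g) = e * eval (ev d.ρ v) d.g := fun v => by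
    rw [hom_eval, hg, map_mul, eval_C, eval_bind']
    simp [h1, ha']
  refine ⟨⟨d.T, d.hT, ρ, μ, g, fun i => b i * d.c i, fun i => mul_ne_zero (hb i) (d.c_ne i),
    fun v t ht => hinj ?_, fun v w i => hinj ?_, fun η hη => hinj ?_⟩, fun h0 => ?_⟩
  · rw [h1, d.zero v t ht, mul_zero, map_zero]
  · rw [hom_eval, hμ, map_mul, map_mul, map_mul, eval_C, eval_C, eval_bind', h1, map_intCast,
      Int.cast_mul, mul_assoc, mul_left_comm (d.c i : K), d.mul]
    congr 4
    funext o
    rcases o with j | j <;> simp [h1, ha']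
  · rw [h2, d.sep η hη, mul_zero, map_zero]
  · have := h2 (co x)
    rw [show eval (ev ρ (co x)) g = 0 from h0, map_zero] at this
    exact mul_ne_zero (Int.cast_ne_zero.2 he) hx this.symm

end Datum

/-- `x` is separated from `H` in a finite quotient of order at most `m`. -/
def SepLe (H : Subgroup G) (x : G) (m : ℕ) : Prop :=
  ∃ (Q : Type u) (_ : Group Q) (_ : Finite Q) (φ : G →* Q),
    Function.Surjective φ ∧ φ x ∉ H.map φ ∧ Nat.card Q ≤ m

lemma SepLe.mono {x : G} {m m' : ℕ} (hx : SepLe H x m) (hm : m ≤ m') : SepLe H x m' :=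
  let ⟨Q, i1, i2, φ, h1, h2, h3⟩ := hx
  ⟨Q, i1, i2, φ, h1, h2, h3.trans hm⟩

lemma Datum.sepLe {R : Type} [CommRing R] [Finite R] (d : Datum co H k R)
    (hc : ∀ i, IsUnit (d.c i : R)) {x : G} (hx : d.val x ≠ 0) : SepLe H x (Nat.card R ^ k) := by
  classical
  let c : Con G :=
    { r := fun a b => ev d.ρ (co a) = ev d.ρ (co b)
      iseqv := ⟨fun _ => rfl, Eq.symm, Eq.trans⟩
      mul' := fun {a a' b b'} h1 h2 => funext fun i => (hc i).mul_left_cancel (by
        rw [d.mul, d.mul, h1, h2]) }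
  let j : c.Quotient → {i // i ∉ d.T} → R := fun q => Con.liftOn q (fun a i => ev d.ρ (co a) i)
    fun a b (hab : ev d.ρ (co a) = ev d.ρ (co b)) => by rw [hab]
  have hj : Function.Injective j := fun q q' => Con.induction_on₂ q q' fun a b hab =>
    c.eq.2 (funext fun i => by
      by_cases hi : i ∈ d.T
      · rw [d.zero a i hi, d.zero b i hi]
      · exact congrFun hab ⟨i, hi⟩)
  refine ⟨c.Quotient, inferInstance, Finite.of_injective j hj, c.mk', Con.mk'_surjective, ?_, ?_⟩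
  · rintro ⟨η, hη, h1⟩
    have h2 : ev d.ρ (co η) = ev d.ρ (co x) := c.eq.1 h1
    exact hx (by rw [Datum.val, ← h2, d.sep η hη])
  · refine (Nat.card_le_card_of_injective j hj).trans ?_
    have : Nonempty R := ⟨0⟩
    rw [Nat.card_fun, Nat.card_eq_fintype_card (α := {i // i ∉ d.T}), Fintype.card_subtype_compl,
      Fintype.card_fin, Fintype.card_coe]
    exact Nat.pow_le_pow_right Nat.card_pos (by have := d.hT; omega)

/-- polynomials whose nonvanishing certifies separation in a small quotient -/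
def Good (M : Model G) (H : Subgroup G) (k : ℕ) (S : Finset G) (P : MvPolynomial (Fin M.h) ℂ) :
    Prop :=
  ∃ C : ℕ, ∀ n x, InBall S n x → eval (fun i => (M.co x i : ℂ)) P ≠ 0 → ∀ t : ℕ, 1 ≤ t →
    n + 2 ≤ 2 ^ t → SepLe H x ((C * t) ^ k)

lemma exists_good (M : Model G) (S : Finset G) {x : G}
    (hx : {p | p.Prime ∧ SepP H k p x}.Infinite) :
    ∃ P, Good M H k S P ∧ eval (fun i => (M.co x i : ℂ)) P ≠ 0 := by
  obtain ⟨F, _, _, d, hd⟩ := datum_of_sep M hx
  obtain ⟨K, _, _, d, hd⟩ := d.to_numberField hd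
  obtain ⟨d, hd⟩ := d.to_integers hd
  let P := bind₁ d.ρ d.g
  have hP : ∀ y, d.val y = eval (fun i => (M.co y i : 𝓞 K)) P := fun y => (eval_bind' _ _ _).symm
  let f : (K →ₐ[ℚ] ℂ) → 𝓞 K →+* ℂ := fun σ => σ.toRingHom.comp (algebraMap _ _)
  let σ₀ : K →ₐ[ℚ] ℂ := IsAlgClosed.lift
  have h0 : ∀ y, eval (fun i => (M.co y i : ℂ)) (map (f σ₀) P) ≠ 0 ↔ d.val y ≠ 0 := fun y => by
    have := hom_eval (f σ₀) (fun i => (M.co y i : 𝓞 K)) P
    simp only [map_intCast] at this
    rw [← this, ← hP]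
    have hi : Function.Injective (f σ₀) :=
      σ₀.toRingHom.injective.comp (RingOfIntegers.coe_injective (K := K))
    exact map_ne_zero_iff _ hi
  refine ⟨map (f σ₀) P, ?_, (h0 x).2 hd⟩
  obtain ⟨C1, hC1⟩ := M.growth S
  choose C2 hC2 using fun σ => norm_eval_le (f σ) P
  obtain ⟨C0, hC0⟩ := exists_not_dvd K (∏ i, d.c i).natAbs
    (Int.natAbs_pos.2 (Finset.prod_ne_zero_iff.2 fun i _ => d.c_ne i))
  set E := (C1 + 1) * (∑ σ, C2 σ) * Module.finrank ℚ K with hE
  refine ⟨C0 * (E + 1), fun n y hy h1 t ht hn => ?_⟩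
  rw [h0] at h1
  have hn' : (n + 2 : ℝ) ≤ 2 ^ t := by exact_mod_cast hn
  have hn2 : (2 : ℝ) ≤ n + 2 := by linarith [Nat.cast_nonneg (α := ℝ) n]
  have h2 : nrm (d.val y) < 2 ^ ((E + 1) * t) := by
    have hB : (2 : ℝ) ≤ (n + 2) ^ (C1 + 1) := hn2.trans (le_self_pow₀ (by linarith) (by omega))
    refine (nrm_le (B := ((n + 2) ^ (C1 + 1)) ^ ∑ σ, C2 σ) fun σ => ?_).trans_lt ?_
    · rw [hP]
      refine (hC2 σ _ _ hB fun i => ?_).trans (pow_le_pow_right₀ (by linarith)
        (Finset.single_le_sum (fun _ _ => Nat.zero_le _) (Finset.mem_univ σ)))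
      have := hC1 n y hy i
      rw [map_intCast, Complex.norm_intCast]
      push_cast at this
      exact this.trans (pow_le_pow_right₀ (by linarith) (Nat.le_succ _))
    · rw [← pow_mul, ← pow_mul, ← mul_assoc, ← hE]
      refine (pow_le_pow_left₀ (by linarith) hn' E).trans_lt ?_
      rw [← pow_mul]
      exact pow_lt_pow_right₀ one_lt_two (by nlinarith)
  obtain ⟨α, β, h3, h4, h5, h6⟩ := hC0 _ h1 _ (Nat.mul_pos (Nat.succ_pos E) ht) h2
  have := finite_quot h3
  have h7 : IsUnit (((∏ i, d.c i).natAbs : ℕ) : 𝓞 K ⧸ Ideal.span {α}) := by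
    have h8 : Ideal.Quotient.mk (Ideal.span {α}) α = 0 :=
      Ideal.Quotient.eq_zero_iff_mem.2 (Ideal.mem_span_singleton_self α)
    have h9 := congrArg (Ideal.Quotient.mk (Ideal.span {α})) h5
    rw [h8, map_add, map_one, map_mul, map_natCast] at h9
    exact IsUnit.of_mul_eq_one (-Ideal.Quotient.mk _ β) (by linear_combination h9)
  refine ((d.map (Ideal.Quotient.mk (Ideal.span {α}))).sepLe (fun i => ?_) ?_).mono
    (Nat.pow_le_pow_left ?_ k)
  · refine isUnit_of_dvd_unit ?_ h7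
    rw [← Int.cast_natCast]
    exact map_dvd (Int.castRingHom _)
      (Int.dvd_natAbs.2 (Finset.dvd_prod_of_mem d.c (Finset.mem_univ i)))
  · rw [Datum.val_map, Ne, Ideal.Quotient.eq_zero_iff_mem, Ideal.mem_span_singleton]
    exact h4
  · rw [nrm_eq] at h6
    rw [mul_assoc]
    exact_mod_cast h6

theorem uniform_bound (M : Model G) (H : Subgroup G) (k : ℕ) (S : Finset G) :
    ∃ C : ℕ, ∀ n x, InBall S n x → {p | p.Prime ∧ SepP H k p x}.Infinite → ∀ t : ℕ, 1 ≤ t →
      n + 2 ≤ 2 ^ t → SepLe H x ((C * t) ^ k) := by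
  obtain ⟨s, hs, hspan⟩ := (Submodule.fg_span_iff_fg_span_finset_subset
    (R := MvPolynomial (Fin M.h) ℂ) {P | Good M H k S P}).1 (IsNoetherian.noetherian _)
  choose! C hC using fun P (hP : P ∈ s) => hs hP
  refine ⟨s.sup C, fun n x hx h1 t ht hn => ?_⟩
  obtain ⟨P, hP, h2⟩ := exists_good M S h1
  obtain ⟨P, hP, h2⟩ : ∃ P ∈ s, eval (fun i => (M.co x i : ℂ)) P ≠ 0 := by
    by_contra hc
    push Not at hc
    have h3 : Submodule.span (MvPolynomial (Fin M.h) ℂ) (s : Set (MvPolynomial (Fin M.h) ℂ)) ≤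
        RingHom.ker (eval fun i => (M.co x i : ℂ)) := Submodule.span_le.2 hc
    exact h2 (h3 (hspan ▸ Submodule.subset_span hP))
  exact (hC P hP n x hx h2 t ht hn).mono
    (Nat.pow_le_pow_left (Nat.mul_le_mul_right _ (Finset.le_sup hP)) k)

end Pool.Agent.P.MP_5b4d81_al
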