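import Mathlib

set_option autoImplicit false

namespace Pool.Agent.P.MP_5b4d81_al

open Filter

universe u

/-- Ultraproducts of the rings `ℤ/p^e` and `ℤ/p` with a coefficient field section. -/
structure UD (U : Ultrafilter ℕ) (e : ℕ) where
  R : Type
  F : Type
  [instR : CommRing R]
  [instF : Field F]
  [instC : CharZero F]
  θ : (ℕ → ℤ) →+* R
  s : F →+* R
  surj : Function.Surjective θ
  ker : ∀ z, θ z = 0 ↔ ∀ᶠ p : ℕ in U, (p : ℤ) ^ e ∣ z p
  sec : ∀ z : ℕ → ℤ, ∃ r z', θ z' = s r ∧ ∀ᶠ p : ℕ in U, (p : ℤ) ∣ z' p - z p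
  inj : Function.Injective s

attribute [instance] UD.instR UD.instF UD.instC

/-- sequences divisible by `p^e` for most `p` -/
def divIdeal (U : Ultrafilter ℕ) (e : ℕ) : Ideal (ℕ → ℤ) where
  carrier := {z | ∀ᶠ p : ℕ in U, (p : ℤ) ^ e ∣ z p}
  zero_mem' := Eventually.of_forall fun _ => dvd_zero _
  add_mem' := fun ha hb => (ha.and hb).mono fun _ h => h.1.add h.2
  smul_mem' := fun _ _ hb => hb.mono fun _ h => h.mul_left _

lemma smooth_of_charZero (F : Type) [Field F] [CharZero F] : Algebra.FormallySmooth ℤ F := by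
  have h1 : Algebra.FormallySmooth ℤ ℚ := .of_isLocalization (nonZeroDivisors ℤ)
  obtain ⟨s, hs⟩ := exists_isTranscendenceBasis ℚ F
  have h2 := hs.isAlgebraic_field
  have h3 : Algebra.FormallySmooth ℚ F := .of_algebraicIndependent_of_isSeparable hs.1
  exact .comp ℤ ℚ F

theorem exists_UD (U : Ultrafilter ℕ) (hU : ∀ᶠ p : ℕ in U, p.Prime) (hc : (U : Filter ℕ) ≤ cofinite)
    (e : ℕ) (he : 1 ≤ e) : Nonempty (UD U e) := by
  have hmax : (divIdeal U 1).IsMaximal := by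
    refine Ideal.isMaximal_iff.2 ⟨fun h => ?_, fun J z hJ hz hzJ => ?_⟩
    · obtain ⟨p, h1, h2⟩ := (hU.and h).exists
      rw [pow_one, Pi.one_apply] at h2
      exact (Nat.prime_iff_prime_int.1 h1).not_dvd_one h2
    · have h1 : ∀ᶠ p : ℕ in U, ¬ (p : ℤ) ^ 1 ∣ z p := Ultrafilter.eventually_not.2 hz
      have h2 : ∀ p : ℕ, ∃ w : ℤ, p.Prime → ¬ (p : ℤ) ^ 1 ∣ z p → (p : ℤ) ^ 1 ∣ 1 - w * z p := by
        intro p
        by_cases h : p.Prime ∧ ¬ (p : ℤ) ^ 1 ∣ z p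
        · rw [pow_one] at h ⊢
          obtain ⟨a, b, hab⟩ := (Nat.prime_iff_prime_int.1 h.1).coprime_iff_not_dvd.2 h.2
          exact ⟨b, fun _ _ => ⟨a, by linarith⟩⟩
        · exact ⟨0, fun h1 h2 => absurd ⟨h1, h2⟩ h⟩
      choose w hw using h2
      have h3 : 1 - w * z ∈ J := hJ ((hU.and h1).mono fun p h => hw p h.1 h.2)
      simpa using J.add_mem h3 (J.mul_mem_left w hzJ)
  let := Ideal.Quotient.field (divIdeal U 1)
  have hchar : CharZero ((ℕ → ℤ) ⧸ divIdeal U 1) := by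
    refine charZero_of_inj_zero fun n hn => ?_
    rw [← map_natCast (Ideal.Quotient.mk (divIdeal U 1)), Ideal.Quotient.eq_zero_iff_mem] at hn
    have h1 : ∀ᶠ p : ℕ in U, n < p := hc (by
      rw [Nat.cofinite_eq_atTop]; exact eventually_gt_atTop n)
    obtain ⟨p, h2, h3⟩ := (h1.and hn).exists
    rw [pow_one, Pi.natCast_apply, Int.natCast_dvd_natCast] at h3
    exact Nat.eq_zero_of_dvd_of_lt h3 h2
  have hle : divIdeal U e ≤ divIdeal U 1 := fun z hz =>
    Eventually.mono hz fun p h => (pow_dvd_pow _ he).trans h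
  let π : ((ℕ → ℤ) ⧸ divIdeal U e) →+* ((ℕ → ℤ) ⧸ divIdeal U 1) := Ideal.Quotient.factor hle
  have hπ : Function.Surjective π := Ideal.Quotient.factor_surjective hle
  have hnil : IsNilpotent (RingHom.ker π) := by
    let P : (ℕ → ℤ) ⧸ divIdeal U e := Ideal.Quotient.mk _ fun p => (p : ℤ)
    have h1 : RingHom.ker π ≤ Ideal.span {P} := by
      intro x hx
      obtain ⟨z, rfl⟩ := Ideal.Quotient.mk_surjective x
      have h2 : z ∈ divIdeal U 1 := Ideal.Quotient.eq_zero_iff_mem.1 hx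
      refine Ideal.mem_span_singleton'.2 ⟨Ideal.Quotient.mk _ fun p => z p / p, ?_⟩
      rw [← map_mul, Ideal.Quotient.eq]
      refine Eventually.mono h2 fun p h => ?_
      rw [pow_one] at h
      simp [Int.ediv_mul_cancel h]
    refine ⟨e, le_bot_iff.1 ((Ideal.pow_right_mono h1 e).trans ?_)⟩
    rw [Ideal.span_singleton_pow, le_bot_iff, Ideal.span_singleton_eq_bot, ← map_pow,
      Ideal.Quotient.eq_zero_iff_mem]
    exact Eventually.of_forall fun p => dvd_rfl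
  have hsm := smooth_of_charZero ((ℕ → ℤ) ⧸ divIdeal U 1)
  let s := Algebra.FormallySmooth.liftOfSurjective (R := ℤ) (AlgHom.id ℤ _) π.toIntAlgHom hπ hnil
  have hs : ∀ r, π (s r) = r := fun r =>
    Algebra.FormallySmooth.liftOfSurjective_apply (AlgHom.id ℤ _) π.toIntAlgHom hπ hnil r
  refine ⟨{ R := (ℕ → ℤ) ⧸ divIdeal U e, F := (ℕ → ℤ) ⧸ divIdeal U 1, θ := Ideal.Quotient.mk _,
            s := s.toRingHom, surj := Ideal.Quotient.mk_surjective,
            ker := fun z => Ideal.Quotient.eq_zero_iff_mem, sec := fun z => ?_,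
            inj := Function.LeftInverse.injective hs }⟩
  obtain ⟨z', hz'⟩ := Ideal.Quotient.mk_surjective (s (Ideal.Quotient.mk _ z))
  refine ⟨_, z', hz', ?_⟩
  have := hs (Ideal.Quotient.mk _ z)
  rw [← hz'] at this
  have h1 : z' - z ∈ divIdeal U 1 := Ideal.Quotient.eq.1 this
  exact Eventually.mono h1 fun p h => by simpa using h

lemma prime_step {Q : Type u} [Group Q] [Finite Q] {p n : ℕ} (hp : p.Prime) {A A' : Subgroup Q}
    (hle : A ≤ A') (h1 : Nat.card A = p ^ n) (h2 : Nat.card A' = p ^ (n + 1)) :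
    (∀ u ∈ A', u ^ p ∈ A) ∧ ∀ u ∈ A', ∀ v ∈ A', u ∉ A → ∃ r : ℤ, v * u ^ r ∈ A := by
  have : Fact p.Prime := ⟨hp⟩
  have h3 : (A.subgroupOf A').index = p := by
    have := (A.subgroupOf A').card_mul_index
    rw [Nat.card_congr (Subgroup.subgroupOfEquivOfLe hle).toEquiv, h1, h2, pow_succ] at this
    exact Nat.eq_of_mul_eq_mul_left (pow_pos hp.pos n) this
  have h4 : (A.subgroupOf A').Normal := Subgroup.normal_of_index_eq_minFac_card (by
    rw [h3, h2, Nat.pow_minFac (Nat.succ_ne_zero n), hp.minFac_eq])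
  refine ⟨fun u hu => ?_, fun u hu v hv huA => ?_⟩
  · have := (A.subgroupOf A').pow_index_mem ⟨u, hu⟩
    rwa [h3] at this
  · have h5 : (QuotientGroup.mk ⟨u, hu⟩ : A' ⧸ A.subgroupOf A') ≠ 1 := fun h =>
      huA (Subgroup.mem_subgroupOf.1 ((QuotientGroup.eq_one_iff _).1 h))
    obtain ⟨r, hr⟩ := mem_zpowers_of_prime_card h3 h5
      (g' := (QuotientGroup.mk ⟨v, hv⟩ : A' ⧸ A.subgroupOf A')⁻¹)
    refine ⟨r, ?_⟩
    have : (QuotientGroup.mk (⟨v, hv⟩ * ⟨u, hu⟩ ^ r) : A' ⧸ A.subgroupOf A') = 1 := by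
      simp only at hr
      rw [QuotientGroup.mk_mul, QuotientGroup.mk_zpow, hr, mul_inv_cancel]
    exact Subgroup.mem_subgroupOf.1 ((QuotientGroup.eq_one_iff _).1 this)

lemma exists_chain {G : Type u} [Group G] {p j k : ℕ} (hp : p.Prime) (J : Subgroup G) [J.Normal]
    (hJ : J.index = p ^ j) (hjk : j ≤ k) : ∃ B : ℕ → Subgroup G, B 0 = ⊤ ∧ B k = J ∧ ∀ t, J ≤ B t ∧
      (∀ u ∈ B t, u ^ p ∈ B (t + 1)) ∧
      ∀ u ∈ B t, ∀ v ∈ B t, u ∉ B (t + 1) → ∃ r : ℤ, v * u ^ r ∈ B (t + 1) := by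
  have : Fact p.Prime := ⟨hp⟩
  have hc : Nat.card (G ⧸ J) = p ^ j := hJ
  have : Finite (G ⧸ J) := Nat.finite_of_card_ne_zero (hc ▸ pow_ne_zero _ hp.ne_zero)
  have h1 : ∀ (n : ℕ) (A : Subgroup (G ⧸ J)), ∃ A' : Subgroup (G ⧸ J), Nat.card A = p ^ min n j →
      Nat.card A' = p ^ min (n + 1) j ∧ A ≤ A' := by
    intro n A
    by_cases h : Nat.card A = p ^ min n j
    · by_cases hn : n < j
      · rw [min_eq_left hn.le] at h
        obtain ⟨A', h2⟩ := Sylow.exists_subgroup_card_pow_succ (hc ▸ pow_dvd_pow p hn) h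
        exact ⟨A', fun _ => by rwa [min_eq_left hn]⟩
      · exact ⟨A, fun h => ⟨by rw [h]; congr 1; omega, le_rfl⟩⟩
    · exact ⟨A, fun h' => absurd h' h⟩
  choose f hf using h1
  obtain ⟨C, hC0, hCs⟩ : ∃ C : ℕ → Subgroup (G ⧸ J), C 0 = ⊥ ∧ ∀ n, C (n + 1) = f n (C n) :=
    ⟨fun n => Nat.rec ⊥ f n, rfl, fun _ => rfl⟩
  have hC : ∀ n : ℕ, Nat.card ↥(C n) = p ^ min n j := by
    intro n
    induction n with
    | zero => simp [hC0]
    | succ n ih => rw [hCs]; exact (hf n _ ih).1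
  have hC' : ∀ n, C n ≤ C (n + 1) := fun n => hCs n ▸ (hf n _ (hC n)).2
  refine ⟨fun t => (C (k - t)).comap (QuotientGroup.mk' J), ?_, ?_, fun t => ⟨?_, ?_⟩⟩
  · have : C k = ⊤ := Subgroup.eq_top_of_card_eq _ (by rw [hC, hc, min_eq_right hjk])
    simp [this]
  · simp [hC0]
  · intro x hx
    rw [Subgroup.mem_comap, QuotientGroup.mk'_apply, (QuotientGroup.eq_one_iff x).2 hx]
    exact one_mem _
  · have key : (∀ u ∈ C (k - t), u ^ p ∈ C (k - (t + 1))) ∧ ∀ u ∈ C (k - t), ∀ v ∈ C (k - t),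
        u ∉ C (k - (t + 1)) → ∃ r : ℤ, v * u ^ r ∈ C (k - (t + 1)) := by
      by_cases h : t < k ∧ k - (t + 1) < j
      · rw [show k - t = k - (t + 1) + 1 by omega]
        exact prime_step hp (hC' _) (by rw [hC, min_eq_left h.2.le]) (by rw [hC, min_eq_left h.2])
      · have : C (k - (t + 1)) = C (k - t) := by
          by_cases h' : t < k
          · rw [show k - t = k - (t + 1) + 1 by omega]
            refine Subgroup.eq_of_le_of_card_ge (hC' _) (le_of_eq ?_)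
            rw [hC, hC]; congr 1; omega
          · congr 1; omega
        rw [this]
        exact ⟨fun u hu => pow_mem hu p, fun u hu _ _ h => absurd hu h⟩
    simp only [Subgroup.mem_comap, map_pow, map_mul, map_zpow]
    exact ⟨fun u hu => key.1 _ hu, fun u hu v hv h => key.2 _ hu _ hv h⟩

end Pool.Agent.P.MP_5b4d81_al
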