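import Pool.Agent.P.MP_5b4d81_al.Facts
import Pool.Agent.P.MP_5b4d81_al.Echelon
import Pool.Agent.P.MP_5b4d81_al.UD

set_option autoImplicit false

namespace Pool.Agent.P.MP_5b4d81_al

open Filter MvPolynomial

universe u

lemma hom_aeval {σ A B : Type} [CommRing A] [CommRing B] (f : A →+* B) (a : σ → A)
    (P : MvPolynomial σ ℤ) : f (aeval a P) = aeval (fun i => f (a i)) P := by
  induction P using MvPolynomial.induction_on with
  | C c => simp
  | add P Q hP hQ => simp [hP, hQ]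
  | mul_X P i hP => simp [hP]

variable {G : Type u} [Group G]

namespace UD

variable {U : Ultrafilter ℕ} {e : ℕ} (W : UD U e) (M : Model G)

/-- points over the field -/
def K : Type := Fin M.h → W.F

noncomputable instance : Mul (W.K M) :=
  ⟨fun a b i => (M.D : W.F)⁻¹ * aeval (Sum.elim a b) (M.Gm i)⟩

noncomputable def pw (a : W.K M) (r : W.F) : W.K M :=
  fun i => (M.D : W.F)⁻¹ * aeval (fun o => o.elim r a) (M.Gp i)

instance : One (W.K M) := ⟨fun _ => 0⟩

noncomputable instance : Inv (W.K M) := ⟨fun a => W.pw M a (-1)⟩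

variable {W M}

def Rep (x : ℕ → G) (a : W.K M) : Prop := ∀ i, W.θ (fun p => M.co (x p) i) = W.s (a i)

lemma θ_eval {σ : Type} (v : ℕ → σ → ℤ) (P : MvPolynomial σ ℤ) :
    W.θ (fun p => eval (v p) P) = aeval (fun i => W.θ fun p => v p i) P := by
  rw [← hom_aeval]
  congr 1
  funext p
  exact ((hom_aeval (Pi.evalRingHom (fun _ : ℕ => ℤ) p) (fun i p => v p i) P).trans
    (by rw [← coe_aeval_eq_eval]; rfl)).symm

lemma cancel_D {z : ℕ → ℤ} {r : W.F} (h : W.θ (fun p => M.D * z p) = W.s r) :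
    W.θ z = W.s ((M.D : W.F)⁻¹ * r) := by
  have h1 : W.θ (fun p => M.D * z p) = W.s M.D * W.θ z := by
    rw [map_intCast, ← map_intCast W.θ, ← map_mul]; rfl
  have h2 : (M.D : W.F) ≠ 0 := Int.cast_ne_zero.2 M.D_pos.ne'
  rw [map_mul, ← h, h1, ← mul_assoc, ← map_mul, inv_mul_cancel₀ h2, map_one, one_mul]

lemma Rep.mul {x y : ℕ → G} {a b : W.K M} (hx : Rep x a) (hy : Rep y b) :
    Rep (fun p => x p * y p) (a * b) := fun i => by
  refine cancel_D ?_
  simp only [M.co_mul]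
  rw [θ_eval, hom_aeval]
  congr 2
  funext o
  rcases o with j | j
  exacts [hx j, hy j]

lemma Rep.pw {x : ℕ → G} {a : W.K M} (hx : Rep x a) {n : ℕ → ℤ} {r : W.F} (hn : W.θ n = W.s r) :
    Rep (fun p => x p ^ n p) (W.pw M a r) := fun i => by
  refine cancel_D ?_
  simp only [M.co_pow]
  rw [θ_eval, hom_aeval]
  congr 2
  funext o
  rcases o with _ | j
  exacts [hn, hx j]

lemma rep_one : Rep (fun _ => (1 : G)) (1 : W.K M) := fun i => by
  simp only [M.co_one]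
  exact (map_zero W.θ).trans (map_zero W.s).symm

lemma Rep.inv {x : ℕ → G} {a : W.K M} (hx : Rep x a) : Rep (fun p => (x p)⁻¹) a⁻¹ := by
  have := hx.pw (n := -1) (r := -1) (by simp)
  simp only [Pi.neg_apply, Pi.one_apply, zpow_neg, zpow_one] at this
  exact this

lemma exists_rep (a : W.K M) : ∃ x : ℕ → G, Rep x a ∧ ∀ i, a i = 0 → ∀ p, M.co (x p) i = 0 := by
  have : ∀ i, ∃ z, W.θ z = W.s (a i) ∧ (a i = 0 → z = 0) := fun i => by
    by_cases h : a i = 0
    · exact ⟨0, by simp [h], fun _ => rfl⟩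
    · obtain ⟨z, hz⟩ := W.surj (W.s (a i))
      exact ⟨z, hz, fun h' => absurd h' h⟩
  choose z h1 h2 using this
  exact ⟨fun p => M.co.symm fun i => z i p, fun i => by simpa using h1 i,
    fun i hi p => by simp [h2 i hi]⟩

lemma Rep.inj {x : ℕ → G} {a b : W.K M} (ha : Rep x a) (hb : Rep x b) : a = b :=
  funext fun i => W.inj ((ha i).symm.trans (hb i))

lemma Rep.cg {x y : ℕ → G} {a : W.K M} (hx : Rep x a) (hy : Rep y a) :
    ∀ᶠ p : ℕ in U, M.Cg ((p : ℤ) ^ e) (x p) (y p) := by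
  refine eventually_all.2 fun i => ?_
  have : W.θ ((fun p => M.co (y p) i) - fun p => M.co (x p) i) = 0 := by
    rw [map_sub, hx i, hy i, sub_self]
  exact ((W.ker _).1 this).mono fun p h => Int.modEq_iff_dvd.2 h

noncomputable instance : Group (W.K M) :=
  Group.ofLeftAxioms
    (fun a b c => by
      obtain ⟨x, hx, -⟩ := exists_rep a
      obtain ⟨y, hy, -⟩ := exists_rep b
      obtain ⟨z, hz, -⟩ := exists_rep c
      exact ((hx.mul hy).mul hz).inj (by simpa only [mul_assoc] using hx.mul (hy.mul hz)))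
    (fun a => by
      obtain ⟨x, hx, -⟩ := exists_rep a
      exact (rep_one.mul hx).inj (by simpa only [one_mul] using hx))
    (fun a => by
      obtain ⟨x, hx, -⟩ := exists_rep a
      exact (hx.inv.mul hx).inj (by simpa only [inv_mul_cancel] using rep_one))

lemma eval_map_int {σ : Type} (c : W.F) (a : σ → W.F) (P : MvPolynomial σ ℤ) :
    eval a (C c * map (Int.castRingHom W.F) P) = c * aeval a P := by
  rw [map_mul, eval_C, eval_map, aeval_def]; rfl

variable (W M) in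
noncomputable def fmodel : FModel (W.K M) W.F where
  h := M.h
  co := Equiv.refl _
  addR' := fun j a b h => by
    obtain ⟨x, hx, hx'⟩ := exists_rep a
    obtain ⟨y, hy, -⟩ := exists_rep b
    refine W.inj (((hy.mul hx) j).symm.trans ?_)
    simp only [fun p => M.addR' j (x p) (y p) fun i hi => hx' i (h i hi) p]
    exact (map_add W.θ _ _).trans (by rw [hx j, hy j, ← map_add]; rfl)
  addL' := fun j a b h => by
    obtain ⟨x, hx, hx'⟩ := exists_rep a
    obtain ⟨y, hy, -⟩ := exists_rep b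
    refine W.inj (((hx.mul hy) j).symm.trans ?_)
    simp only [fun p => M.addL' j (x p) (y p) fun i hi => hx' i (h i hi) p]
    exact (map_add W.θ _ _).trans (by rw [hx j, hy j, ← map_add]; rfl)
  pw := W.pw M
  Pm := fun i => C (M.D : W.F)⁻¹ * map (Int.castRingHom W.F) (M.Gm i)
  Pp := fun i => C (M.D : W.F)⁻¹ * map (Int.castRingHom W.F) (M.Gp i)
  co_mul := fun _ _ _ => (eval_map_int _ _ _).symm
  co_pw := fun _ _ _ => (eval_map_int _ _ _).symm
  pw_lin := fun j a r h => by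
    obtain ⟨x, hx, hx'⟩ := exists_rep a
    obtain ⟨n, hn⟩ := W.surj (W.s r)
    refine W.inj (((hx.pw hn) j).symm.trans ?_)
    simp only [fun p => Tri.co_zpow (M := M.toTri) (i := j) (x := x p)
      (fun i hi => hx' i (h i hi) p) (n p) le_rfl]
    exact (map_mul W.θ _ _).trans (by rw [hx j, hn, ← map_mul]; rfl)

lemma rep_const (y : G) : Rep (W := W) (fun _ => y) fun i => (M.co y i : W.F) := fun i => by
  rw [map_intCast, ← map_intCast W.θ]; rfl

variable (W M) in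
noncomputable def ι : G →* W.K M :=
  MonoidHom.mk' (fun y i => (M.co y i : W.F)) fun a b =>
    (rep_const (a * b)).inj ((rep_const a).mul (rep_const b))

lemma rep_ι (y : G) : Rep (fun _ => y) (W.ι M y) := rep_const y

variable (W M) in
/-- the subgroup of points over the field defined by a sequence of subgroups -/
def pull (A : ℕ → Subgroup G) : Subgroup (W.K M) where
  carrier := {a | ∃ x, Rep x a ∧ ∀ᶠ p : ℕ in U, x p ∈ A p}
  one_mem' := ⟨_, rep_one, Eventually.of_forall fun _ => one_mem _⟩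
  mul_mem' := fun ⟨_, hx, hx'⟩ ⟨_, hy, hy'⟩ =>
    ⟨_, hx.mul hy, (hx'.and hy').mono fun _ h => mul_mem h.1 h.2⟩
  inv_mem' := fun ⟨_, hx, hx'⟩ => ⟨_, hx.inv, hx'.mono fun _ h => inv_mem h⟩

lemma Rep.mem_pull {A : ℕ → Subgroup G}
    (hA : ∀ᶠ p : ℕ in U, ∀ x y, M.Cg ((p : ℤ) ^ e) x y → x⁻¹ * y ∈ A p) {x : ℕ → G} {a : W.K M}
    (hx : Rep x a) : a ∈ W.pull M A ↔ ∀ᶠ p : ℕ in U, x p ∈ A p := by
  refine ⟨fun ⟨y, hy, hy'⟩ => ?_, fun h => ⟨x, hx, h⟩⟩
  filter_upwards [hA, hy', hy.cg hx] with p h1 h2 h3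
  simpa using mul_mem h2 (h1 _ _ h3)

lemma fsub_pull (A : ℕ → Subgroup G) : (W.fmodel M).FSub (W.pull M A) := by
  rintro a ⟨x, hx, hx'⟩ r
  obtain ⟨n, hn⟩ := W.surj (W.s r)
  exact ⟨_, hx.pw hn, hx'.mono fun _ h => zpow_mem h _⟩

lemma pull_mono {A B : ℕ → Subgroup G} (h : ∀ p, A p ≤ B p) : W.pull M A ≤ W.pull M B :=
  fun _ ⟨x, hx, hx'⟩ => ⟨x, hx, hx'.mono fun p h' => h p h'⟩

lemma pull_normal {A : ℕ → Subgroup G} (h : ∀ p, (A p).Normal) : (W.pull M A).Normal := by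
  refine ⟨?_⟩
  rintro a ⟨x, hx, hx'⟩ b
  obtain ⟨y, hy, -⟩ := exists_rep b
  exact ⟨_, (hy.mul hx).mul hy.inv, hx'.mono fun p h' => (h p).conj_mem _ h' _⟩

lemma pull_step {A B : ℕ → Subgroup G}
    (hB : ∀ᶠ p : ℕ in U, ∀ x y, M.Cg ((p : ℤ) ^ e) x y → x⁻¹ * y ∈ B p)
    (h : ∀ᶠ p : ℕ in U, (∀ u ∈ A p, u ^ p ∈ B p) ∧
      ∀ u ∈ A p, ∀ v ∈ A p, u ∉ B p → ∃ r : ℤ, v * u ^ r ∈ B p) :
    ((W.fmodel M).piv (W.pull M A)).card ≤ ((W.fmodel M).piv (W.pull M B)).card + 1 := by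
  refine FModel.piv_step ?_
  rintro a ⟨x, hx, hx'⟩ b ⟨y, hy, hy'⟩ hn
  rw [hx.mem_pull hB, ← Ultrafilter.eventually_not] at hn
  have : ∀ p, ∃ r : ℤ, (∃ r : ℤ, y p * x p ^ r ∈ B p) → y p * x p ^ r ∈ B p := fun p => by
    by_cases h : ∃ r : ℤ, y p * x p ^ r ∈ B p
    · exact ⟨h.choose, fun _ => h.choose_spec⟩
    · exact ⟨0, fun h' => absurd h' h⟩
  choose z hz using this
  obtain ⟨r, z', h1, h2⟩ := W.sec z
  refine ⟨r, _, hy.mul (hx.pw h1), ?_⟩
  filter_upwards [h, hx', hy', hn, h2] with p h3 h4 h5 h6 h7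
  obtain ⟨c, hc⟩ := h7
  have := mul_mem (hz p (h3.2 _ h4 _ h5 h6)) (zpow_mem (h3.1 _ h4) c)
  rwa [← zpow_natCast, ← zpow_mul, ← hc, mul_assoc, ← zpow_add, add_sub_cancel] at this

end UD

/-- `x` is separated from `H` in a quotient of order `p^j`, `j ≤ k`. -/
def SepP (H : Subgroup G) (k p : ℕ) (x : G) : Prop :=
  ∃ J : Subgroup G, J.Normal ∧ (∃ j ≤ k, J.index = p ^ j) ∧ x ∉ H ⊔ J

theorem datum_of_sep (M : Model G) {H : Subgroup G} {k : ℕ} {x : G}
    (h : {p | p.Prime ∧ SepP H k p x}.Infinite) :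
    ∃ (F : Type) (_ : Field F) (_ : CharZero F) (d : Datum (fun g => M.co g) H k F),
      d.val x ≠ 0 := by
  have := h.cofinite_inf_principal_neBot
  let U : Ultrafilter ℕ := Ultrafilter.of (cofinite ⊓ 𝓟 {p | p.Prime ∧ SepP H k p x})
  have hU : (U : Filter ℕ) ≤ _ := Ultrafilter.of_le _
  have hc : (U : Filter ℕ) ≤ cofinite := hU.trans inf_le_left
  have hP : ∀ᶠ p : ℕ in U, p.Prime ∧ SepP H k p x := le_principal_iff.1 (hU.trans inf_le_right)
  obtain ⟨W⟩ := exists_UD U (hP.mono fun _ h => h.1) hc (k + 1) (by omega)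
  have h1 : ∀ p : ℕ, ∃ B : ℕ → Subgroup G, (B k).Normal ∧ (p.Prime ∧ SepP H k p x →
      B 0 = ⊤ ∧ x ∉ H ⊔ B k ∧ (∀ g, g ^ ((p : ℤ) ^ (k + 1)) ∈ B k) ∧ ∀ t, B k ≤ B t ∧
      (∀ u ∈ B t, u ^ p ∈ B (t + 1)) ∧
      ∀ u ∈ B t, ∀ v ∈ B t, u ∉ B (t + 1) → ∃ r : ℤ, v * u ^ r ∈ B (t + 1)) := by
    intro p
    by_cases h : p.Prime ∧ SepP H k p x
    · obtain ⟨hp, J, hn, ⟨j, hj, hJ⟩, hx⟩ := h
      obtain ⟨B, h0, rfl, hB⟩ := exists_chain hp J hJ hj
      refine ⟨B, hn, fun _ => ⟨h0, hx, fun g => ?_, hB⟩⟩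
      have := pow_mem ((B k).pow_index_mem g) (p ^ (k + 1 - j))
      rw [hJ, ← pow_mul, ← pow_add, show j + (k + 1 - j) = k + 1 by omega] at this
      exact_mod_cast this
    · exact ⟨fun _ => ⊤, inferInstance, fun h' => absurd h' h⟩
  choose B hn hB using h1
  have hB' := hP.mono hB
  have hD : ∀ᶠ p : ℕ in U, M.D < p := hc (by
    rw [Nat.cofinite_eq_atTop]
    filter_upwards [eventually_gt_atTop M.D.toNat] with p hp
    omega)
  have hA : ∀ᶠ p : ℕ in U, ∀ x y, M.Cg ((p : ℤ) ^ (k + 1)) x y → x⁻¹ * y ∈ B p k := by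
    filter_upwards [hP, hB', hD] with p h1 h2 h3 x y h4
    refine h4.mem (IsCoprime.pow_left ((Nat.prime_iff_prime_int.1 h1.1).coprime_iff_not_dvd.2
      fun h => ?_)) h2.2.2.1
    exact absurd (Int.le_of_dvd M.D_pos h) (not_le.2 h3)
  have hk : ∀ t, M.h ≤ ((W.fmodel M).piv (W.pull M fun p => B p t)).card + t := by
    intro t
    induction t with
    | zero =>
      have : (W.pull M fun p => B p 0) = ⊤ := eq_top_iff.2 fun a _ => by
        obtain ⟨y, hy, -⟩ := UD.exists_rep a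
        exact ⟨y, hy, hB'.mono fun p h => by simp [h.1]⟩
      rw [this, FModel.piv_top, Finset.card_univ, Fintype.card_fin]
      exact le_rfl
    | succ t ih =>
      have := UD.pull_step (W := W) (M := M) (A := fun p => B p t) (B := fun p => B p (t + 1))
        ((hA.and hB').mono fun p h x y h' => (h.2.2.2.2 (t + 1)).1 (h.1 x y h'))
        (hB'.mono fun p h => (h.2.2.2 t).2)
      omega
  refine ⟨W.F, inferInstance, inferInstance, (W.fmodel M).exists_datum (W.ι M) (fun g => M.co g)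
    (fun _ _ => rfl) (V := W.pull M fun p => H ⊔ B p k) (UD.fsub_pull _) (UD.pull_normal hn)
    (UD.fsub_pull _) (UD.pull_mono fun _ => le_sup_right)
    (fun η hη => ⟨_, UD.rep_ι η, Eventually.of_forall fun _ => Subgroup.mem_sup_left hη⟩)
    (hk k) ?_⟩
  rw [(UD.rep_ι x).mem_pull (hA.mono fun p h x y h' => Subgroup.mem_sup_right (h x y h')),
    ← Ultrafilter.eventually_not]
  exact hB'.mono fun p h => h.2.1

end Pool.Agent.P.MP_5b4d81_al
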